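import Pool.Agent.RowCol.Defs
import Pool.Agent.HexTube.Final
import Pool.Agent.W47.IneqB

/-!
ROWCOL, module R10: long arcs weigh at most as much as bridges.
-/

set_option autoImplicit false

namespace HexObs

namespace RC

open Complex Finset ENNReal

namespace TailB

open Tube

/-- the ratio of the two cosines -/
noncomputable def cr : ℝ := Real.cos (Real.pi / 8) / Real.cos (3 * Real.pi / 8)

lemma cos3_pos' : 0 < Real.cos (3 * Real.pi / 8) := by
  apply Real.cos_pos_of_mem_Ioo
  constructor <;> linarith [Real.pi_pos]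

lemma cr_pos : 0 < cr := div_pos cos_pos cos3_pos'

/-- downward exits of the strip that are not exits of the part left of the gate -/
lemma arcs_le [DecidableEq (List Bool)] {T L r r' : ℕ} (hT : 1 ≤ T) (hL : 1 ≤ L) (hr : 1 ≤ r) (hrr : r ≤ r')
    {A : Finset (List Bool)} (hA : ∀ t ∈ A, t ∈ exits (dF upm oo false T L r') oo up ∧
      t ∉ exits (dF upm oo false T L r) oo up ∧ dx up t t.length = -up) :
    wS A ≤ cr * wS (gE upm oo false T L r) := by
  have hs : dF upm oo false T L r ⊆ dF upm oo false T L r' := by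
    intro v hv
    rw [mem_dF] at hv ⊢
    obtain ⟨h1, h2, h3⟩ := hv
    have h6 : ip (v - oo) (rotR up) < 3 * r := h3
    have h7 : (r : ℤ) ≤ r' := by exact_mod_cast hrr
    refine ⟨h1, h2, ?_⟩
    show ip (v - oo) (rotR up) < 3 * r'
    linarith
  have hr' : 1 ≤ r' := by omega
  have abs0 : |(0 : ℝ)| ≤ Real.pi / 8 := by
    rw [abs_zero]
    positivity
  have h1 := two_dom upm (dF_half upm oo false T L r) (dF_half upm oo false T L r') 0
  have h2 : ∑ t ∈ A, fb 0 t ≤
      ∑ t ∈ exits (dF upm oo false T L r') oo up \ exits (dF upm oo false T L r) oo up, fb 0 t := by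
    apply Finset.sum_le_sum_of_subset_of_nonneg
    · intro t ht
      obtain ⟨h3, h4, _⟩ := hA t ht
      exact Finset.mem_sdiff.2 ⟨h3, h4⟩
    · intro t ht _
      exact fb_nonneg abs0 (dm_wind upm false hT hL hr' (Finset.mem_sdiff.1 ht).1)
  have h3 : ∑ t ∈ exits (dF upm oo false T L r) oo up \ exits (dF upm oo false T L r') oo up, fb 0 t ≤
      ∑ t ∈ gE upm oo false T L r, fb 0 t := by
    apply Finset.sum_le_sum_of_subset_of_nonneg
    · intro t ht
      obtain ⟨h4, h5⟩ := Finset.mem_sdiff.1 ht
      refine Finset.mem_filter.2 ⟨h4, exit_gate upm oo (k' := false) (r' := r') hT hL hr h4 ?_⟩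
      by_contra hcon
      obtain ⟨ha, _⟩ := mem_exits.1 h4
      exact h5 (mem_exits.2 ⟨⟨fun i h6 h7 => hs (ha.mem i h6 h7), ha.inj⟩, hcon⟩)
    · intro t ht _
      exact fb_nonneg abs0 (dm_wind upm false hT hL hr (Finset.mem_filter.1 ht).1)
  have h4 : ∑ t ∈ A, fb 0 t = Real.cos (3 * Real.pi / 8) * wS A := by
    unfold wS
    rw [Finset.mul_sum]
    apply Finset.sum_congr rfl
    intro t ht
    obtain ⟨g1, _, g3⟩ := hA t ht
    obtain ⟨⟨a1, a2, a3, a4, a5⟩, ⟨b1, b2, b3, b4⟩, ⟨c1, c2, c3⟩, ⟨e1, e2⟩, f1⟩ := dirs_distinct up upm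
    have hw : wind t = 3 ∨ wind t = -3 := by
      rcases (dm_good upm false hT hL hr').wind g1 with ⟨hd, _⟩ | ⟨hd, _⟩ | ⟨hd, _⟩ | ⟨hd, _⟩ | ⟨hd, _⟩ | ⟨_, hw⟩
      · exact absurd (g3.symm.trans hd) a5
      · exact absurd (g3.symm.trans hd) b4
      · exact absurd (g3.symm.trans hd) c3
      · exact absurd (g3.symm.trans hd) e2
      · exact absurd (g3.symm.trans hd) f1
      · exact hw
    have hc : Real.cos ((wind t : ℝ) * (Real.pi / 8) + 0) = Real.cos (3 * Real.pi / 8) := by
      rcases hw with hw | hw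
      · rw [hw]
        push_cast
        congr 1
        ring
      · rw [hw]
        push_cast
        rw [← Real.cos_neg]
        congr 1
        ring
    unfold fb
    rw [hc]
  rw [h4] at h2
  rw [sum_fb_const (gE_wind upm oo false hT hL hr)] at h3
  have e2 : (gw false : ℝ) * (Real.pi / 8) + 0 = -(Real.pi / 8) := by
    show ((-1 : ℤ) : ℝ) * (Real.pi / 8) + 0 = _
    push_cast
    ring
  rw [e2, Real.cos_neg] at h3
  have h5 : Real.cos (3 * Real.pi / 8) * wS A ≤ Real.cos (Real.pi / 8) * wS (gE upm oo false T L r) := by linarith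
  unfold cr
  rw [div_mul_eq_mul_div, le_div_iff₀ cos3_pos']
  linarith

/-- arcs that land at distance at least r weigh at most a constant times the corner weight -/
theorem tail_sc {T r : ℕ} (hT : 1 ≤ T) (hr : 1 ≤ r) : tail T r ≤ ENNReal.ofReal cr * sc T r := by
  classical
  have h0 : up ∈ dirs := upm
  have h1 : tail T r = gf (⋃ k : ℕ, outAt (St T) oo up (foot oo up ((r + k : ℕ) : ℤ)) (-up)) := by
    rw [CB.gf_iUnion_disj]
    · unfold tail
      apply tsum_congr
      intro k
      rw [CB.GG_eq]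
      rfl
    · intro i j hij
      rw [Set.disjoint_left]
      rintro t ⟨_, g1⟩ ⟨_, g2⟩
      rw [g1] at g2
      have h3 := CB.foot_inj h0 oo g2
      push_cast at h3
      omega
  rw [h1]
  set P : Set (List Bool) := ⋃ k : ℕ, outAt (St T) oo up (foot oo up ((r + k : ℕ) : ℤ)) (-up) with hP
  apply gf_le_of_mono_union (fun L => {t | t ∈ P ∧ Saw (trap oo up T (L + 1)) oo up t})
  · intro L L' h t ht
    exact ⟨ht.1, ht.2.mono (trap_mono oo up T (by omega))⟩
  · intro t ht
    rw [Set.mem_iUnion]
    have h2 := ht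
    rw [hP, Set.mem_iUnion] at h2
    obtain ⟨k, hk, _⟩ := h2
    obtain ⟨L, hL⟩ := saw_trap hk.1
    exact ⟨L, ht, hL⟩
  · intro L
    apply gf_le_of_finset
    intro A hAF
    have key : wS A ≤ cr * wS (gE upm oo false T (L + r + 1) r) := by
      apply arcs_le hT (by omega) hr (r' := L + r + 1) (by omega)
      intro t ht
      obtain ⟨ht1, hsaw⟩ := hAF (Finset.mem_coe.2 ht)
      rw [hP, Set.mem_iUnion] at ht1
      obtain ⟨k, ⟨b1, b2, b3⟩, b4⟩ := ht1
      have hsub : trap oo up T (L + 1) ⊆ dm oo up false T (L + r + 1) (L + r + 1) := by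
        rintro v ⟨h1, h2, h3⟩
        have hr0 : (0 : ℤ) ≤ r := by positivity
        refine ⟨h1, ?_, ?_⟩
        · push_cast at h2 ⊢
          linarith
        · show ip (v - oo) (rotR up) < 3 * ((L + r + 1 : ℕ) : ℤ)
          push_cast at h3 ⊢
          linarith
      refine ⟨mem_exits.2 ⟨⟨fun j h3 h4 => ?_, b1.inj⟩, fun h5 => ?_⟩, ?_, b3⟩
      · rw [mem_dF]
        exact hsub (hsaw.mem j h3 h4)
      · rw [mem_dF] at h5
        exact b2 h5.1
      · intro hcon
        obtain ⟨c1, _⟩ := mem_exits.1 hcon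
        have hpos : 1 ≤ t.length := by
          by_contra hcon2
          have hz : t.length = 0 := by omega
          have hnil : t = [] := List.length_eq_zero_iff.1 hz
          rw [hnil] at b2
          exact b2 (by
            have := dm_start (v0 := oo) upm false hT (le_refl 1) (le_refl 1)
            exact this.1)
        have h5 := c1.mem t.length hpos le_rfl
        rw [mem_dF] at h5
        have h6 : ip (vx oo up t t.length - oo) (rotR up) < 3 * r := h5.2.2
        have h7 : tip oo up t = vx oo up t t.length + -up := by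
          have := tip_eq (v0 := oo) (d0 := up) t
          rw [b3] at this
          exact this
        have h8 : vx oo up t t.length - oo = foot oo up ((r + k : ℕ) : ℤ) - oo + up := by
          rw [← b4, h7]
          abel
        have h9 : foot oo up ((r + k : ℕ) : ℤ) - oo = ((r + k : ℕ) : ℤ) • hz up := by
          unfold foot
          abel
        have h10 : ip (vx oo up t t.length - oo) (rotR up) = 3 * ((r + k : ℕ) : ℤ) + 1 := by
          rw [h8, h9, ip_add_left, ip_smul_left, CB.ip_hz_R h0]
          have : ip up (rotR up) = 1 := by decide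
          rw [this]
          ring
        rw [h10] at h6
        push_cast at h6
        have hk0 : (0 : ℤ) ≤ k := by positivity
        linarith
    have h3 : gf ((A : Finset (List Bool)) : Set (List Bool)) ≤ ENNReal.ofReal cr * sc T r := by
      rw [gf_finset]
      refine (ENNReal.ofReal_le_ofReal key).trans ?_
      rw [ENNReal.ofReal_mul cr_pos.le]
      gcongr
      exact gE_le_sc hT (by omega) hr
    exact h3

end TailB

/-- R10 (TailB.lean). long arcs weigh at most as much as bridges. -/
theorem tail_le : ∃ C : ℝ, 0 < C ∧ ∀ T : ℕ, 1 ≤ T → (tail T T).toReal ≤ C * (BT T).toReal := by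
  have hc := TailB.cr_pos
  have hq := Tube.q0_pos
  refine ⟨TailB.cr * (6000 * (2 - Real.sqrt 2)), mul_pos hc (mul_pos (by norm_num) hq), fun T hT => ?_⟩
  have h1 := TailB.tail_sc hT hT
  have h2 := Tube.lat1 T 1 hT le_rfl
  rw [one_mul, pow_one] at h2
  have h3 : ENNReal.ofReal TailB.cr * sc T T ≠ ∞ := ENNReal.mul_ne_top ENNReal.ofReal_ne_top (Tube.sc_top T T hT hT)
  have h4 := ENNReal.toReal_mono h3 h1
  rw [ENNReal.toReal_mul, ENNReal.toReal_ofReal hc.le] at h4
  have h5 : TailB.cr * (sc T T).toReal ≤ TailB.cr * (6000 * (2 - Real.sqrt 2) * bT T) :=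
    mul_le_mul_of_nonneg_left h2 hc.le
  have h6 : bT T = (BT T).toReal := rfl
  rw [← h6]
  calc _ ≤ _ := h4
    _ ≤ _ := h5
    _ = _ := by ring

end RC

end HexObs
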