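import Pool.Agent.RowCol.Defs

/-!
ROWCOL, module R9: the test function (pure real analysis).
The weights are d ^ (-5/8) for d <= 2 N.
-/

set_option autoImplicit false

namespace HexObs

namespace RC

open Complex Finset ENNReal

namespace Test

/-- the weight -/
noncomputable def f (d : ℕ) : ℝ := (d : ℝ) ^ (-(5 / 8) : ℝ)

/-- the coefficients -/
noncomputable def h (i r : ℕ) : ℝ := (1 + Real.sqrt 2 / 2) * f r - 2 * f i - 1 / 2 * f (r + i)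

lemma f_pos {d : ℕ} (hd : 1 ≤ d) : 0 < f d := by
  have : (0 : ℝ) < d := by exact_mod_cast hd
  exact Real.rpow_pos_of_pos this _

lemma f_nonneg (d : ℕ) : 0 ≤ f d := Real.rpow_nonneg (Nat.cast_nonneg _) _

lemma f_one : f 1 = 1 := by
  unfold f
  rw [Nat.cast_one, Real.one_rpow]

lemma f_anti {a b : ℕ} (ha : 1 ≤ a) (hab : a ≤ b) : f b ≤ f a := by
  have h1 : (0 : ℝ) < a := by exact_mod_cast ha
  exact Real.rpow_le_rpow_of_nonpos h1 (by exact_mod_cast hab) (by norm_num)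

lemma pw {y : ℝ} (hy : 0 < y) : y ^ (3 / 8 : ℝ) = y ^ (-(5 / 8) : ℝ) * y := by
  nth_rewrite 3 [← Real.rpow_one y]
  rw [← Real.rpow_add hy]
  norm_num

lemma tang {x y : ℝ} (hx : 0 ≤ x) (hy : 0 < y) :
    x ^ (3 / 8 : ℝ) ≤ y ^ (-(5 / 8) : ℝ) * (3 / 8 * x + 5 / 8 * y) := by
  have h1 := Real.geom_mean_le_arith_mean2_weighted (w₁ := 3 / 8) (w₂ := 5 / 8) (p₁ := x) (p₂ := y)
    (by norm_num) (by norm_num) hx hy.le (by norm_num)
  have h0 : y ^ (-(5 / 8) : ℝ) * y ^ (5 / 8 : ℝ) = 1 := by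
    rw [← Real.rpow_add hy]
    norm_num
  have h2 : x ^ (3 / 8 : ℝ) = y ^ (-(5 / 8) : ℝ) * (x ^ (3 / 8 : ℝ) * y ^ (5 / 8 : ℝ)) := by
    calc x ^ (3 / 8 : ℝ) = x ^ (3 / 8 : ℝ) * (y ^ (-(5 / 8) : ℝ) * y ^ (5 / 8 : ℝ)) := by rw [h0, mul_one]
      _ = _ := by ring
  rw [h2]
  exact mul_le_mul_of_nonneg_left h1 (Real.rpow_nonneg hy.le _)

/-- upper bound of the sums -/
lemma sum_le (m : ℕ) : ∑ r ∈ Icc 1 m, f r ≤ 8 / 3 * (m : ℝ) ^ (3 / 8 : ℝ) := by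
  induction m with
  | zero => simp
  | succ m ih =>
    rw [Finset.sum_Icc_succ_top (by omega)]
    have hy : (0 : ℝ) < ((m + 1 : ℕ) : ℝ) := by positivity
    have h1 := tang (Nat.cast_nonneg (α := ℝ) m) hy
    have h2 := pw hy
    have h3 : f (m + 1) = ((m + 1 : ℕ) : ℝ) ^ (-(5 / 8) : ℝ) := rfl
    rw [← h3] at h1 h2
    rw [h2]
    push_cast at h1 ⊢
    linarith

lemma step_up (n : ℕ) (hn : 1 ≤ n) :
    8 / 3 * (((n : ℝ) + 1) ^ (3 / 8 : ℝ) - (n : ℝ) ^ (3 / 8 : ℝ)) ≤ f n := by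
  have hy : (0 : ℝ) < (n : ℝ) := by exact_mod_cast hn
  have h1 := tang (x := (n : ℝ) + 1) (by positivity) hy
  have h2 := pw hy
  have h3 : f n = (n : ℝ) ^ (-(5 / 8) : ℝ) := rfl
  rw [← h3] at h1 h2
  rw [h2]
  linarith

/-- lower bound of the shifted sums -/
lemma le_shift (i m : ℕ) : 8 / 3 * (((i : ℝ) + m + 1) ^ (3 / 8 : ℝ) - ((i : ℝ) + 1) ^ (3 / 8 : ℝ)) ≤
    ∑ r ∈ Icc 1 m, f (r + i) := by
  induction m with
  | zero => simp
  | succ m ih =>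
    rw [Finset.sum_Icc_succ_top (by omega)]
    have h1 := step_up (m + 1 + i) (by omega)
    have e1 : ((m + 1 + i : ℕ) : ℝ) + 1 = (i : ℝ) + ((m + 1 : ℕ) : ℝ) + 1 := by push_cast; ring
    have e2 : ((m + 1 + i : ℕ) : ℝ) = (i : ℝ) + m + 1 := by push_cast; ring
    rw [e1, e2] at h1
    linarith

/-- lower bound of the sums -/
lemma le_sum {m i : ℕ} (hmi : m ≤ i) : ∑ r ∈ Icc 1 m, f r +
    8 / 3 * (((i : ℝ) + 1) ^ (3 / 8 : ℝ) - ((m : ℝ) + 1) ^ (3 / 8 : ℝ)) ≤ ∑ r ∈ Icc 1 i, f r := by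
  induction i, hmi using Nat.le_induction with
  | base => simp
  | succ i hmi ih =>
    rw [Finset.sum_Icc_succ_top (by omega)]
    have h1 := step_up (i + 1) (by omega)
    push_cast at h1 ⊢
    linarith

lemma cst : (5743 / 10000 : ℝ) ^ (-(5 / 8) : ℝ) ≤ 14143 / 10000 := by
  have h0 : (0 : ℝ) < 5743 / 10000 := by norm_num
  have hz : 0 < (5743 / 10000 : ℝ) ^ (5 / 8 : ℝ) := Real.rpow_pos_of_pos h0 _
  have h1 : ((5743 / 10000 : ℝ) ^ (5 / 8 : ℝ)) ^ 8 = (5743 / 10000 : ℝ) ^ 5 := by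
    rw [← Real.rpow_natCast, ← Real.rpow_mul h0.le, ← Real.rpow_natCast]
    norm_num
  have h2 : (10000 / 14143 : ℝ) ≤ (5743 / 10000 : ℝ) ^ (5 / 8 : ℝ) := by
    apply le_of_pow_le_pow_left₀ (n := 8) (by norm_num) hz.le
    rw [h1]
    norm_num
  rw [Real.rpow_neg h0.le]
  rw [inv_le_comm₀ hz (by norm_num)]
  calc ((14143 / 10000 : ℝ))⁻¹ = 10000 / 14143 := by norm_num
    _ ≤ _ := h2

lemma two_ge : (1.2968 : ℝ) ≤ (2 : ℝ) ^ (3 / 8 : ℝ) := by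
  have h0 : (0 : ℝ) < 2 := by norm_num
  have h1 : ((2 : ℝ) ^ (3 / 8 : ℝ)) ^ 8 = (2 : ℝ) ^ 3 := by
    rw [← Real.rpow_natCast, ← Real.rpow_mul h0.le, ← Real.rpow_natCast]
    norm_num
  apply le_of_pow_le_pow_left₀ (n := 8) (by norm_num) (Real.rpow_nonneg h0.le _)
  rw [h1]
  norm_num

lemma two_le : (2 : ℝ) ^ (3 / 8 : ℝ) ≤ 1.3 := by
  have h0 : (0 : ℝ) < 2 := by norm_num
  have h1 : ((2 : ℝ) ^ (3 / 8 : ℝ)) ^ 8 = (2 : ℝ) ^ 3 := by
    rw [← Real.rpow_natCast, ← Real.rpow_mul h0.le, ← Real.rpow_natCast]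
    norm_num
  apply le_of_pow_le_pow_left₀ (n := 8) (by norm_num) (by norm_num)
  rw [h1]
  norm_num

/-- the tangent at .5743 i -/
lemma tang_i {i : ℕ} (hi : 1 ≤ i) {x : ℝ} (hx : 0 ≤ x) :
    x ^ (3 / 8 : ℝ) ≤ 14143 / 10000 * f i * (3 / 8 * x + 5 / 8 * (5743 / 10000) * i) := by
  have hy : (0 : ℝ) < (i : ℝ) := by exact_mod_cast hi
  have h1 := tang (y := 5743 / 10000 * i) hx (by positivity)
  rw [Real.mul_rpow (by norm_num) hy.le] at h1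
  have h3 : f i = (i : ℝ) ^ (-(5 / 8) : ℝ) := rfl
  rw [← h3] at h1
  refine h1.trans ?_
  have h4 : 0 ≤ f i * (3 / 8 * x + 5 / 8 * (5743 / 10000 * i)) :=
    mul_nonneg (f_nonneg i) (by positivity)
  calc (5743 / 10000 : ℝ) ^ (-(5 / 8) : ℝ) * f i * (3 / 8 * x + 5 / 8 * (5743 / 10000 * i))
      = (5743 / 10000 : ℝ) ^ (-(5 / 8) : ℝ) * (f i * (3 / 8 * x + 5 / 8 * (5743 / 10000 * i))) := by ring
    _ ≤ 14143 / 10000 * (f i * (3 / 8 * x + 5 / 8 * (5743 / 10000 * i))) := mul_le_mul_of_nonneg_right cst h4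
    _ = _ := by ring

/-- the chord -/
lemma chord {i m : ℕ} (hi : 1 ≤ i) (hm : m ≤ i) :
    f i * (i + 0.2968 * m) ≤ ((i : ℝ) + m + 1) ^ (3 / 8 : ℝ) := by
  have hy : (0 : ℝ) < (i : ℝ) := by exact_mod_cast hi
  have hmi : (m : ℝ) ≤ i := by exact_mod_cast hm
  have hm0 : (0 : ℝ) ≤ m := Nat.cast_nonneg m
  have hc := Real.concaveOn_rpow (p := 3 / 8) (by norm_num) (by norm_num)
  have hx1 : (i : ℝ) ∈ Set.Ici (0 : ℝ) := hy.le
  have hx2 : (2 * (i : ℝ)) ∈ Set.Ici (0 : ℝ) := by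
    show (0 : ℝ) ≤ 2 * i
    positivity
  have ha : (0 : ℝ) ≤ 1 - (m : ℝ) / i := by
    rw [sub_nonneg, div_le_one hy]
    exact hmi
  have hb : (0 : ℝ) ≤ (m : ℝ) / i := by positivity
  have h1 := hc.2 hx1 hx2 ha hb (by ring)
  simp only [smul_eq_mul] at h1
  have e1 : (1 - (m : ℝ) / i) * i + m / i * (2 * i) = i + m := by
    field_simp
    ring
  rw [e1, Real.mul_rpow (by norm_num) hy.le, pw hy] at h1
  have h3 : f i = (i : ℝ) ^ (-(5 / 8) : ℝ) := rfl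
  rw [← h3] at h1
  have h4 : ((i : ℝ) + m) ^ (3 / 8 : ℝ) ≤ ((i : ℝ) + m + 1) ^ (3 / 8 : ℝ) :=
    Real.rpow_le_rpow (by positivity) (by linarith) (by norm_num)
  refine le_trans ?_ (h1.trans h4)
  have e2 : (1 - (m : ℝ) / i) * (f i * i) + m / i * (2 ^ (3 / 8 : ℝ) * (f i * i)) =
      f i * (i + (2 ^ (3 / 8 : ℝ) - 1) * m) := by
    field_simp
    ring
  rw [e2]
  apply mul_le_mul_of_nonneg_left _ (f_nonneg i)
  have := two_ge
  nlinarith

lemma s2_le : Real.sqrt 2 ≤ 1.41422 := by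
  rw [Real.sqrt_le_left (by norm_num)]
  norm_num

lemma s2_ge : (1.4142 : ℝ) ≤ Real.sqrt 2 := by
  apply Real.le_sqrt_of_sq_le
  norm_num

/-- the inequality of the coefficients -/
lemma key {i m : ℕ} (hi : 1 ≤ i) (hm : m ≤ i) :
    ∑ r ∈ Icc 1 m, h i r + 1 / 4 * f i ≤ (i + 1) * f i + 1 / 2 * ∑ d ∈ Icc 1 i, f d := by
  have hmi : (m : ℝ) ≤ i := by exact_mod_cast hm
  have hm0 : (0 : ℝ) ≤ m := Nat.cast_nonneg m
  have hi0 : (0 : ℝ) ≤ i := Nat.cast_nonneg i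
  have hw := f_pos hi
  have e : ∑ r ∈ Icc 1 m, h i r = (1 + Real.sqrt 2 / 2) * ∑ r ∈ Icc 1 m, f r - m * (2 * f i) -
      1 / 2 * ∑ r ∈ Icc 1 m, f (r + i) := by
    unfold h
    rw [Finset.sum_sub_distrib, Finset.sum_sub_distrib, ← Finset.mul_sum, Finset.sum_const,
      Nat.card_Icc, Nat.add_sub_cancel, nsmul_eq_mul, ← Finset.mul_sum]
  rw [e]
  have hA := sum_le m
  have hB := le_shift i m
  have hD := le_sum hm
  have g1 := tang_i hi hm0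
  have g2 := tang_i hi (x := (m : ℝ) + 1) (by positivity)
  have g3 := chord hi hm
  have s1 := s2_le
  have s0 := s2_ge
  have hA0 : 0 ≤ ∑ r ∈ Icc 1 m, f r := Finset.sum_nonneg fun r _ => f_nonneg r
  set A := ∑ r ∈ Icc 1 m, f r
  set B := ∑ r ∈ Icc 1 m, f (r + i)
  set D := ∑ d ∈ Icc 1 i, f d
  set gm := (m : ℝ) ^ (3 / 8 : ℝ)
  set gm1 := ((m : ℝ) + 1) ^ (3 / 8 : ℝ)
  set gim := ((i : ℝ) + m + 1) ^ (3 / 8 : ℝ)
  set gi := ((i : ℝ) + 1) ^ (3 / 8 : ℝ)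
  set w := f i
  have k1 : (1 / 2 + Real.sqrt 2 / 2) * A ≤ 1.20711 * A := mul_le_mul_of_nonneg_right (by linarith) hA0
  have k2 : 1.20711 * A ≤ 1.20711 * (8 / 3 * gm) := by linarith
  have k3 : 0 ≤ w * (i - m) := mul_nonneg hw.le (by linarith)
  have k4 : 0 ≤ w * i := mul_nonneg hw.le hi0
  have k5 : 0 ≤ w * m := mul_nonneg hw.le hm0
  nlinarith

/-- the sign pattern -/
lemma sign {i r r' : ℕ} (hr : 1 ≤ r) (hrr : r ≤ r') (h0 : h i r ≤ 0) : h i r' ≤ 0 := by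
  have hr0 : (0 : ℝ) < r := by exact_mod_cast hr
  have hr'0 : (0 : ℝ) < r' := by exact_mod_cast (le_trans hr hrr)
  have hrr' : (r : ℝ) ≤ r' := by exact_mod_cast hrr
  have hi0 : (0 : ℝ) ≤ i := Nat.cast_nonneg i
  have h1 : f r' * f (r + i) ≤ f r * f (r' + i) := by
    unfold f
    rw [← Real.mul_rpow hr'0.le (Nat.cast_nonneg _), ← Real.mul_rpow hr0.le (Nat.cast_nonneg _)]
    apply Real.rpow_le_rpow_of_nonpos
    · push_cast
      positivity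
    · push_cast
      nlinarith
    · norm_num
  have h2 := f_anti hr hrr
  have hf := f_pos hr
  have hf' := f_pos (le_trans hr hrr)
  have hfi := f_nonneg i
  unfold h at h0 ⊢
  have h3 : f r * ((1 + Real.sqrt 2 / 2) * f r' - 2 * f i - 1 / 2 * f (r' + i)) ≤ 0 := by
    have h4 : f r' * ((1 + Real.sqrt 2 / 2) * f r - 2 * f i - 1 / 2 * f (r + i)) ≤ 0 :=
      mul_nonpos_of_nonneg_of_nonpos hf'.le h0
    have h5 : f i * f r' ≤ f i * f r := mul_le_mul_of_nonneg_left h2 hfi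
    nlinarith
  by_contra hcon
  push Not at hcon
  have := mul_pos hf hcon
  linarith

/-- the extremal initial segment -/
lemma exists_m {h : ℕ → ℝ} (hs : ∀ r r', 1 ≤ r → r ≤ r' → h r ≤ 0 → h r' ≤ 0) {ρ : ℕ → ℝ} {P : ℝ}
    (h0 : ∀ r, 0 ≤ ρ r) (h1 : ∀ r, ρ r ≤ P) (n : ℕ) :
    ∃ m ≤ n, ∑ r ∈ Icc 1 n, h r * ρ r ≤ P * ∑ r ∈ Icc 1 m, h r := by
  induction n with
  | zero => exact ⟨0, le_rfl, by simp⟩
  | succ n ih =>
    rcases le_or_gt (h (n + 1)) 0 with hn | hn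
    · obtain ⟨m, hm, hle⟩ := ih
      refine ⟨m, by omega, ?_⟩
      rw [Finset.sum_Icc_succ_top (by omega)]
      have := mul_nonpos_of_nonpos_of_nonneg hn (h0 (n + 1))
      linarith
    · refine ⟨n + 1, le_rfl, ?_⟩
      rw [Finset.mul_sum]
      apply Finset.sum_le_sum
      intro r hr
      rw [Finset.mem_Icc] at hr
      have hpos : 0 < h r := by
        by_contra hcon
        push Not at hcon
        have := hs r (n + 1) hr.1 hr.2 hcon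
        linarith
      rw [mul_comm P]
      exact mul_le_mul_of_nonneg_left (h1 r) hpos.le

/-- the inequality for one distance i of the arcs -/
lemma per_i {N i : ℕ} (hi : 1 ≤ i) (hiN : i ≤ N) {ρ : ℕ → ℝ} {P : ℝ} (hP : 0 ≤ P) (h0 : ∀ r, 0 ≤ ρ r)
    (h1 : ∀ r, ρ r ≤ P) :
    (1 + Real.sqrt 2 / 2) * ∑ r ∈ Icc 1 (2 * N), f r * ρ r + 1 / 4 * (P * f i) ≤
      f i * ((i + 1) * P) + 2 * (f i * ∑ r ∈ Icc 1 (2 * N), ρ r) + 1 / 2 * ∑ r ∈ Icc 1 N, f (r + i) * ρ r +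
        1 / 2 * (P * ∑ d ∈ Icc 1 i, f d) := by
  have s1 := s2_le
  have s0 := s2_ge
  -- the part r > i
  have a1 : ∑ r ∈ Icc 1 (2 * N), ((1 + Real.sqrt 2 / 2) * f r - 2 * f i) * ρ r ≤
      ∑ r ∈ Icc 1 i, ((1 + Real.sqrt 2 / 2) * f r - 2 * f i) * ρ r := by
    rw [← Finset.sum_sdiff (Finset.Icc_subset_Icc_right (by omega : i ≤ 2 * N))]
    have : ∑ r ∈ Icc 1 (2 * N) \ Icc 1 i, ((1 + Real.sqrt 2 / 2) * f r - 2 * f i) * ρ r ≤ 0 := by
      apply Finset.sum_nonpos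
      intro r hr
      rw [Finset.mem_sdiff, Finset.mem_Icc, Finset.mem_Icc] at hr
      apply mul_nonpos_of_nonpos_of_nonneg _ (h0 r)
      have h2 := f_anti hi (b := r) (by omega)
      have h3 := f_nonneg r
      nlinarith
    linarith
  have a2 : ∑ r ∈ Icc 1 i, f (r + i) * ρ r ≤ ∑ r ∈ Icc 1 N, f (r + i) * ρ r :=
    Finset.sum_le_sum_of_subset_of_nonneg (Finset.Icc_subset_Icc_right hiN)
      (fun r _ _ => mul_nonneg (f_nonneg _) (h0 r))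
  obtain ⟨m, hm, hle⟩ := exists_m (h := h i) (fun r r' hr hrr => sign hr hrr) h0 h1 i
  have hk := key hi hm
  have hk2 := mul_le_mul_of_nonneg_left hk hP
  have e1 : ∑ r ∈ Icc 1 i, h i r * ρ r = ∑ r ∈ Icc 1 i, ((1 + Real.sqrt 2 / 2) * f r - 2 * f i) * ρ r -
      1 / 2 * ∑ r ∈ Icc 1 i, f (r + i) * ρ r := by
    rw [Finset.mul_sum, ← Finset.sum_sub_distrib]
    apply Finset.sum_congr rfl
    intro r _
    unfold h
    ring
  have e2 : ∑ r ∈ Icc 1 (2 * N), ((1 + Real.sqrt 2 / 2) * f r - 2 * f i) * ρ r =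
      (1 + Real.sqrt 2 / 2) * ∑ r ∈ Icc 1 (2 * N), f r * ρ r - 2 * (f i * ∑ r ∈ Icc 1 (2 * N), ρ r) := by
    rw [Finset.mul_sum, Finset.mul_sum, Finset.mul_sum, ← Finset.sum_sub_distrib]
    apply Finset.sum_congr rfl
    intro r _
    ring
  rw [e1] at hle
  rw [e2] at a1
  linarith

/-- exchange of the order of summation in the antidiagonal term -/
lemma anti {N : ℕ} {ρ : ℕ → ℕ → ℝ} (h0 : ∀ r i, 0 ≤ ρ r i) :
    ∑ i ∈ Icc 1 N, ∑ r ∈ Icc 1 N, f (r + i) * ρ r i ≤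
      ∑ d ∈ Icc 1 (2 * N), f d * ∑ i ∈ Ico 1 d, ρ (d - i) i := by
  have e1 : ∑ d ∈ Icc 1 (2 * N), f d * ∑ i ∈ Ico 1 d, ρ (d - i) i =
      ∑ i ∈ Icc 1 (2 * N), ∑ d ∈ Ioc i (2 * N), f d * ρ (d - i) i := by
    simp only [Finset.mul_sum]
    apply Finset.sum_comm'
    intro d i
    simp only [Finset.mem_Icc, Finset.mem_Ico, Finset.mem_Ioc]
    omega
  rw [e1]
  refine le_trans ?_ (Finset.sum_le_sum_of_subset_of_nonneg
    (Finset.Icc_subset_Icc_right (by omega : N ≤ 2 * N))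
    (fun i _ _ => Finset.sum_nonneg fun d _ => mul_nonneg (f_nonneg _) (h0 _ _)))
  apply Finset.sum_le_sum
  intro i hi
  rw [Finset.mem_Icc] at hi
  have e2 : ∑ r ∈ Icc 1 N, f (r + i) * ρ r i = ∑ d ∈ Ioc i (N + i), f d * ρ (d - i) i := by
    apply Finset.sum_bij' (fun r _ => r + i) (fun d _ => d - i)
    · intro r hr
      rw [Finset.mem_Icc] at hr
      rw [Finset.mem_Ioc]
      omega
    · intro d hd
      rw [Finset.mem_Ioc] at hd
      rw [Finset.mem_Icc]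
      omega
    · intro r _
      simp
    · intro d hd
      rw [Finset.mem_Ioc] at hd
      show d - i + i = d
      omega
    · intro r _
      simp
  rw [e2]
  apply Finset.sum_le_sum_of_subset_of_nonneg
  · apply Finset.Ioc_subset_Ioc_right
    omega
  · intro d _ _
    exact mul_nonneg (f_nonneg _) (h0 _ _)

/-- the long arcs -/
lemma long {N : ℕ} {G : ℕ → ℝ} (hG : ∀ i, 0 ≤ G i) (hs : Summable G) :
    ∑ i ∈ Icc 1 N, G i * ∑ d ∈ Icc 1 i, f d ≤ ∑ d ∈ Icc 1 (2 * N), f d * ∑' i : ℕ, G (d + i) := by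
  have e1 : ∑ i ∈ Icc 1 N, G i * ∑ d ∈ Icc 1 i, f d = ∑ d ∈ Icc 1 N, ∑ i ∈ Ico d (N + 1), f d * G i := by
    simp only [Finset.mul_sum]
    have := Finset.sum_comm' (s := Icc 1 N) (t := fun i => Icc 1 i) (t' := Icc 1 N)
      (s' := fun d => Ico d (N + 1)) (f := fun i d => G i * f d) (by
        intro i d
        simp only [Finset.mem_Icc, Finset.mem_Ico]
        omega)
    rw [this]
    apply Finset.sum_congr rfl
    intro d _
    apply Finset.sum_congr rfl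
    intro i _
    ring
  rw [e1]
  have hts : ∀ d : ℕ, 0 ≤ ∑' i : ℕ, G (d + i) := fun d => tsum_nonneg fun i => hG _
  refine le_trans ?_ (Finset.sum_le_sum_of_subset_of_nonneg
    (Finset.Icc_subset_Icc_right (by omega : N ≤ 2 * N)) (fun d _ _ => mul_nonneg (f_nonneg _) (hts d)))
  apply Finset.sum_le_sum
  intro d _
  rw [← Finset.mul_sum]
  apply mul_le_mul_of_nonneg_left _ (f_nonneg d)
  rw [Finset.sum_Ico_eq_sum_range]
  have hsd : Summable (fun i => G (d + i)) := by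
    have := (summable_nat_add_iff d).2 hs
    simpa [add_comm] using this
  exact hsd.sum_le_tsum _ (fun i _ => hG _)

/-- the row sums -/
lemma row_tail {N : ℕ} {b : ℝ} {G ρ : ℕ → ℝ} (hb : 0 ≤ b) (hG : ∀ i, 0 ≤ G i) (hs : Summable G)
    (h0 : ∀ i, 0 ≤ ρ i) (h1 : ∀ i, ρ i ≤ b * G i) :
    ∑' i : ℕ, ρ (i + 1) ≤ ∑ i ∈ Icc 1 N, ρ i + b * ∑' i : ℕ, G (N + i) := by
  have hsr : Summable ρ := Summable.of_nonneg_of_le h0 h1 (hs.mul_left b)
  have hsr1 : Summable (fun i => ρ (i + 1)) := (summable_nat_add_iff 1).2 hsr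
  rw [← hsr1.sum_add_tsum_nat_add N]
  have e1 : ∑ i ∈ range N, ρ (i + 1) = ∑ i ∈ Icc 1 N, ρ i := by
    refine Finset.sum_bij' (fun r _ => r + 1) (fun d _ => d - 1) ?_ ?_ ?_ ?_ ?_
    · intro r hr
      rw [Finset.mem_range] at hr
      rw [Finset.mem_Icc]
      omega
    · intro d hd
      rw [Finset.mem_Icc] at hd
      rw [Finset.mem_range]
      omega
    · intro r _
      simp
    · intro d hd
      rw [Finset.mem_Icc] at hd
      show d - 1 + 1 = d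
      omega
    · intro r _
      rfl
  rw [e1]
  have hsN : Summable (fun i => G (N + i)) := by
    have := (summable_nat_add_iff N).2 hs
    simpa [add_comm] using this
  have hsN1 : Summable (fun i => ρ (i + N + 1)) := (summable_nat_add_iff N).2 hsr1
  have h2 : ∑' i : ℕ, ρ (i + N + 1) ≤ ∑' i : ℕ, b * G (N + (i + 1)) := by
    apply Summable.tsum_le_tsum _ hsN1 ((((summable_nat_add_iff 1).2 hsN)).mul_left b)
    intro i
    have := h1 (i + N + 1)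
    have e : i + N + 1 = N + (i + 1) := by ring
    rw [e] at this ⊢
    exact this
  have h3 : ∑' i : ℕ, b * G (N + (i + 1)) ≤ b * ∑' i : ℕ, G (N + i) := by
    rw [tsum_mul_left]
    apply mul_le_mul_of_nonneg_left _ hb
    rw [hsN.tsum_eq_zero_add]
    have := hG (N + 0)
    linarith
  linarith

end Test

open Test

/-- R9 (Test.lean). THE TEST FUNCTION. -/
theorem test : ∃ K : ℝ, 0 < K ∧ ∀ (b C : ℝ) (G : ℕ → ℝ) (ρ : ℕ → ℕ → ℝ), 0 < b → 0 ≤ C → (∀ i, 0 ≤ G i) →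
    Summable G → (∀ r i, 0 ≤ ρ r i) → (∀ r i, ρ r i ≤ b * G i) →
    (∀ d : ℕ, 1 ≤ d → ∀ N : ℕ, (d + 1) * (b * G d) + 2 * ∑ r ∈ Icc 1 N, ρ r d ≤
      ∑' i : ℕ, ρ d (i + 1) + C * b ^ 2) →
    (∀ d : ℕ, 1 ≤ d → ∑ i ∈ Ico 1 d, ρ (d - i) i + b * ∑' i : ℕ, G (d + i) ≤
      Real.sqrt 2 * ∑' i : ℕ, ρ d (i + 1) + C * b ^ 2) →
    ∀ N : ℕ, 1 ≤ N → G 1 ≤ K * (C * b + ∑' i : ℕ, G (N + i)) * (N : ℝ) ^ (3 / 8 : ℝ) := by
  refine ⟨32, by norm_num, ?_⟩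
  intro b C G ρ hb hC hG hs h0 h1 hrow hdiag N hN
  have s1 := s2_le
  have s0 := s2_ge
  set τ := ∑' i : ℕ, G (N + i) with hτ
  have hτ0 : 0 ≤ τ := tsum_nonneg fun i => hG _
  set a : ℝ := 1 + Real.sqrt 2 / 2 with ha
  set F := ∑ d ∈ Icc 1 (2 * N), f d with hF
  have hF0 : 0 ≤ F := Finset.sum_nonneg fun d _ => f_nonneg d
  -- the weighted sums
  have w1 : ∀ d ∈ Icc 1 (2 * N), f d * ((d + 1) * (b * G d)) + 2 * (f d * ∑ r ∈ Icc 1 (2 * N), ρ r d) +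
      1 / 2 * (f d * ∑ i ∈ Ico 1 d, ρ (d - i) i) + 1 / 2 * (b * (f d * ∑' i : ℕ, G (d + i))) ≤
      a * ∑ i ∈ Icc 1 N, f d * ρ d i + f d * (a * b * τ + 3 / 2 * (C * b ^ 2)) := by
    intro d hd
    rw [Finset.mem_Icc] at hd
    have r1 := mul_le_mul_of_nonneg_left (hrow d hd.1 (2 * N)) (f_nonneg d)
    have r2 := mul_le_mul_of_nonneg_left (hdiag d hd.1) (f_nonneg d)
    have r3 := row_tail (N := N) hb.le hG hs (h0 d) (h1 d)
    have r4 := mul_le_mul_of_nonneg_left r3 (mul_nonneg (f_nonneg d) (by linarith : 0 ≤ a))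
    rw [← Finset.mul_sum]
    rw [← hτ] at r4
    have e : f d * a * ∑' i : ℕ, ρ d (i + 1) = f d * ∑' i : ℕ, ρ d (i + 1) +
        1 / 2 * (f d * (Real.sqrt 2 * ∑' i : ℕ, ρ d (i + 1))) := by
      rw [ha]
      ring
    rw [e] at r4
    generalize ∑' i : ℕ, ρ d (i + 1) = R at r1 r2 r4
    generalize ∑' i : ℕ, G (d + i) = H at r2 ⊢
    generalize ∑ i ∈ Ico 1 d, ρ (d - i) i = L at r2 ⊢
    generalize ∑ r ∈ Icc 1 (2 * N), ρ r d = U at r1 ⊢
    generalize ∑ i ∈ Icc 1 N, ρ d i = W at r4 ⊢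
    generalize f d = w at r1 r2 r4 ⊢
    linarith
  have w2 := Finset.sum_le_sum w1
  simp only [Finset.sum_add_distrib, ← Finset.mul_sum] at w2
  rw [← Finset.sum_mul] at w2
  -- the lower bounds
  have l1 : ∑ i ∈ Icc 1 N, f i * ((i + 1) * (b * G i)) ≤ ∑ d ∈ Icc 1 (2 * N), f d * ((d + 1) * (b * G d)) :=
    Finset.sum_le_sum_of_subset_of_nonneg (Finset.Icc_subset_Icc_right (by omega))
      (fun d _ _ => mul_nonneg (f_nonneg d) (mul_nonneg (by positivity) (mul_nonneg hb.le (hG d))))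
  have l2 : ∑ i ∈ Icc 1 N, f i * ∑ r ∈ Icc 1 (2 * N), ρ r i ≤
      ∑ d ∈ Icc 1 (2 * N), f d * ∑ r ∈ Icc 1 (2 * N), ρ r d :=
    Finset.sum_le_sum_of_subset_of_nonneg (Finset.Icc_subset_Icc_right (by omega))
      (fun d _ _ => mul_nonneg (f_nonneg d) (Finset.sum_nonneg fun r _ => h0 r d))
  have l3 := anti (N := N) h0
  have l4 := long (N := N) hG hs
  -- the inequalities for one i
  have p1 : ∀ i ∈ Icc 1 N, a * ∑ r ∈ Icc 1 (2 * N), f r * ρ r i + 1 / 4 * (b * G i * f i) ≤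
      f i * ((i + 1) * (b * G i)) + 2 * (f i * ∑ r ∈ Icc 1 (2 * N), ρ r i) +
      1 / 2 * ∑ r ∈ Icc 1 N, f (r + i) * ρ r i + 1 / 2 * (b * (G i * ∑ d ∈ Icc 1 i, f d)) := by
    intro i hi
    rw [Finset.mem_Icc] at hi
    have := per_i hi.1 hi.2 (ρ := fun r => ρ r i) (mul_nonneg hb.le (hG i)) (fun r => h0 r i) (fun r => h1 r i)
    have e : b * (G i * ∑ d ∈ Icc 1 i, f d) = b * G i * ∑ d ∈ Icc 1 i, f d := by ring
    rw [e]
    exact this
  have p2 := Finset.sum_le_sum p1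
  simp only [Finset.sum_add_distrib, ← Finset.mul_sum] at p2
  have e1 : ∑ d ∈ Icc 1 (2 * N), ∑ i ∈ Icc 1 N, f d * ρ d i = ∑ i ∈ Icc 1 N, ∑ r ∈ Icc 1 (2 * N), f r * ρ r i :=
    Finset.sum_comm
  simp only [← Finset.mul_sum] at e1
  have q1 : b * G 1 ≤ ∑ i ∈ Icc 1 N, b * G i * f i := by
    have : b * G 1 * f 1 ≤ ∑ i ∈ Icc 1 N, b * G i * f i :=
      Finset.single_le_sum (f := fun i => b * G i * f i)
        (fun i _ => mul_nonneg (mul_nonneg hb.le (hG i)) (f_nonneg i)) (by rw [Finset.mem_Icc]; omega)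
    rw [f_one, mul_one] at this
    exact this
  have q2 : F ≤ 4 * (N : ℝ) ^ (3 / 8 : ℝ) := by
    have h2 := sum_le (2 * N)
    push_cast at h2
    rw [Real.mul_rpow (by norm_num) (Nat.cast_nonneg _)] at h2
    have h3 := two_le
    have h4 : 0 ≤ (N : ℝ) ^ (3 / 8 : ℝ) := Real.rpow_nonneg (Nat.cast_nonneg _) _
    have h5 := mul_le_mul_of_nonneg_right h3 h4
    linarith
  have q3 : 1 / 4 * (b * G 1) ≤ F * (a * b * τ + 3 / 2 * (C * b ^ 2)) := by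
    rw [e1, ← hF] at w2
    have l5 := mul_le_mul_of_nonneg_left l4 hb.le
    linarith
  have q4 : a * b * τ + 3 / 2 * (C * b ^ 2) ≤ 2 * b * (C * b + τ) := by
    have h2 : 0 ≤ b * τ := mul_nonneg hb.le hτ0
    have h3 : 0 ≤ C * b ^ 2 := by positivity
    nlinarith
  have q5 : 0 ≤ 2 * b * (C * b + τ) := by positivity
  have q6 : F * (a * b * τ + 3 / 2 * (C * b ^ 2)) ≤ 4 * (N : ℝ) ^ (3 / 8 : ℝ) * (2 * b * (C * b + τ)) :=
    (mul_le_mul_of_nonneg_left q4 hF0).trans (mul_le_mul_of_nonneg_right q2 q5)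
  have q7 : b * G 1 ≤ b * (32 * (C * b + τ) * (N : ℝ) ^ (3 / 8 : ℝ)) := by
    linarith
  exact le_of_mul_le_mul_left q7 hb

end RC

end HexObs
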