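import Pool.Agent.RowCol.Row
import Pool.Agent.RowCol.Test
import Pool.Agent.RowCol.TailB
import Pool.Agent.W47.Numbers
import Pool.Agent.W47.D2

/-!
ROWCOL R11: B_T >= c T^(-3/8).
-/

set_option autoImplicit false

namespace HexObs

namespace RC

open Complex Finset ENNReal

namespace FinalRC

lemma foot1 : foot oo up ((1 : ℕ) : ℤ) = ((2, -1) : Pt) := by decide

/-- the shortest arc. -/
lemma arc3 {T : ℕ} (hT : 1 ≤ T) : [false, false, false] ∈ Arc (St T) ∅ oo up (foot oo up ((1 : ℕ) : ℤ)) := by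
  have hm : ∀ v : Pt, v ∈ ({((0, 1) : Pt), ((1, 1) : Pt), ((2, 0) : Pt)} : Set Pt) → v ∈ St T := by
    intro v hv
    have hT' : (1 : ℤ) ≤ T := by exact_mod_cast hT
    rcases hv with rfl | rfl | rfl
    · refine ⟨Or.inr (by decide), ?_, ?_⟩
      · have : ip (((0, 1) : Pt) - oo) up = 2 := by decide
        rw [this]
        norm_num
      · have : ip (((0, 1) : Pt) - oo) up = 2 := by decide
        rw [this]
        linarith
    · refine ⟨Or.inl (by decide), ?_, ?_⟩
      · have : ip (((1, 1) : Pt) - oo) up = 3 := by decide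
        rw [this]
        norm_num
      · have : ip (((1, 1) : Pt) - oo) up = 3 := by decide
        rw [this]
        linarith
    · refine ⟨Or.inr (by decide), ?_, ?_⟩
      · have : ip (((2, 0) : Pt) - oo) up = 2 := by decide
        rw [this]
        norm_num
      · have : ip (((2, 0) : Pt) - oo) up = 2 := by decide
        rw [this]
        linarith
  have v1 : vx oo up [false, false, false] 1 = ((0, 1) : Pt) := by decide
  have v2 : vx oo up [false, false, false] 2 = ((1, 1) : Pt) := by decide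
  have v3 : vx oo up [false, false, false] 3 = ((2, 0) : Pt) := by decide
  have v4 : tip oo up [false, false, false] = ((2, -1) : Pt) := by decide
  refine ⟨⟨⟨?_, ?_⟩, ?_, ?_⟩, ?_⟩
  · intro i hi hil
    have hil' : i ≤ 3 := hil
    refine ⟨?_, fun h => h⟩
    apply hm
    interval_cases i
    · rw [v1]
      exact Or.inl rfl
    · rw [v2]
      exact Or.inr (Or.inl rfl)
    · rw [v3]
      exact Or.inr (Or.inr rfl)
  · intro i k hik hk
    have hk' : k ≤ 3 := hk
    interval_cases k <;> interval_cases i <;> decide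
  · rw [v4]
    exact D2aux.notMem_St.2
  · decide
  · rw [v4, foot1]

lemma wE_le_GG {T : ℕ} (hT : 1 ≤ T) : wE [false, false, false] ≤ GG T 1 := by
  unfold GG gf
  exact ENNReal.le_tsum (f := fun t : {t // t ∈ Arc (St T) ∅ oo up (foot oo up ((1 : ℕ) : ℤ))} => wE t.1)
    ⟨[false, false, false], arc3 hT⟩

lemma GG_low {T : ℕ} (hT : 1 ≤ T) : xc ^ 3 ≤ (GG T 1).toReal := by
  have h := ENNReal.toReal_mono (RowAlg.GG_ne_top hT 1) (wE_le_GG hT)
  rw [wE_toReal] at h
  exact h

lemma b_pos {T : ℕ} (hT : 1 ≤ T) : 0 < (BT T).toReal := by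
  have h := N_pow hT
  have hT0 : (0 : ℝ) < T := by exact_mod_cast hT
  have h2 : 0 < (T : ℝ) ^ (-(41 / 42) : ℝ) / 300 := by positivity
  apply ENNReal.toReal_pos
  · intro h0
    rw [h0] at h
    have := ENNReal.ofReal_pos.2 h2
    exact absurd h (not_le.2 this)
  · exact RowAlg.BT_ne_top hT

lemma tail_real {T : ℕ} (hT : 1 ≤ T) (d : ℕ) : ∑' i : ℕ, (GG T (d + i)).toReal = (tail T d).toReal := by
  unfold tail
  rw [ENNReal.tsum_toReal_eq (fun i => RowAlg.GG_ne_top hT (d + i))]

lemma summable_GG {T : ℕ} (hT : 1 ≤ T) : Summable fun i : ℕ => (GG T i).toReal := by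
  have h : Summable fun i : ℕ => (GG T (1 + i)).toReal := ENNReal.summable_toReal (CB.tail_ne_top hT 1)
  have h2 : Summable fun i : ℕ => (GG T (i + 1)).toReal := by
    have e : (fun i : ℕ => (GG T (i + 1)).toReal) = fun i : ℕ => (GG T (1 + i)).toReal := by
      funext i
      rw [add_comm]
    rw [e]
    exact h
  exact (summable_nat_add_iff 1).1 h2

end FinalRC

open FinalRC

/-- **B_T >= c T^(-3/8)** -/
theorem final : ∃ c : ℝ, 0 < c ∧ ∀ T : ℕ, 1 ≤ T → c * (T : ℝ) ^ (-(3 / 8) : ℝ) ≤ (BT T).toReal := by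
  obtain ⟨K, hK, htest⟩ := test
  obtain ⟨C', hC', htail⟩ := tail_le
  have hx := xc_pos
  have hs3 := RowAlg.s3_pos
  have hs1 := RowAlg.s1_pos
  set C : ℝ := Real.sqrt 2 * Real.sin (3 * Real.pi / 8) with hC
  have hC0 : 0 < C := by positivity
  have hs13 : Real.sin (Real.pi / 8) ≤ Real.sin (3 * Real.pi / 8) := by
    apply Real.sin_le_sin_of_le_of_le_pi_div_two <;> linarith [Real.pi_pos]
  refine ⟨xc ^ 3 / (K * (C + C')), by positivity, ?_⟩
  intro T hT
  have hb := b_pos hT
  have hT0 : (0 : ℝ) < T := by exact_mod_cast hT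
  have h := htest (BT T).toReal C (fun i => (GG T i).toReal) (fun r i => (rho T r i).toReal) hb hC0.le
    (fun i => ENNReal.toReal_nonneg) (summable_GG hT) (fun r i => ENNReal.toReal_nonneg)
    (fun r i => by
      have h1 := ENNReal.toReal_mono (ENNReal.mul_ne_top (RowAlg.BT_ne_top hT) (RowAlg.GG_ne_top hT i))
        (RowAlg.rho_le T r i)
      rw [ENNReal.toReal_mul] at h1
      exact h1)
    (fun d hd N => row hT hd N)
    (fun d hd => by
      have h1 := diag hT hd
      rw [tail_real hT d]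
      refine h1.trans ?_
      have h2 : Real.sqrt 2 * Real.sin (Real.pi / 8) * (BT T).toReal ^ 2 ≤ C * (BT T).toReal ^ 2 := by
        apply mul_le_mul_of_nonneg_right _ (by positivity)
        exact mul_le_mul_of_nonneg_left hs13 (Real.sqrt_nonneg 2)
      linarith)
    T hT
  rw [tail_real hT T] at h
  have h2 := GG_low hT
  have h3 := htail T hT
  have hp : (0 : ℝ) < (T : ℝ) ^ (3 / 8 : ℝ) := by positivity
  have h4 : xc ^ 3 ≤ K * ((C + C') * (BT T).toReal) * (T : ℝ) ^ (3 / 8 : ℝ) := by
    refine (h2.trans h).trans ?_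
    apply mul_le_mul_of_nonneg_right _ hp.le
    apply mul_le_mul_of_nonneg_left _ hK.le
    linarith
  rw [Real.rpow_neg hT0.le, ← div_eq_mul_inv, div_div, div_le_iff₀ (by positivity)]
  linarith

end RC

end HexObs
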