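import Pool.Agent.HexPoly.LimI
import Pool.Agent.HexPoly.Free
import Pool.Agent.W47.Base
import Pool.Agent.HexW.Shift

/-!
ROWCOL: definitions.
A bridge of the strip and an arc between two feet that meet; explorers from the top.
-/

set_option autoImplicit false

namespace HexObs

namespace RC

open Complex Finset ENNReal

/-- arcs from p to q that meet Y. -/
def AI (Ω Y : Set Pt) (p d0 q : Pt) : Set (List Bool) := {t | t ∈ Arc Ω ∅ p d0 q ∧ ¬ Disjoint Y (vis p d0 t)}

/-- weight of the pairs (bridge from foot k, arc from foot a to foot b) that meet. -/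
noncomputable def II (Ω : Set Pt) (v0 d0 : Pt) (k a b : ℤ) : ℝ≥0∞ :=
  overBr Ω (foot v0 d0 k) d0 (fun Y => gf (AI Ω Y (foot v0 d0 a) d0 (foot v0 d0 b))) ∅

/-- weight of the disjoint pairs (bridge from foot k, arc from foot a to foot b). -/
noncomputable def MM (Ω : Set Pt) (v0 d0 : Pt) (k a b : ℤ) : ℝ≥0∞ :=
  overBr Ω (foot v0 d0 k) d0 (fun Y => gf (Arc Ω Y (foot v0 d0 a) d0 (foot v0 d0 b))) ∅

/-- weight of the disjoint pairs (bridge from foot k, arc from foot a that lands on the left of a). -/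
noncomputable def QL (Ω : Set Pt) (v0 d0 : Pt) (k a : ℤ) : ℝ≥0∞ :=
  overBr Ω (foot v0 d0 k) d0 (fun Y => gf (DnL Ω Y (foot v0 d0 a) d0)) ∅

/-- weight of the disjoint pairs (bridge from foot k, arc from foot a that lands on the right of a). -/
noncomputable def QR (Ω : Set Pt) (v0 d0 : Pt) (k a : ℤ) : ℝ≥0∞ :=
  overBr Ω (foot v0 d0 k) d0 (fun Y => gf (DnR Ω Y (foot v0 d0 a) d0)) ∅

/-- THE DEFECT: pairs (bridge of the strip from foot 0, arc from foot r to foot r + i) that meet. -/
noncomputable def rho (T r i : ℕ) : ℝ≥0∞ := II (St T) oo up 0 r (r + i)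

/-- the finite trapezoid. -/
noncomputable def tF (T L : ℕ) : Finset Pt := trapF (v0 := oo) HexW.up_mem T L

/-- the ends of the bridges of the trapezoid. -/
noncomputable def tops (T L : ℕ) : Finset Pt := by
  classical exact ((tF T L).filter (fun v => ip v up = 3 * T)).image (fun v => v + up)

/-- explorers from the tops in Tp, downwards, that stop on the arcs from p to q. -/
noncomputable def ZB (Ω : Finset Pt) (p q d0 : Pt) (Tp : Finset Pt) (f : ℤ → ℝ) : ℝ :=
  ∑ w ∈ Tp, ∑ a ∈ fam Ω p d0 (Arc (Ω : Set Pt) ∅ p d0 q), ∑ e ∈ hitF Ω ∅ (vis p d0 a) w (-d0),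
    xc ^ (a.length + e.length) * f (wind e)

/-- the exits that meet A. -/
noncomputable def exM (Ω : Finset Pt) (w e0 : Pt) (A : Set Pt) : Finset (List Bool) := by
  classical exact (exits Ω w e0).filter (fun e => ¬ Disjoint A (vis w e0 e))

/-- the bridges that meet A. -/
noncomputable def brM (Ω : Finset Pt) (v d0 : Pt) (A : Set Pt) : Finset (List Bool) := by
  classical exact (fam Ω v d0 (Br (Ω : Set Pt) ∅ v d0)).filter (fun s => ¬ Disjoint A (vis v d0 s))

end RC

end HexObs
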