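import Pool.Agent.RowCol.Defs

/-!
ROWCOL R6a: two explorers in the strip (the diagonal identity before the landing feet are named).
-/

set_option autoImplicit false

namespace HexObs

namespace RC

namespace DiagStrip

open Complex Finset ENNReal Filter Topology Ex

/-- the sum over one walker is linear. -/
lemma obE_lin4 (Ω : Finset Pt) (v d0 : Pt) (W X : Set Pt) (a b c : ℝ) (F G H K : Set Pt → ℝ) :
    obE Ω v d0 W (fun Z => a * F Z + b * G Z + c * H Z + K Z) X =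
      a * obE Ω v d0 W F X + b * obE Ω v d0 W G X + c * obE Ω v d0 W H X + obE Ω v d0 W K X := by
  rw [obE_add Ω v d0 W (fun Z => a * F Z + b * G Z + c * H Z) K,
    obE_add Ω v d0 W (fun Z => a * F Z + b * G Z) (fun Z => c * H Z),
    obE_add Ω v d0 W (fun Z => a * F Z) (fun Z => b * G Z), obE_mul, obE_mul, obE_mul]

/-- the lateral part of the free exits. -/
noncomputable def la (Ω : Finset Pt) (p d0 : Pt) (m : ℝ) (Z : Set Pt) : ℝ :=
  ∑ u ∈ fam Ω p d0 (Lat (Ω : Set Pt) Z p d0), xc ^ u.length * ph m (wind u)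

lemma la_abs (Ω : Finset Pt) (p d0 : Pt) (m : ℝ) (Z : Set Pt) :
    |la Ω p d0 m Z| ≤ gr Ω p d0 (Lat (Ω : Set Pt) Z p d0) := by
  rw [abs_le]
  constructor
  · exact lat_ge (ph m) Z (fun w => Real.neg_one_le_sin _)
  · exact lat_le (ph m) Z (fun w => Real.sin_le_one _)

lemma obE_abs (Ω : Finset Pt) (v d0 : Pt) (W X : Set Pt) (F G : Set Pt → ℝ) (h : ∀ Z, |F Z| ≤ G Z) :
    |obE Ω v d0 W F X| ≤ obE Ω v d0 W G X := by
  unfold obE
  refine (Finset.abs_sum_le_sum_abs _ _).trans (Finset.sum_le_sum ?_)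
  intro s _
  rw [abs_mul, abs_of_nonneg (pow_nonneg xc_pos.le s.length)]
  exact mul_le_mul_of_nonneg_left (h _) (pow_nonneg xc_pos.le _)

/-- the free exits, phase 1. -/
lemma fr1_eq {Ω : Finset Pt} {p d0 : Pt} (hp : GoodDom Ω p d0) (Y : Set Pt) :
    fr Ω p d0 (ph 1) Y = Real.sin (Real.pi / 8) * gr Ω p d0 (Br (Ω : Set Pt) Y p d0) +
      1 * gr Ω p d0 (DnL (Ω : Set Pt) Y p d0) + (-(1 / Real.sqrt 2)) * gr Ω p d0 (DnR (Ω : Set Pt) Y p d0) +
      la Ω p d0 1 Y := by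
  obtain ⟨s4, s2, s8, s5⟩ := sin_vals
  rw [fr_eq hp]
  have h0 : ph 1 0 = Real.sin (Real.pi / 8) := by
    unfold ph
    congr 1
    push_cast
    ring
  have h3 : ph 1 3 = 1 := by
    unfold ph
    rw [show (1 + ((3 : ℤ) : ℝ)) * (Real.pi / 8) = 4 * (Real.pi / 8) by push_cast; ring]
    exact s4
  have h3' : ph 1 (-3) = -(1 / Real.sqrt 2) := by
    unfold ph
    rw [← s2, ← Real.sin_neg]
    congr 1
    push_cast
    ring
  rw [h0, h3, h3']
  rfl

/-- the free exits, phase -1. -/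
lemma frm_eq {Ω : Finset Pt} {p d0 : Pt} (hp : GoodDom Ω p d0) (Y : Set Pt) :
    fr Ω p d0 (ph (-1)) Y = (-Real.sin (Real.pi / 8)) * gr Ω p d0 (Br (Ω : Set Pt) Y p d0) +
      (1 / Real.sqrt 2) * gr Ω p d0 (DnL (Ω : Set Pt) Y p d0) + (-1) * gr Ω p d0 (DnR (Ω : Set Pt) Y p d0) +
      la Ω p d0 (-1) Y := by
  obtain ⟨s4, s2, s8, s5⟩ := sin_vals
  rw [fr_eq hp]
  have h0 : ph (-1) 0 = -Real.sin (Real.pi / 8) := by
    unfold ph
    rw [← Real.sin_neg]
    congr 1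
    push_cast
    ring
  have h3 : ph (-1) 3 = 1 / Real.sqrt 2 := by
    unfold ph
    rw [← s2]
    congr 1
    push_cast
    ring
  have h3' : ph (-1) (-3) = -1 := by
    unfold ph
    rw [show (-1 + ((-3 : ℤ) : ℝ)) * (Real.pi / 8) = -(4 * (Real.pi / 8)) by push_cast; ring, Real.sin_neg, s4]
  rw [h0, h3, h3']
  rfl

/-- one walker and a word of the family D, as a real number. -/
lemma ov_toReal {Ω : Finset Pt} {v p d0 : Pt} {D : Set Pt → Set (List Bool)} (hD : ∀ Z, InArr Ω p d0 (D Z)) :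
    (overBr (Ω : Set Pt) v d0 (fun Y => gf (D Y)) ∅).toReal =
      obE Ω v d0 Set.univ (fun Z => gr Ω p d0 (D Z)) ∅ := by
  rw [← overE_univ, overE_toReal _ _ _ _ _ (fun Y => gf_ne_top (hD Y))]
  congr 1
  funext Y
  exact gf_toReal (hD Y)

/-- THE IDENTITY in a finite domain. -/
theorem diag_fin {Ω : Finset Pt} {v0 d0 : Pt} {a b : ℤ} (hab : a < b) (ga : GoodDom Ω (foot v0 d0 a) d0)
    (gb : GoodDom Ω (foot v0 d0 b) d0) :
    |Real.sin (Real.pi / 8) * (((gf (Br (Ω : Set Pt) ∅ (foot v0 d0 b) d0)).toReal -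
        (P2 (Ω : Set Pt) v0 d0 b a ∅).toReal) + ((gf (Br (Ω : Set Pt) ∅ (foot v0 d0 a) d0)).toReal -
        (P2 (Ω : Set Pt) v0 d0 a b ∅).toReal)) -
      ((QL (Ω : Set Pt) v0 d0 b a).toReal - (QR (Ω : Set Pt) v0 d0 b a).toReal / Real.sqrt 2 -
        (QL (Ω : Set Pt) v0 d0 a b).toReal / Real.sqrt 2 + (QR (Ω : Set Pt) v0 d0 a b).toReal)| ≤
      (overE (Ω : Set Pt) (foot v0 d0 b) d0 Set.univ (fun Z => gf (Lat (Ω : Set Pt) Z (foot v0 d0 a) d0)) ∅).toReal +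
      (overE (Ω : Set Pt) (foot v0 d0 a) d0 Set.univ (fun Z => gf (Lat (Ω : Set Pt) Z (foot v0 d0 b) d0)) ∅).toReal := by
  unfold P2 QL QR
  rw [gf_toReal (br_arr Ω _ _ _), gf_toReal (br_arr Ω _ _ _), overE_univ, overE_univ,
    ov_toReal (p := foot v0 d0 a) (fun Z => br_arr Ω Z _ _), ov_toReal (p := foot v0 d0 b) (fun Z => br_arr Ω Z _ _),
    ov_toReal (p := foot v0 d0 a) (fun Z => dnl_arr Ω Z _ _), ov_toReal (p := foot v0 d0 a) (fun Z => dnr_arr Ω Z _ _),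
    ov_toReal (p := foot v0 d0 b) (fun Z => dnl_arr Ω Z _ _), ov_toReal (p := foot v0 d0 b) (fun Z => dnr_arr Ω Z _ _),
    ov_toReal (p := foot v0 d0 a) (fun Z => lat_arr Ω Z _ _), ov_toReal (p := foot v0 d0 b) (fun Z => lat_arr Ω Z _ _)]
  have A := slit2E ga (foot v0 d0 b) Set.univ 1
  have B := slit2E gb (foot v0 d0 a) Set.univ (-1)
  have e1 : ∀ m : ℝ, (fun w : ℤ => Real.sin ((m + w) * (Real.pi / 8))) = ph m := fun m => rfl
  rw [e1] at A B
  have S := zh_swap ga gb hab ∅ Set.univ (-1)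
  rw [show (-1 : ℝ) + 2 = 1 by norm_num] at S
  rw [S] at B
  have fa : fr Ω (foot v0 d0 a) d0 (ph 1) = fun Y => Real.sin (Real.pi / 8) *
      gr Ω (foot v0 d0 a) d0 (Br (Ω : Set Pt) Y (foot v0 d0 a) d0) +
      1 * gr Ω (foot v0 d0 a) d0 (DnL (Ω : Set Pt) Y (foot v0 d0 a) d0) + (-(1 / Real.sqrt 2)) *
      gr Ω (foot v0 d0 a) d0 (DnR (Ω : Set Pt) Y (foot v0 d0 a) d0) + la Ω (foot v0 d0 a) d0 1 Y :=
    funext (fun Y => fr1_eq ga Y)
  have fb : fr Ω (foot v0 d0 b) d0 (ph (-1)) = fun Y => (-Real.sin (Real.pi / 8)) *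
      gr Ω (foot v0 d0 b) d0 (Br (Ω : Set Pt) Y (foot v0 d0 b) d0) +
      (1 / Real.sqrt 2) * gr Ω (foot v0 d0 b) d0 (DnL (Ω : Set Pt) Y (foot v0 d0 b) d0) + (-1) *
      gr Ω (foot v0 d0 b) d0 (DnR (Ω : Set Pt) Y (foot v0 d0 b) d0) + la Ω (foot v0 d0 b) d0 (-1) Y :=
    funext (fun Y => frm_eq gb Y)
  rw [fa, obE_lin4, brE_univ] at A
  rw [fb, obE_lin4, brE_univ] at B
  have m1 : Real.sin (1 * (Real.pi / 8)) = Real.sin (Real.pi / 8) := by rw [one_mul]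
  have m2 : Real.sin (-1 * (Real.pi / 8)) = -Real.sin (Real.pi / 8) := by
    rw [← Real.sin_neg]
    congr 1
    ring
  rw [m1] at A
  rw [m2] at B
  have E1 := obE_abs Ω (foot v0 d0 b) d0 Set.univ ∅ (la Ω (foot v0 d0 a) d0 1)
    (fun Z => gr Ω (foot v0 d0 a) d0 (Lat (Ω : Set Pt) Z (foot v0 d0 a) d0)) (fun Z => la_abs _ _ _ _ _)
  have E2 := obE_abs Ω (foot v0 d0 a) d0 Set.univ ∅ (la Ω (foot v0 d0 b) d0 (-1))
    (fun Z => gr Ω (foot v0 d0 b) d0 (Lat (Ω : Set Pt) Z (foot v0 d0 b) d0)) (fun Z => la_abs _ _ _ _ _)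
  rw [abs_le] at E1 E2 ⊢
  have r : ∀ x : ℝ, 1 / Real.sqrt 2 * x = x / Real.sqrt 2 := fun x => by rw [div_mul_eq_mul_div, one_mul]
  have r' : ∀ x : ℝ, -(1 / Real.sqrt 2) * x = -(x / Real.sqrt 2) := fun x => by rw [neg_mul, r]
  simp only [r, r', one_mul] at A B
  obtain ⟨E1a, E1b⟩ := E1
  obtain ⟨E2a, E2b⟩ := E2
  constructor <;> linarith

lemma up_QL {v0 d0 : Pt} (h0 : d0 ∈ dirs) {T N : ℕ} (hT : 1 ≤ T) {k : ℤ} (hk : |k| < N)
    {P : ℕ → Set Pt → Set (List Bool)} {Q : Set Pt → Set (List Bool)} (h : ∀ X, HexW.Inc (fun n => P n X) (Q X)) :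
    HexW.Up (fun n => overBr (trap v0 d0 T (n + N)) (foot v0 d0 k) d0 (fun Y => gf (P n Y)))
      (overBr (strip v0 d0 T) (foot v0 d0 k) d0 (fun Y => gf (Q Y))) :=
  HexW.up_overBr (fun X => HexW.inc_Br h0 hT hk X) (HexW.up_gf h)

lemma ov_ne_top {T : ℕ} (hT : 1 ≤ T) (k : ℤ) {Q : Set Pt → Set (List Bool)} {c : ℝ≥0∞} (hc : c ≠ ∞)
    (hQ : ∀ Z, gf (Q Z) ≤ c) : overBr (St T) (foot oo up k) up (fun Y => gf (Q Y)) ∅ ≠ ∞ := by
  have h := HexW.overBr_le (Ω := St T) (v := foot oo up k) (d0 := up) (F := fun Y => gf (Q Y)) (c := c) (B := 1)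
    hQ (br_le_one hT k) ∅
  rw [mul_one] at h
  exact ne_top_of_le_ne_top hc h

lemma gf_br (T : ℕ) (k : ℤ) : gf (Br (St T) ∅ (foot oo up k) up) = BT T := by
  have e : Br (St T) ∅ (foot oo up k) up = out (St T) (foot oo up k) up up := by
    unfold Br out
    rw [Set.sdiff_empty]
  rw [e, St, ← HexW.strip_foot oo up T k, gf_B HexW.up_mem]

end DiagStrip

open Complex Finset ENNReal Filter Topology Ex DiagStrip

/-- R6a. two explorers, in the strip. -/
theorem diag_strip0 {T : ℕ} (hT : 1 ≤ T) {a b : ℤ} (hab : a < b) :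
    2 * Real.sin (Real.pi / 8) * ((BT T).toReal - (P2 (St T) oo up b a ∅).toReal) =
      (QL (St T) oo up b a).toReal - (QR (St T) oo up b a).toReal / Real.sqrt 2 -
        (QL (St T) oo up a b).toReal / Real.sqrt 2 + (QR (St T) oo up a b).toReal := by
  have h0 := HexW.up_mem
  obtain ⟨N, ka, kb, -, -⟩ := big a b b
  have hN' : ∀ {j : ℤ}, |j| < N → ∀ n : ℕ, |j| < ((n + N : ℕ) : ℤ) := by
    intro j hj n
    push_cast
    linarith
  have hA : AT T ≠ ∞ := AT_ne_top hT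
  have hB : BT T ≠ ∞ := BT_ne_top hT
  have lb := limR (HexW.up_gf (fun X => HexW.inc_Br (v0 := oo) h0 hT kb X)) (by
    show gf (Br (St T) ∅ (foot oo up b) up) ≠ ∞
    rw [gf_br]
    exact hB)
  have la := limR (HexW.up_gf (fun X => HexW.inc_Br (v0 := oo) h0 hT ka X)) (by
    show gf (Br (St T) ∅ (foot oo up a) up) ≠ ∞
    rw [gf_br]
    exact hB)
  have lP := limR (up_QL (v0 := oo) h0 hT kb (fun X => HexW.inc_Br h0 hT ka X))
    (ov_ne_top hT b ENNReal.one_ne_top (fun Z => br_le_one hT a Z))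
  have lP' := limR (up_QL (v0 := oo) h0 hT ka (fun X => HexW.inc_Br h0 hT kb X))
    (ov_ne_top hT a ENNReal.one_ne_top (fun Z => br_le_one hT b Z))
  have l1 := limR (up_QL (v0 := oo) h0 hT kb (fun X => HexW.inc_DnL h0 hT ka X))
    (ov_ne_top hT b hA (fun Z => dnl_le a Z))
  have l2 := limR (up_QL (v0 := oo) h0 hT kb (fun X => HexW.inc_DnR h0 hT ka X))
    (ov_ne_top hT b hA (fun Z => dnr_le a Z))
  have l3 := limR (up_QL (v0 := oo) h0 hT ka (fun X => HexW.inc_DnL h0 hT kb X))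
    (ov_ne_top hT a hA (fun Z => dnl_le b Z))
  have l4 := limR (up_QL (v0 := oo) h0 hT ka (fun X => HexW.inc_DnR h0 hT kb X))
    (ov_ne_top hT a hA (fun Z => dnr_le b Z))
  have e1 := limE (err1_tendsto (v0 := oo) h0 hT kb ka Set.univ)
  have e2 := limE (err1_tendsto (v0 := oo) h0 hT ka kb Set.univ)
  have hleft := (((((lb.sub lP).add (la.sub lP')).const_mul (Real.sin (Real.pi / 8))).sub
    (((l1.sub (l2.div_const (Real.sqrt 2))).sub (l3.div_const (Real.sqrt 2))).add l4))).abs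
  have hright := e1.add e2
  have hlim := le_of_tendsto_of_tendsto' hleft hright (by
    intro n
    have h := diag_fin (Ω := trapF (v0 := oo) h0 T (n + N)) (v0 := oo) (d0 := up) hab
      (HexW.trap_good_foot h0 hT (hN' ka n)) (HexW.trap_good_foot h0 hT (hN' kb n))
    rw [trapF_coe] at h
    exact h)
  rw [add_zero] at hlim
  have hz := abs_eq_zero.1 (le_antisymm hlim (abs_nonneg _))
  have g1 : gf (Br (strip oo up T) ∅ (foot oo up b) up) = BT T := gf_br T b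
  have g2 : gf (Br (strip oo up T) ∅ (foot oo up a) up) = BT T := gf_br T a
  have c1 := P2_comm (St T) oo up a b ∅
  have c2 : overBr (strip oo up T) (foot oo up a) up (fun Y => gf (Br (strip oo up T) Y (foot oo up b) up)) ∅ =
      P2 (St T) oo up b a ∅ := c1
  have c3 : overBr (strip oo up T) (foot oo up b) up (fun Y => gf (Br (strip oo up T) Y (foot oo up a) up)) ∅ =
      P2 (St T) oo up b a ∅ := rfl
  rw [g1, g2, c2, c3] at hz
  unfold QL QR
  have hz' := sub_eq_zero.1 hz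
  rw [← add_sub_assoc] at hz'
  calc 2 * Real.sin (Real.pi / 8) * ((BT T).toReal - (P2 (St T) oo up b a ∅).toReal) =
      Real.sin (Real.pi / 8) * ((BT T).toReal - (P2 (St T) oo up b a ∅).toReal + (BT T).toReal -
        (P2 (St T) oo up b a ∅).toReal) := by ring
    _ = _ := hz'

end RC

end HexObs
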