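import Pool.Agent.RowCol.Defs
import Pool.Agent.W47.K1

/-!
ROWCOL, R7b: the landing foot of an arc beside a bridge.
-/

set_option autoImplicit false

namespace HexObs

namespace RC

open Complex Finset ENNReal

open K1

/-- the landing foot, on the left. -/
theorem QL_eq {T : ℕ} (hT : 1 ≤ T) {a b : ℤ} (hab : a < b) :
    QL (St T) oo up b a = ∑' i : ℕ, MM (St T) oo up b a (a - (i + 1)) := by
  have e1 : QL (St T) oo up b a = overBr (St T) (foot oo up b) up
      (fun Y => ∑' i : ℕ, gf (Arc (St T) Y (foot oo up a) up (foot oo up (a - (i + 1))))) ∅ := by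
    unfold QL
    apply overBr_congr
    intro s hs
    rw [← gf_iUnion (fun i : ℕ => Arc (St T) (∅ ∪ vis (foot oo up b) up s) (foot oo up a) up
      (foot oo up (a - (i + 1))))]
    · congr 1
      ext t
      rw [Set.mem_iUnion]
      constructor
      · rintro ⟨h1, h2⟩
        obtain ⟨j, hj, hside⟩ := dn_br_side up_dirs hT h1 hs Set.subset_union_right
        rw [hj, cross_foot up_dirs] at h2
        refine ⟨(a - 1 - j).toNat, h1, ?_⟩
        rw [hj]
        congr 1
        omega
      · rintro ⟨i, h1, h2⟩
        refine ⟨h1, ?_⟩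
        rw [h2, cross_foot up_dirs]
        omega
    · intro i j t hi hj
      have := arc_unique hi hj
      omega
  rw [e1, overBr_tsum (St T) (foot oo up b) up
    (fun (i : ℕ) Y => gf (Arc (St T) Y (foot oo up a) up (foot oo up (a - (i + 1)))))]
  rfl

/-- the landing foot, between the arc and the bridge. -/
theorem QR_eq {T : ℕ} (hT : 1 ≤ T) {a b : ℤ} (hab : a < b) :
    QR (St T) oo up b a = ∑ i ∈ Ico 1 (b - a).toNat, MM (St T) oo up b a (a + i) := by
  have e1 : QR (St T) oo up b a = overBr (St T) (foot oo up b) up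
      (fun Y => ∑' i : (Ico 1 (b - a).toNat : Finset ℕ),
        gf (Arc (St T) Y (foot oo up a) up (foot oo up (a + ((i : ℕ) : ℤ))))) ∅ := by
    unfold QR
    apply overBr_congr
    intro s hs
    rw [← gf_iUnion (fun i : (Ico 1 (b - a).toNat : Finset ℕ) =>
      Arc (St T) (∅ ∪ vis (foot oo up b) up s) (foot oo up a) up (foot oo up (a + ((i : ℕ) : ℤ))))]
    · congr 1
      ext t
      rw [Set.mem_iUnion]
      constructor
      · rintro ⟨h1, h2⟩
        obtain ⟨j, hj, hside⟩ := dn_br_side up_dirs hT h1 hs Set.subset_union_right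
        rw [hj, cross_foot up_dirs] at h2
        refine ⟨⟨(j - a).toNat, ?_⟩, h1, ?_⟩
        · rw [mem_Ico]
          omega
        · rw [hj]
          congr 1
          simp only
          omega
      · rintro ⟨⟨i, hi⟩, h1, h2⟩
        refine ⟨h1, ?_⟩
        rw [mem_Ico] at hi
        rw [h2, cross_foot up_dirs]
        simp only
        omega
    · intro i j t hi hj
      have := arc_unique hi hj
      apply Subtype.ext
      omega
  rw [e1, overBr_tsum (St T) (foot oo up b) up
    (fun (i : (Ico 1 (b - a).toNat : Finset ℕ)) Y =>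
      gf (Arc (St T) Y (foot oo up a) up (foot oo up (a + ((i : ℕ) : ℤ)))))]
  rw [tsum_fintype]
  exact Finset.sum_coe_sort (Ico 1 (b - a).toNat) (fun i => MM (St T) oo up b a (a + (i : ℤ)))

end RC

end HexObs
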