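import Pool.Agent.RowCol.Defs
import Pool.Agent.W47.K1
import Pool.Agent.W47.K3
import Pool.Agent.W47.K4
import Pool.Agent.W47.K5
import Pool.Agent.HexObs.Lower

/-!
ROWCOL R7a: meeting and disjoint pairs of a bridge and an arc.
-/

set_option autoImplicit false

namespace HexObs

namespace RC

open Complex Finset ENNReal Ex

namespace Split

lemma mem_arc {Ω X : Set Pt} {v d0 w : Pt} {t : List Bool} :
    t ∈ Arc Ω X v d0 w ↔ t ∈ Arc Ω ∅ v d0 w ∧ Disjoint X (vis v d0 t) := by
  constructor
  · rintro ⟨h1, h2⟩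
    have h3 := mem_dn.1 h1
    exact ⟨⟨h3.1, h2⟩, h3.2⟩
  · rintro ⟨⟨h1, h2⟩, h3⟩
    exact ⟨mem_dn.2 ⟨h1, h3⟩, h2⟩

/-- the arcs are the arcs that meet X and the arcs that avoid X. -/
lemma gf_split (Ω X : Set Pt) (v d0 w : Pt) :
    gf (AI Ω X v d0 w) + gf (Arc Ω X v d0 w) = gf (Arc Ω ∅ v d0 w) := by
  rw [K1.gf_indicator, K1.gf_indicator, K1.gf_indicator, ← ENNReal.tsum_add]
  apply tsum_congr
  intro t
  by_cases h : t ∈ Arc Ω ∅ v d0 w
  · rw [Set.indicator_of_mem h]
    by_cases hd : Disjoint X (vis v d0 t)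
    · have h1 : t ∉ AI Ω X v d0 w := fun h' => h'.2 hd
      have h2 : t ∈ Arc Ω X v d0 w := mem_arc.2 ⟨h, hd⟩
      rw [Set.indicator_of_notMem h1, Set.indicator_of_mem h2, zero_add]
    · have h1 : t ∈ AI Ω X v d0 w := ⟨h, hd⟩
      have h2 : t ∉ Arc Ω X v d0 w := fun h' => hd (mem_arc.1 h').2
      rw [Set.indicator_of_mem h1, Set.indicator_of_notMem h2, add_zero]
  · have h1 : t ∉ AI Ω X v d0 w := fun h' => h h'.1
    have h2 : t ∉ Arc Ω X v d0 w := fun h' => h (mem_arc.1 h').1
    rw [Set.indicator_of_notMem h, Set.indicator_of_notMem h1, Set.indicator_of_notMem h2, add_zero]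

end Split

open Split

/-- R7a (Split.lean). meeting and disjoint pairs. -/
theorem II_add_MM (T : ℕ) (k a b : ℤ) : II (St T) oo up k a b + MM (St T) oo up k a b =
    BT T * gf (Arc (St T) ∅ (foot oo up a) up (foot oo up b)) := by
  unfold II MM
  rw [← overBr_add]
  have h1 : overBr (St T) (foot oo up k) up (fun Y => gf (AI (St T) Y (foot oo up a) up (foot oo up b)) +
      gf (Arc (St T) Y (foot oo up a) up (foot oo up b))) ∅ =
      overBr (St T) (foot oo up k) up (fun _ => gf (Arc (St T) ∅ (foot oo up a) up (foot oo up b)) * 1) ∅ := by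
    apply K1.overBr_congr
    intro s _
    rw [gf_split, mul_one]
  rw [h1, overBr_const_mul, overBr_one, gf_br_foot, mul_comm]

/-- arcs by distance (W47 K3 has this up to the form). -/
theorem arc_GG (T : ℕ) (a b : ℤ) : gf (Arc (St T) ∅ (foot oo up a) up (foot oo up b)) = GG T (b - a).natAbs :=
  k3_gf T a b (b - a).natAbs (Int.natCast_natAbs _)

/-- a bridge that starts between the feet of an arc meets it. -/
theorem II_inside {T : ℕ} (hT : 1 ≤ T) {k a b : ℤ} (h1 : a ≤ k) (h2 : k ≤ b) (hab : a < b) :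
    II (St T) oo up k a b = BT T * GG T (b - a).natAbs := by
  have _ := hab
  rw [← arc_GG, ← II_add_MM T k a b]
  have h3 : MM (St T) oo up k a b = 0 := by
    unfold MM
    have h4 : overBr (St T) (foot oo up k) up (fun Y => gf (Arc (St T) Y (foot oo up a) up (foot oo up b))) ∅ =
        overBr (St T) (foot oo up k) up (fun _ => 0 * 1) ∅ := by
      apply K1.overBr_congr
      intro s hs
      rw [zero_mul]
      have h5 : Arc (St T) (∅ ∪ vis (foot oo up k) up s) (foot oo up a) up (foot oo up b) = ∅ := by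
        rw [Set.eq_empty_iff_forall_notMem]
        intro t ht
        have h6 := mem_arc.1 ht
        refine arc_over K1.up_dirs hT (a := a) (b := b) (c := k) ht hs ?_ (Or.inl ⟨h1, h2⟩)
        have h7 := h6.2
        rw [Set.empty_union] at h7
        exact h7.symm
      rw [h5]
      unfold gf
      exact tsum_empty
    rw [h4, overBr_const_mul, zero_mul]
  rw [h3, add_zero]

/-- DC-S in the strip: 1 = B + 2 cos(3 pi / 8) sum of the arcs. -/
theorem dcs {T : ℕ} (hT : 1 ≤ T) : (BT T).toReal + 2 * Real.cos (3 * Real.pi / 8) * (tail T 1).toReal = 1 := by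
  have h1 := bT_add_aT hT
  have h2 : aT T = 2 * (tail T 1).toReal := by
    unfold aT
    rw [arcs_total hT, ENNReal.toReal_mul]
    have h3 : ∑' k : ℕ, GG T (k + 1) = tail T 1 := by
      unfold tail
      apply tsum_congr
      intro k
      rw [add_comm]
    rw [h3]
    rfl
  rw [h2] at h1
  have h3 : bT T = (BT T).toReal := rfl
  rw [h3] at h1
  linarith

end RC

end HexObs
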