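import Pool.Agent.RowCol.Defs
import Pool.Agent.W47.K1
import Pool.Agent.W47.K2

/-!
ROWCOL: R6b, symmetries of QL, QR, II.
-/

set_option autoImplicit false

namespace HexObs

namespace RC

open Complex Finset ENNReal

namespace Sym

/-! general lemmas -/

lemma gf_equiv {P Q : Set (List Bool)} (e : List Bool ≃ List Bool) (he : ∀ t, wE (e t) = wE t)
    (h : ∀ t, e t ∈ P ↔ t ∈ Q) : gf P = gf Q := by
  rw [K1.gf_indicator, K1.gf_indicator, ← Equiv.tsum_eq e]
  refine tsum_congr fun t => ?_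
  by_cases ht : t ∈ Q
  · rw [Set.indicator_of_mem ht, Set.indicator_of_mem ((h t).2 ht), he]
  · rw [Set.indicator_of_notMem ht, Set.indicator_of_notMem (fun h' => ht ((h t).1 h'))]

/-- exchange of left and right. -/
def fl : List Bool ≃ List Bool := ⟨fun t => t.map not, fun t => t.map not, map_not_not, map_not_not⟩

lemma fl_apply (t : List Bool) : fl t = t.map not := rfl

lemma fl_length (t : List Bool) : (fl t).length = t.length := List.length_map _

/-- the mirror image. -/
def mir (p : Pt) : Pt := (-p.1, p.1 + p.2)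

lemma mir_eq (p : Pt) : mir p = mulE (-1, 1) (conjE p) := by
  unfold mir mulE conjE
  apply Prod.ext
  · simp only
    ring
  · simp only
    ring

lemma mir_mir (p : Pt) : mir (mir p) = p := by
  unfold mir
  apply Prod.ext
  · simp only
    ring
  · simp only
    ring

lemma mir_inj {p q : Pt} (h : mir p = mir q) : p = q := by
  rw [← mir_mir p, h, mir_mir]

lemma mir_add (p q : Pt) : mir (p + q) = mir p + mir q := by
  unfold mir
  apply Prod.ext
  · simp only [Prod.fst_add]
    ring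
  · simp only [Prod.fst_add, Prod.snd_add]
    ring

lemma mir_sub (p q : Pt) : mir (p - q) = mir p - mir q := by
  unfold mir
  apply Prod.ext
  · simp only [Prod.fst_sub]
    ring
  · simp only [Prod.fst_sub, Prod.snd_sub]
    ring

lemma mir_up : mir up = up := by decide

lemma mir_neg_up : mir (-up) = -up := by decide

lemma mir_foot (k : ℤ) : mir (foot oo up k) = foot oo up (-k) := by
  rw [k4_foot, k4_foot]
  unfold mir
  apply Prod.ext
  · simp only
    ring
  · simp only
    ring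

lemma cross_mir (p : Pt) : cross up (mir p) = - cross up p := by
  unfold cross up mir
  simp only
  ring

lemma mir_St (T : ℕ) : mir ⁻¹' (St T) = St T := by
  ext v
  have h1 : oo + mulE (-1, 1) (conjE (v - oo)) = mir v := by
    have h2 : v - oo = v := by
      unfold oo
      exact sub_zero v
    rw [h2, ← mir_eq]
    unfold oo
    exact zero_add _
  have h := @k4_refl_mem v T
  rw [h1] at h
  exact h.symm

lemma vx_mir (v : Pt) (t : List Bool) {i : ℕ} (hi : i ≤ t.length + 1) :
    vx (mir v) up (fl t) i = mir (vx v up t i) := by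
  have h := vx_refl (-1, 1) v (mir v) up t hi
  rw [← mir_eq, ← mir_eq, mir_up] at h
  rw [fl_apply, h, ← mir_add]
  congr 1
  abel

lemma tip_mir (v : Pt) (t : List Bool) : tip (mir v) up (fl t) = mir (tip v up t) := by
  unfold tip
  rw [fl_length]
  exact vx_mir v t le_rfl

lemma dx_mir (t : List Bool) : dx up (fl t) (fl t).length = mir (dx up t t.length) := by
  have h := dx_refl (-1, 1) up t le_rfl
  rw [← mir_eq, ← mir_eq, mir_up] at h
  rw [fl_length, fl_apply]
  exact h

lemma saw_mir (Ω : Set Pt) (v : Pt) (t : List Bool) :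
    Saw Ω (mir v) up (fl t) ↔ Saw (mir ⁻¹' Ω) v up t := by
  constructor
  · intro h
    refine ⟨fun i h1 h2 => ?_, fun i k h1 h2 h3 => ?_⟩
    · have := h.mem i h1 (by rw [fl_length]; exact h2)
      rw [vx_mir v t (by omega)] at this
      exact this
    · apply h.inj i k h1 (by rw [fl_length]; exact h2)
      rw [vx_mir v t (by omega), vx_mir v t (by omega), h3]
  · intro h
    refine ⟨fun i h1 h2 => ?_, fun i k h1 h2 h3 => ?_⟩
    · rw [fl_length] at h2
      rw [vx_mir v t (by omega)]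
      exact h.mem i h1 h2
    · rw [fl_length] at h2
      rw [vx_mir v t (by omega), vx_mir v t (by omega)] at h3
      exact h.inj i k h1 h2 (mir_inj h3)

lemma br_mir (Ω X : Set Pt) (v : Pt) (t : List Bool) :
    fl t ∈ Br Ω X (mir v) up ↔ t ∈ Br (mir ⁻¹' Ω) (mir ⁻¹' X) v up := by
  unfold Br
  simp only [Set.mem_ofPred_eq]
  rw [saw_mir, tip_mir, dx_mir]
  have h1 : mir (dx up t t.length) = up ↔ dx up t t.length = up := by
    constructor
    · intro h
      exact mir_inj (h.trans mir_up.symm)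
    · intro h
      rw [h, mir_up]
  rw [h1]
  rfl

lemma dn_mir (Ω X : Set Pt) (v : Pt) (t : List Bool) :
    fl t ∈ Dn Ω X (mir v) up ↔ t ∈ Dn (mir ⁻¹' Ω) (mir ⁻¹' X) v up := by
  unfold Dn
  simp only [Set.mem_ofPred_eq]
  rw [saw_mir, tip_mir, dx_mir]
  have h1 : mir (dx up t t.length) = -up ↔ dx up t t.length = -up := by
    constructor
    · intro h
      exact mir_inj (h.trans mir_neg_up.symm)
    · intro h
      rw [h, mir_neg_up]
  rw [h1]
  rfl

lemma vis_mir (v : Pt) (t : List Bool) : mir ⁻¹' (vis (mir v) up (fl t)) = vis v up t := by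
  ext p
  unfold vis
  simp only [Set.mem_preimage, Set.mem_ofPred_eq]
  constructor
  · rintro ⟨i, h1, h2, h3⟩
    rw [fl_length] at h2
    rw [vx_mir v t (by omega)] at h3
    exact ⟨i, h1, h2, mir_inj h3⟩
  · rintro ⟨i, h1, h2, h3⟩
    refine ⟨i, h1, by rw [fl_length]; exact h2, ?_⟩
    rw [vx_mir v t (by omega), h3]

lemma overBr_mir (Ω : Set Pt) (v : Pt) {F G : Set Pt → ℝ≥0∞} (hFG : ∀ Y, F Y = G (mir ⁻¹' Y)) (X : Set Pt) :
    overBr Ω (mir v) up F X = overBr (mir ⁻¹' Ω) v up G (mir ⁻¹' X) := by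
  unfold overBr
  rw [← Equiv.tsum_eq fl]
  refine tsum_congr fun s => ?_
  by_cases hs : s ∈ Br (mir ⁻¹' Ω) (mir ⁻¹' X) v up
  · rw [Set.indicator_of_mem hs, Set.indicator_of_mem ((br_mir Ω X v s).2 hs), hFG, Set.preimage_union,
      vis_mir, fl_apply, wE_map_not]
  · rw [Set.indicator_of_notMem hs, Set.indicator_of_notMem (fun h => hs ((br_mir Ω X v s).1 h))]

lemma gf_dnR_mir (Ω X : Set Pt) (v : Pt) :
    gf (DnR Ω X (mir v) up) = gf (DnL (mir ⁻¹' Ω) (mir ⁻¹' X) v up) := by
  refine gf_equiv fl (fun t => wE_map_not t) fun t => ?_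
  unfold DnR DnL
  simp only [Set.mem_ofPred_eq]
  rw [dn_mir, tip_mir, ← mir_sub, cross_mir]
  constructor
  · rintro ⟨h1, h2⟩
    exact ⟨h1, by linarith⟩
  · rintro ⟨h1, h2⟩
    exact ⟨h1, by linarith⟩

lemma arc_mir (Ω X : Set Pt) (v w : Pt) (t : List Bool) :
    fl t ∈ Arc Ω X (mir v) up (mir w) ↔ t ∈ Arc (mir ⁻¹' Ω) (mir ⁻¹' X) v up w := by
  unfold Arc
  simp only [Set.mem_ofPred_eq]
  rw [dn_mir, tip_mir]
  constructor
  · rintro ⟨h1, h2⟩
    exact ⟨h1, mir_inj h2⟩
  · rintro ⟨h1, h2⟩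
    exact ⟨h1, by rw [h2]⟩

lemma disj_mir (Y Z : Set Pt) : Disjoint (mir ⁻¹' Y) (mir ⁻¹' Z) ↔ Disjoint Y Z := by
  rw [Set.disjoint_left, Set.disjoint_left]
  constructor
  · intro h p hp hq
    exact h (a := mir p) (by rw [Set.mem_preimage, mir_mir]; exact hp) (by rw [Set.mem_preimage, mir_mir]; exact hq)
  · intro h p hp hq
    exact h hp hq

lemma gf_AI_mir (Ω Y : Set Pt) (v w : Pt) :
    gf (AI Ω Y (mir v) up (mir w)) = gf (AI (mir ⁻¹' Ω) (mir ⁻¹' Y) v up w) := by
  refine gf_equiv fl (fun t => wE_map_not t) fun t => ?_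
  unfold AI
  simp only [Set.mem_ofPred_eq]
  rw [arc_mir, Set.preimage_empty, ← vis_mir v t, disj_mir]

/-! translations -/

lemma dn_trans (Ω X : Set Pt) (v c d0 : Pt) :
    Dn Ω X (v + c) d0 = Dn ((fun p => p + c) ⁻¹' Ω) ((fun p => p + c) ⁻¹' X) v d0 := by
  ext t
  unfold Dn
  simp only [Set.mem_ofPred_eq]
  rw [HexW.saw_trans, HexW.tip_trans]
  rfl

lemma dnL_trans (Ω X : Set Pt) (v c d0 : Pt) :
    DnL Ω X (v + c) d0 = DnL ((fun p => p + c) ⁻¹' Ω) ((fun p => p + c) ⁻¹' X) v d0 := by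
  ext t
  unfold DnL
  simp only [Set.mem_ofPred_eq]
  rw [dn_trans, HexW.tip_trans]
  have e : tip v d0 t + c - (v + c) = tip v d0 t - v := by abel
  rw [e]

lemma dnR_trans (Ω X : Set Pt) (v c d0 : Pt) :
    DnR Ω X (v + c) d0 = DnR ((fun p => p + c) ⁻¹' Ω) ((fun p => p + c) ⁻¹' X) v d0 := by
  ext t
  unfold DnR
  simp only [Set.mem_ofPred_eq]
  rw [dn_trans, HexW.tip_trans]
  have e : tip v d0 t + c - (v + c) = tip v d0 t - v := by abel
  rw [e]

lemma arc_trans (Ω X : Set Pt) (v c d0 w : Pt) :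
    Arc Ω X (v + c) d0 (w + c) = Arc ((fun p => p + c) ⁻¹' Ω) ((fun p => p + c) ⁻¹' X) v d0 w := by
  ext t
  unfold Arc
  simp only [Set.mem_ofPred_eq]
  rw [dn_trans, HexW.tip_trans]
  constructor
  · rintro ⟨h1, h2⟩
    exact ⟨h1, add_right_cancel h2⟩
  · rintro ⟨h1, h2⟩
    exact ⟨h1, by rw [h2]⟩

lemma disj_trans (c : Pt) (Y Z : Set Pt) :
    Disjoint ((fun p => p + c) ⁻¹' Y) ((fun p => p + c) ⁻¹' Z) ↔ Disjoint Y Z := by
  rw [Set.disjoint_left, Set.disjoint_left]
  constructor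
  · intro h p hp hq
    exact h (a := p - c) (by rw [Set.mem_preimage, sub_add_cancel]; exact hp)
      (by rw [Set.mem_preimage, sub_add_cancel]; exact hq)
  · intro h p hp hq
    exact h hp hq

lemma AI_trans (Ω Y : Set Pt) (v c d0 w : Pt) :
    AI Ω Y (v + c) d0 (w + c) = AI ((fun p => p + c) ⁻¹' Ω) ((fun p => p + c) ⁻¹' Y) v d0 w := by
  ext t
  unfold AI
  simp only [Set.mem_ofPred_eq]
  rw [arc_trans, Set.preimage_empty, ← HexW.vis_trans v c d0 t, disj_trans]

/-! reversal -/

lemma vis_rev {Ω : Set Pt} {v0 d0 w e : Pt} {t : List Bool} (ht : t ∈ outAt Ω v0 d0 w e) :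
    vis w (-e) (rev t) = vis v0 d0 t := by
  obtain ⟨⟨-, -, h4⟩, h5⟩ := ht
  have key := vx_rev v0 d0 t
  rw [h5, h4] at key
  ext p
  unfold vis
  simp only [Set.mem_ofPred_eq]
  constructor
  · rintro ⟨i, h1, h2, h3⟩
    rw [rev_length] at h2
    rw [key i (by omega)] at h3
    exact ⟨t.length + 1 - i, by omega, by omega, h3⟩
  · rintro ⟨i, h1, h2, h3⟩
    refine ⟨t.length + 1 - i, by omega, by rw [rev_length]; omega, ?_⟩
    rw [key _ (by omega)]
    have e1 : t.length + 1 - (t.length + 1 - i) = i := by omega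
    rw [e1, h3]

/-- reversal. -/
def rv : List Bool ≃ List Bool := ⟨rev, rev, rev_rev, rev_rev⟩

lemma AI_rev_mem {T : ℕ} {Y : Set Pt} {a b : ℤ} {t : List Bool}
    (ht : t ∈ AI (St T) Y (foot oo up a) up (foot oo up b)) :
    rev t ∈ AI (St T) Y (foot oo up b) up (foot oo up a) := by
  obtain ⟨h1, h2⟩ := ht
  rw [k2_arc] at h1
  have h3 := vis_rev h1
  have h4 := rev_mem (fun h => k2_foot_notMem T a h.1) h1
  rw [neg_neg] at h3 h4
  refine ⟨?_, ?_⟩
  · rw [k2_arc]
    exact h4
  · rw [h3]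
    exact h2

lemma gf_AI_rev (T : ℕ) (Y : Set Pt) (a b : ℤ) :
    gf (AI (St T) Y (foot oo up b) up (foot oo up a)) = gf (AI (St T) Y (foot oo up a) up (foot oo up b)) := by
  refine gf_equiv rv (fun t => wE_rev t) fun t => ?_
  constructor
  · intro h
    have h1 := AI_rev_mem h
    have h2 : rev (rv t) = t := rev_rev t
    rw [h2] at h1
    exact h1
  · intro h
    exact AI_rev_mem h

end Sym

open _root_.HexObs.RC.Sym

theorem QR_mirror (T : ℕ) (a b : ℤ) : QR (St T) oo up (-a) (-b) = QL (St T) oo up a b := by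
  unfold QR QL
  rw [← mir_foot a, ← mir_foot b, overBr_mir (St T) (foot oo up a)
    (G := fun Y => gf (DnL (St T) Y (foot oo up b) up)), mir_St, Set.preimage_empty]
  intro Y
  rw [gf_dnR_mir, mir_St]

theorem QL_trans (T : ℕ) (a b c : ℤ) : QL (St T) oo up (a + c) (b + c) = QL (St T) oo up a b := by
  unfold QL
  rw [HexW.foot_add, HexW.foot_add, HexW.overBr_trans (St T) (foot oo up a) (c • hz up) up
    (G := fun Y => gf (DnL (St T) Y (foot oo up b) up)), St, HexW.strip_trans, Set.preimage_empty]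
  intro Y
  rw [dnL_trans, St, HexW.strip_trans]

theorem QR_trans (T : ℕ) (a b c : ℤ) : QR (St T) oo up (a + c) (b + c) = QR (St T) oo up a b := by
  unfold QR
  rw [HexW.foot_add, HexW.foot_add, HexW.overBr_trans (St T) (foot oo up a) (c • hz up) up
    (G := fun Y => gf (DnR (St T) Y (foot oo up b) up)), St, HexW.strip_trans, Set.preimage_empty]
  intro Y
  rw [dnR_trans, St, HexW.strip_trans]

theorem II_trans (T : ℕ) (k a b c : ℤ) : II (St T) oo up (k + c) (a + c) (b + c) = II (St T) oo up k a b := by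
  unfold II
  rw [HexW.foot_add, HexW.foot_add, HexW.foot_add, HexW.overBr_trans (St T) (foot oo up k) (c • hz up) up
    (G := fun Y => gf (AI (St T) Y (foot oo up a) up (foot oo up b))), St, HexW.strip_trans,
    Set.preimage_empty]
  intro Y
  rw [AI_trans, St, HexW.strip_trans]

theorem II_mirror (T : ℕ) (k a b : ℤ) : II (St T) oo up (-k) (-a) (-b) = II (St T) oo up k a b := by
  unfold II
  rw [← mir_foot k, ← mir_foot a, ← mir_foot b, overBr_mir (St T) (foot oo up k)
    (G := fun Y => gf (AI (St T) Y (foot oo up a) up (foot oo up b))), mir_St, Set.preimage_empty]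
  intro Y
  rw [gf_AI_mir, mir_St]

theorem II_rev (T : ℕ) (k a b : ℤ) : II (St T) oo up k b a = II (St T) oo up k a b := by
  unfold II
  have h : (fun Y => gf (AI (St T) Y (foot oo up b) up (foot oo up a))) =
      fun Y => gf (AI (St T) Y (foot oo up a) up (foot oo up b)) := funext fun Y => gf_AI_rev T Y a b
  rw [h]

end RC

end HexObs
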