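import Pool.Agent.RowCol.RowStrip
import Pool.Agent.RowCol.DiagStrip
import Pool.Agent.RowCol.Sym
import Pool.Agent.RowCol.Split
import Pool.Agent.RowCol.Land
import Pool.Agent.W47.IneqA
import Pool.Agent.W47.IneqB

/-!
ROWCOL R8: the row and the diagonal inequality.
-/

set_option autoImplicit false

namespace HexObs

namespace RC

open Complex Finset ENNReal

namespace RowAlg

lemma three (f : ℤ → ℝ≥0∞) (d N : ℕ) : ∑ r ∈ Icc 1 N, f (-(r : ℤ)) + ∑ j ∈ range (d + 1), f (j : ℤ) +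
    ∑ r ∈ Icc 1 N, f ((d : ℤ) + r) ≤ ∑' k : ℤ, f k := by
  classical
  have e1 : ∑ r ∈ Icc 1 N, f (-(r : ℤ)) = ∑ k ∈ (Icc 1 N).image (fun r : ℕ => -(r : ℤ)), f k := by
    rw [Finset.sum_image]
    intro a _ b _ h
    simp only at h
    omega
  have e2 : ∑ j ∈ range (d + 1), f (j : ℤ) = ∑ k ∈ (range (d + 1)).image (fun r : ℕ => (r : ℤ)), f k := by
    rw [Finset.sum_image]
    intro a _ b _ h
    simp only at h
    omega
  have e3 : ∑ r ∈ Icc 1 N, f ((d : ℤ) + r) = ∑ k ∈ (Icc 1 N).image (fun r : ℕ => (d : ℤ) + r), f k := by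
    rw [Finset.sum_image]
    intro a _ b _ h
    simp only at h
    omega
  rw [e1, e2, e3, ← Finset.sum_union, ← Finset.sum_union]
  · exact ENNReal.sum_le_tsum _
  · rw [Finset.disjoint_left]
    intro k hk hk'
    rw [Finset.mem_union, Finset.mem_image, Finset.mem_image] at hk
    rw [Finset.mem_image] at hk'
    obtain ⟨r', hr', rfl⟩ := hk'
    rw [Finset.mem_Icc] at hr'
    rcases hk with ⟨r, hr, h⟩ | ⟨r, hr, h⟩
    · rw [Finset.mem_Icc] at hr
      omega
    · rw [Finset.mem_range] at hr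
      omega
  · rw [Finset.disjoint_left]
    intro k hk hk'
    rw [Finset.mem_image] at hk hk'
    obtain ⟨r', hr', rfl⟩ := hk'
    obtain ⟨r, hr, h⟩ := hk
    rw [Finset.mem_Icc] at hr
    omega

lemma II_le (T : ℕ) (k a b : ℤ) : II (St T) oo up k a b ≤ BT T * GG T (b - a).natAbs := by
  rw [← arc_GG, ← II_add_MM]
  exact le_self_add

lemma rho_le (T r i : ℕ) : rho T r i ≤ BT T * GG T i := by
  have h := II_le T 0 r (r + i)
  have e : ((r : ℤ) + i - r).natAbs = i := by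
    rw [add_sub_cancel_left]
    exact Int.natAbs_natCast i
  rw [e] at h
  exact h

/-- the bridge starts on the left of the arc. -/
lemma II_left (T r d : ℕ) : II (St T) oo up (-(r : ℤ)) 0 d = rho T r d := by
  have h := II_trans T (-(r : ℤ)) 0 d r
  rw [neg_add_cancel, zero_add, add_comm (d : ℤ)] at h
  exact h.symm

/-- the bridge starts on the right of the arc. -/
lemma II_right (T r d : ℕ) : II (St T) oo up ((d : ℤ) + r) 0 d = rho T r d := by
  have h1 := II_mirror T ((d : ℤ) + r) 0 d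
  have h2 := II_trans T (-((d : ℤ) + r)) (-0) (-(d : ℤ)) ((d : ℤ) + r)
  rw [← h1, ← h2]
  have e1 : -((d : ℤ) + r) + (d + r) = 0 := by ring
  have e2 : (-0 : ℤ) + (d + r) = r + d := by ring
  have e3 : -(d : ℤ) + (d + r) = r := by ring
  rw [e1, e2, e3, II_rev]
  rfl

/-- arcs that land on the other side. -/
lemma II_far (T d i : ℕ) : II (St T) oo up (d : ℤ) 0 (0 - ((i : ℤ) + 1)) = rho T d (i + 1) := by
  have h1 := II_mirror T (d : ℤ) 0 (0 - ((i : ℤ) + 1))
  have h2 := II_trans T (-(d : ℤ)) (-0) (-(0 - ((i : ℤ) + 1))) (d : ℤ)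
  rw [← h1, ← h2]
  have e1 : -(d : ℤ) + d = 0 := by ring
  have e2 : (-0 : ℤ) + d = d := by ring
  have e3 : -(0 - ((i : ℤ) + 1)) + d = d + (((i + 1 : ℕ)) : ℤ) := by
    push_cast
    ring
  rw [e1, e2, e3]
  rfl

/-- arcs that land between the feet. -/
lemma II_near (T d i : ℕ) (hi : i ≤ d) : II (St T) oo up (d : ℤ) 0 (0 + i) = rho T (d - i) i := by
  have h1 := II_mirror T (d : ℤ) 0 (0 + i)
  have h2 := II_trans T (-(d : ℤ)) (-0) (-(0 + (i : ℤ))) (d : ℤ)
  rw [← h1, ← h2, ← II_rev]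
  have e1 : -(d : ℤ) + d = 0 := by ring
  have e2 : -(0 + (i : ℤ)) + d = ((d - i : ℕ) : ℤ) := by
    rw [Nat.cast_sub hi]
    ring
  have e3 : (-0 : ℤ) + d = ((d - i : ℕ) : ℤ) + i := by
    rw [Nat.cast_sub hi]
    ring
  rw [e1, e2, e3]
  rfl

lemma BT_ne_top {T : ℕ} (hT : 1 ≤ T) : BT T ≠ ∞ := ne_top_of_le_ne_top ENNReal.one_ne_top (BT_le_one hT)

lemma GG_le_tail (T i : ℕ) : GG T i ≤ tail T i := by
  unfold tail
  exact ENNReal.le_tsum (f := fun k => GG T (i + k)) 0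

lemma GG_ne_top {T : ℕ} (hT : 1 ≤ T) (i : ℕ) : GG T i ≠ ∞ :=
  ne_top_of_le_ne_top (CB.tail_ne_top hT i) (GG_le_tail T i)

lemma rho_ne_top {T : ℕ} (hT : 1 ≤ T) (r i : ℕ) : rho T r i ≠ ∞ :=
  ne_top_of_le_ne_top (ENNReal.mul_ne_top (BT_ne_top hT) (GG_ne_top hT i)) (rho_le T r i)

lemma sum_rho_le (T d : ℕ) : ∑' i : ℕ, rho T d (i + 1) ≤ BT T * tail T 1 := by
  unfold tail
  rw [← ENNReal.tsum_mul_left]
  apply ENNReal.tsum_le_tsum
  intro i
  rw [add_comm 1 i]
  exact rho_le T d (i + 1)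

lemma sum_rho_ne_top {T : ℕ} (hT : 1 ≤ T) (d : ℕ) : ∑' i : ℕ, rho T d (i + 1) ≠ ∞ :=
  ne_top_of_le_ne_top (ENNReal.mul_ne_top (BT_ne_top hT) (CB.tail_ne_top hT 1)) (sum_rho_le T d)

lemma sum_rho_real {T : ℕ} (hT : 1 ≤ T) (d : ℕ) :
    (∑' i : ℕ, rho T d (i + 1)).toReal = ∑' i : ℕ, (rho T d (i + 1)).toReal :=
  ENNReal.tsum_toReal_eq (fun i => rho_ne_top hT d (i + 1))

/-- QL in terms of the defects. -/
lemma QL_rho {T : ℕ} (hT : 1 ≤ T) {d : ℕ} (hd : 1 ≤ d) :
    QL (St T) oo up d 0 + ∑' i : ℕ, rho T d (i + 1) = BT T * tail T 1 := by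
  rw [QL_eq hT (show (0 : ℤ) < d by exact_mod_cast hd), ← ENNReal.tsum_add]
  unfold tail
  rw [← ENNReal.tsum_mul_left]
  apply tsum_congr
  intro i
  have h := II_add_MM T (d : ℤ) 0 (0 - ((i : ℤ) + 1))
  rw [II_far, arc_GG] at h
  have e : (0 - ((i : ℤ) + 1) - 0).natAbs = 1 + i := by omega
  rw [e] at h
  rw [add_comm, h]

/-- QR in terms of the defects. -/
lemma QR_rho {T : ℕ} (hT : 1 ≤ T) {d : ℕ} (hd : 1 ≤ d) :
    QR (St T) oo up d 0 + ∑ i ∈ Ico 1 d, rho T (d - i) i = BT T * ∑ i ∈ Ico 1 d, GG T i := by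
  have e0 : ((d : ℤ) - 0).toNat = d := by omega
  rw [QR_eq hT (show (0 : ℤ) < d by exact_mod_cast hd), e0, ← Finset.sum_add_distrib, Finset.mul_sum]
  apply Finset.sum_congr rfl
  intro i hi
  rw [Finset.mem_Ico] at hi
  have h := II_add_MM T (d : ℤ) 0 (0 + (i : ℤ))
  rw [II_near T d i (by omega), arc_GG] at h
  have e : (0 + (i : ℤ) - 0).natAbs = i := by omega
  rw [e] at h
  rw [add_comm, h]

lemma head_tail (T d : ℕ) (hd : 1 ≤ d) : ∑ i ∈ Ico 1 d, GG T i + tail T d = tail T 1 := by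
  obtain ⟨e, rfl⟩ := Nat.exists_eq_add_of_le hd
  have h := head_add_tail T e
  have e1 : ∑ i ∈ Ico 1 (1 + e), GG T i = ∑ y ∈ range e, GG T (y + 1) := by
    rw [Finset.sum_Ico_eq_sum_range, Nat.add_sub_cancel_left]
    apply Finset.sum_congr rfl
    intro i _
    rw [add_comm 1 i]
  have e2 : tail T 1 = ∑' k : ℕ, GG T (k + 1) := by
    unfold tail
    apply tsum_congr
    intro k
    rw [add_comm 1 k]
  rw [e1, e2, add_comm 1 e]
  exact h

lemma sin34 : Real.sin (3 * Real.pi / 8) = Real.cos (Real.pi / 8) := by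
  rw [show 3 * Real.pi / 8 = Real.pi / 2 - Real.pi / 8 by ring, Real.sin_pi_div_two_sub]

lemma cos34 : Real.cos (3 * Real.pi / 8) = Real.sin (Real.pi / 8) := by
  rw [show 3 * Real.pi / 8 = Real.pi / 2 - Real.pi / 8 by ring, Real.cos_pi_div_two_sub]

lemma sin24 : Real.sin (Real.pi / 4) = 2 * Real.sin (Real.pi / 8) * Real.sin (3 * Real.pi / 8) := by
  rw [show Real.pi / 4 = 2 * (Real.pi / 8) by ring, Real.sin_two_mul, sin34]

lemma s1_pos : 0 < Real.sin (Real.pi / 8) := by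
  apply Real.sin_pos_of_pos_of_lt_pi <;> linarith [Real.pi_pos]

lemma s3_pos : 0 < Real.sin (3 * Real.pi / 8) := by
  apply Real.sin_pos_of_pos_of_lt_pi <;> linarith [Real.pi_pos]

end RowAlg

open RowAlg

/-- THE ROW INEQUALITY. -/
theorem row {T : ℕ} (hT : 1 ≤ T) {d : ℕ} (hd : 1 ≤ d) (N : ℕ) :
    (d + 1) * ((BT T).toReal * (GG T d).toReal) + 2 * ∑ r ∈ Icc 1 N, (rho T r d).toReal ≤
      ∑' i : ℕ, (rho T d (i + 1)).toReal + Real.sqrt 2 * Real.sin (3 * Real.pi / 8) * (BT T).toReal ^ 2 := by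
  have hd0 : (0 : ℤ) < d := by exact_mod_cast hd
  have h1 := row_strip hT hd0
  have h2 := three (fun k => II (St T) oo up k 0 d) d N
  have e1 : ∀ r : ℕ, II (St T) oo up (-(r : ℤ)) 0 d = rho T r d := fun r => II_left T r d
  have e2 : ∀ r : ℕ, II (St T) oo up ((d : ℤ) + r) 0 d = rho T r d := fun r => II_right T r d
  have e3 : ∑ j ∈ range (d + 1), II (St T) oo up (j : ℤ) 0 d = (d + 1 : ℕ) * (BT T * GG T d) := by
    have : ∀ j ∈ range (d + 1), II (St T) oo up (j : ℤ) 0 d = BT T * GG T d := by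
      intro j hj
      rw [Finset.mem_range] at hj
      have h := II_inside hT (k := (j : ℤ)) (a := 0) (b := (d : ℤ)) (by omega) (by omega) hd0
      rw [h]
      congr 2
    rw [Finset.sum_congr rfl this, Finset.sum_const, Finset.card_range, nsmul_eq_mul]
  simp only [e1, e2, e3] at h2
  -- everything is finite
  have fB := BT_ne_top hT
  have fP : ENNReal.ofReal (Real.sin (3 * Real.pi / 8)) * BT T ≠ ∞ := ENNReal.mul_ne_top ENNReal.ofReal_ne_top fB
  have h3 : ENNReal.ofReal (Real.sin (Real.pi / 4)) * (QL (St T) oo up d 0 +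
      (∑ r ∈ Icc 1 N, rho T r d + (d + 1 : ℕ) * (BT T * GG T d) + ∑ r ∈ Icc 1 N, rho T r d)) ≤
      ENNReal.ofReal (Real.sin (3 * Real.pi / 8)) * BT T := by
    refine le_trans ?_ h1
    refine le_trans ?_ le_add_self
    exact mul_le_mul_right (add_le_add_right h2 _) _
  have hQ := QL_rho hT hd
  have fQ : QL (St T) oo up d 0 ≠ ∞ := by
    apply ne_top_of_le_ne_top (ENNReal.mul_ne_top fB (CB.tail_ne_top hT 1))
    rw [← hQ]
    exact le_self_add
  have fr : ∀ r ∈ Icc 1 N, rho T r d ≠ ∞ := fun r _ => rho_ne_top hT r d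
  have fS : ∑ r ∈ Icc 1 N, rho T r d ≠ ∞ := ENNReal.sum_ne_top.2 fr
  have fG : (d + 1 : ℕ) * (BT T * GG T d) ≠ ∞ :=
    ENNReal.mul_ne_top (ENNReal.natCast_ne_top _) (ENNReal.mul_ne_top fB (GG_ne_top hT d))
  have h4 := ENNReal.toReal_mono fP h3
  have hs24 : 0 ≤ Real.sin (Real.pi / 4) := by
    rw [sin24]
    have := s1_pos
    have := s3_pos
    positivity
  rw [ENNReal.toReal_mul, ENNReal.toReal_mul, ENNReal.toReal_ofReal hs24, ENNReal.toReal_ofReal s3_pos.le,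
    ENNReal.toReal_add fQ (ENNReal.add_ne_top.2 ⟨ENNReal.add_ne_top.2 ⟨fS, fG⟩, fS⟩),
    ENNReal.toReal_add (ENNReal.add_ne_top.2 ⟨fS, fG⟩) fS, ENNReal.toReal_add fS fG, ENNReal.toReal_mul,
    ENNReal.toReal_mul, ENNReal.toReal_natCast, ENNReal.toReal_sum fr] at h4
  have h5 := congrArg ENNReal.toReal hQ
  rw [ENNReal.toReal_add fQ (sum_rho_ne_top hT d), ENNReal.toReal_mul, sum_rho_real hT d] at h5
  have h6 := dcs hT
  set b := (BT T).toReal with hb
  set g := (GG T d).toReal with hg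
  set t := (tail T 1).toReal with ht
  set R := ∑' i : ℕ, (rho T d (i + 1)).toReal with hR
  set S := ∑ r ∈ Icc 1 N, (rho T r d).toReal with hS
  set q := (QL (St T) oo up d 0).toReal with hq
  have s1 := s1_pos
  have s3 := s3_pos
  rw [cos34] at h6
  rw [sin24] at h4
  push_cast at h4
  -- h4 : 2 s1 s3 (q + (S + (d+1) b g + S)) <= s3 b
  have h7 : 2 * Real.sin (Real.pi / 8) * (q + (S + (d + 1) * (b * g) + S)) ≤ b := by
    have h8 : Real.sin (3 * Real.pi / 8) * (2 * Real.sin (Real.pi / 8) * (q + (S + (d + 1) * (b * g) + S))) ≤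
        Real.sin (3 * Real.pi / 8) * b := by
      linarith
    exact le_of_mul_le_mul_left h8 s3
  -- q = b t - R, 2 s1 t = 1 - b
  have h9 : 2 * Real.sin (Real.pi / 8) * ((d + 1) * (b * g) + 2 * S - R) ≤ b ^ 2 := by
    have e1 : q = b * t - R := by linarith
    have e2 : 2 * Real.sin (Real.pi / 8) * t = 1 - b := by linarith
    rw [e1] at h7
    have : 2 * Real.sin (Real.pi / 8) * (b * t - R + (S + (d + 1) * (b * g) + S)) =
        b * (2 * Real.sin (Real.pi / 8) * t) + 2 * Real.sin (Real.pi / 8) * ((d + 1) * (b * g) + 2 * S - R) := by ring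
    rw [this, e2] at h7
    linarith
  -- sqrt 2 s3 * 2 s1 = 1
  have h10 : 2 * Real.sin (Real.pi / 8) * (Real.sqrt 2 * Real.sin (3 * Real.pi / 8)) = 1 := by
    have e1 := sin24
    rw [Real.sin_pi_div_four] at e1
    have e2 : Real.sqrt 2 * Real.sqrt 2 = 2 := Real.mul_self_sqrt (by norm_num)
    have e3 : 2 * Real.sin (Real.pi / 8) * (Real.sqrt 2 * Real.sin (3 * Real.pi / 8)) =
        Real.sqrt 2 * (2 * Real.sin (Real.pi / 8) * Real.sin (3 * Real.pi / 8)) := by ring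
    rw [e3, ← e1]
    linarith
  have h11 : 2 * Real.sin (Real.pi / 8) * ((d + 1) * (b * g) + 2 * S - R) ≤
      2 * Real.sin (Real.pi / 8) * (Real.sqrt 2 * Real.sin (3 * Real.pi / 8) * b ^ 2) := by
    have : 2 * Real.sin (Real.pi / 8) * (Real.sqrt 2 * Real.sin (3 * Real.pi / 8) * b ^ 2) =
        2 * Real.sin (Real.pi / 8) * (Real.sqrt 2 * Real.sin (3 * Real.pi / 8)) * b ^ 2 := by ring
    rw [this, h10, one_mul]
    exact h9
  have h12 := le_of_mul_le_mul_left h11 (by positivity)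
  linarith

/-- THE DIAGONAL INEQUALITY. -/
theorem diag {T : ℕ} (hT : 1 ≤ T) {d : ℕ} (hd : 1 ≤ d) :
    ∑ i ∈ Ico 1 d, (rho T (d - i) i).toReal + (BT T).toReal * (tail T d).toReal ≤
      Real.sqrt 2 * ∑' i : ℕ, (rho T d (i + 1)).toReal +
        Real.sqrt 2 * Real.sin (Real.pi / 8) * (BT T).toReal ^ 2 := by
  have hd0 : (0 : ℤ) < d := by exact_mod_cast hd
  have h1 := diag_strip0 hT hd0
  -- symmetries
  have m1 : QR (St T) oo up 0 d = QL (St T) oo up d 0 := by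
    have a1 := QR_trans T 0 d (-(d : ℤ))
    have a2 := QR_mirror T (d : ℤ) 0
    rw [zero_add, add_neg_cancel] at a1
    rw [neg_zero] at a2
    rw [← a1, a2]
  have m2 : QL (St T) oo up 0 d = QR (St T) oo up d 0 := by
    have a1 := QR_trans T 0 (-(d : ℤ)) (d : ℤ)
    have a2 := QR_mirror T 0 (d : ℤ)
    rw [neg_zero] at a2
    rw [zero_add, neg_add_cancel, a2] at a1
    exact a1.symm
  rw [m1, m2] at h1
  have hQ := QL_rho hT hd
  have hR := QR_rho hT hd
  have hh := head_tail T d hd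
  have fB := BT_ne_top hT
  have fQ : QL (St T) oo up d 0 ≠ ∞ := by
    apply ne_top_of_le_ne_top (ENNReal.mul_ne_top fB (CB.tail_ne_top hT 1))
    rw [← hQ]
    exact le_self_add
  have fG : ∀ i ∈ Ico 1 d, GG T i ≠ ∞ := fun i _ => GG_ne_top hT i
  have fr : ∀ i ∈ Ico 1 d, rho T (d - i) i ≠ ∞ := fun i _ => rho_ne_top hT _ i
  have fQR : QR (St T) oo up d 0 ≠ ∞ := by
    apply ne_top_of_le_ne_top (ENNReal.mul_ne_top fB (ENNReal.sum_ne_top.2 fG))
    rw [← hR]
    exact le_self_add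
  have h5 := congrArg ENNReal.toReal hQ
  rw [ENNReal.toReal_add fQ (sum_rho_ne_top hT d), ENNReal.toReal_mul, sum_rho_real hT d] at h5
  have h6 := congrArg ENNReal.toReal hR
  rw [ENNReal.toReal_add fQR (ENNReal.sum_ne_top.2 fr), ENNReal.toReal_mul, ENNReal.toReal_sum fr,
    ENNReal.toReal_sum fG] at h6
  have h7 := congrArg ENNReal.toReal hh
  rw [ENNReal.toReal_add (ENNReal.sum_ne_top.2 fG) (CB.tail_ne_top hT d), ENNReal.toReal_sum fG] at h7
  have h8 := dcs hT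
  rw [cos34] at h8
  have hP : 0 ≤ (P2 (St T) oo up (d : ℤ) 0 ∅).toReal := ENNReal.toReal_nonneg
  set b := (BT T).toReal with hb
  set t := (tail T 1).toReal with ht
  set td := (tail T d).toReal with htd
  set R := ∑' i : ℕ, (rho T d (i + 1)).toReal with hRd
  set L := ∑ i ∈ Ico 1 d, (rho T (d - i) i).toReal with hL
  set q := (QL (St T) oo up d 0).toReal with hq
  set q' := (QR (St T) oo up d 0).toReal with hq'
  set P := (P2 (St T) oo up (d : ℤ) 0 ∅).toReal with hPd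
  set H := ∑ i ∈ Ico 1 d, (GG T i).toReal with hH
  have s1 := s1_pos
  have r2 : Real.sqrt 2 * Real.sqrt 2 = 2 := Real.mul_self_sqrt (by norm_num)
  have r20 : 0 < Real.sqrt 2 := by positivity
  have d2 : ∀ x : ℝ, x / Real.sqrt 2 = x * Real.sqrt 2 / 2 := by
    intro x
    rw [div_eq_div_iff r20.ne' two_ne_zero, mul_assoc, r2]
  simp only [d2] at h1
  -- 2 s1 (b - P) = 2 q - sqrt2 q'
  have h9 : 2 * Real.sin (Real.pi / 8) * (b - P) = 2 * q - Real.sqrt 2 * q' := by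
    rw [h1]
    ring
  have k1 : q = b * t - R := by linarith
  have k2 : q' = b * (t - td) - L := by
    have : H = t - td := by linarith
    rw [this] at h6
    linarith
  have k3 : 2 * Real.sin (Real.pi / 8) * t = 1 - b := by linarith
  -- 2 sqrt2 s1^2 = sqrt2 - 1
  have k4 : 2 * Real.sqrt 2 * Real.sin (Real.pi / 8) ^ 2 = Real.sqrt 2 - 1 := by
    have e := one_sub_inv_sqrt
    rw [d2, one_mul] at e
    have : 2 * Real.sqrt 2 * Real.sin (Real.pi / 8) ^ 2 = Real.sqrt 2 * (2 * Real.sin (Real.pi / 8) ^ 2) := by ring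
    rw [this, ← e]
    linarith
  rw [k1, k2] at h9
  -- multiply by sqrt 2 / 2
  have k5 : L + b * td = Real.sqrt 2 * R + Real.sqrt 2 * Real.sin (Real.pi / 8) * (b - P) - (Real.sqrt 2 - 1) * (b * t) := by
    linear_combination (-(Real.sqrt 2 / 2)) * h9 + (-(1 / 2)) * (L + b * td - b * t) * r2
  have k6 : (Real.sqrt 2 - 1) * (b * t) = Real.sqrt 2 * Real.sin (Real.pi / 8) * (b * (1 - b)) := by
    rw [← k4, ← k3]
    ring
  rw [k5, k6]
  have k7 : 0 ≤ Real.sqrt 2 * Real.sin (Real.pi / 8) * P := by positivity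
  linarith

end RC

end HexObs
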