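import Pool.Agent.RowCol.Tops

/-!
ROWCOL R3c: the explorers from the top, after pairing.
-/

set_option autoImplicit false

namespace HexObs

namespace RC

namespace TopGe

open Complex Finset ENNReal Ex

lemma mem_exM {Ω : Finset Pt} {w e0 : Pt} {A : Set Pt} {e : List Bool} :
    e ∈ exM Ω w e0 A ↔ e ∈ exits Ω w e0 ∧ ¬ Disjoint A (vis w e0 e) := by
  classical
  unfold exM
  rw [Finset.mem_filter]

lemma mem_brM {Ω : Finset Pt} {v d0 : Pt} {A : Set Pt} {s : List Bool} :
    s ∈ brM Ω v d0 A ↔ s ∈ Br (Ω : Set Pt) ∅ v d0 ∧ ¬ Disjoint A (vis v d0 s) := by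
  classical
  unfold brM
  rw [Finset.mem_filter, mem_brF]

lemma vis_rev (v d0 : Pt) (t : List Bool) :
    vis (tip v d0 t) (-(dx d0 t t.length)) (rev t) = vis v d0 t := by
  ext p
  constructor
  · rintro ⟨i, h1, h2, h3⟩
    rw [rev_length] at h2
    rw [vx_rev v d0 t i (by omega)] at h3
    exact ⟨t.length + 1 - i, by omega, by omega, h3⟩
  · rintro ⟨i, h1, h2, h3⟩
    refine ⟨t.length + 1 - i, by omega, ?_, ?_⟩
    · rw [rev_length]
      omega
    · rw [vx_rev v d0 t _ (by omega), ← h3]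
      congr 1
      omega

/-- the reversed walk, seen from its end. -/
lemma rev_exits {Ω : Finset Pt} {v d0 : Pt} (hv : v ∉ Ω) {t : List Bool} (ht : t ∈ exits Ω v d0) :
    rev t ∈ exits Ω (tip v d0 t) (-(dx d0 t t.length)) ∧
      tip (tip v d0 t) (-(dx d0 t t.length)) (rev t) = v ∧
      dx (-(dx d0 t t.length)) (rev t) (rev t).length = -d0 := by
  obtain ⟨h1, h2⟩ := mem_exits.1 ht
  have h3 : t ∈ outAt (Ω : Set Pt) v d0 (tip v d0 t) (dx d0 t t.length) := ⟨⟨saw_coe.2 h1, h2, rfl⟩, rfl⟩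
  obtain ⟨⟨h4, h5, h6⟩, h7⟩ := rev_mem (Ω := (Ω : Set Pt)) hv h3
  exact ⟨mem_exits.2 ⟨saw_coe.1 h4, h5⟩, h7, h6⟩

lemma hz_up : hz up = (2, -1) := by decide

lemma foot_fst (a : ℤ) : (foot oo up a).1 = 2 * a := by
  unfold foot oo
  rw [hz_up]
  simp only [Prod.fst_add, Prod.smul_fst, smul_eq_mul]
  ring

lemma foot_injective {a b : ℤ} (h : foot oo up a = foot oo up b) : a = b := by
  have h1 := congrArg Prod.fst h
  rw [foot_fst, foot_fst] at h1
  omega

lemma ph_zero : ph 2 0 = Real.sin (Real.pi / 4) := by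
  unfold ph
  congr 1
  push_cast
  ring

lemma ph_nonneg {w : ℤ} (h1 : -2 ≤ w) (h2 : w ≤ 6) : 0 ≤ ph 2 w := by
  unfold ph
  have h3 : (-2 : ℝ) ≤ w := by exact_mod_cast h1
  have h4 : (w : ℝ) ≤ 6 := by exact_mod_cast h2
  have h5 := Real.pi_pos
  apply Real.sin_nonneg_of_nonneg_of_le_pi
  · apply mul_nonneg
    · linarith
    · positivity
  · nlinarith

lemma ph_three : Real.sin (Real.pi / 8) ≤ ph 2 3 := by
  unfold ph
  have h5 := Real.pi_pos
  have e : Real.sin ((2 + ((3 : ℤ) : ℝ)) * (Real.pi / 8)) = Real.sin (3 * Real.pi / 8) := by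
    rw [← Real.sin_pi_sub]
    congr 1
    push_cast
    ring
  rw [e]
  apply Real.sin_le_sin_of_le_of_le_pi_div_two <;> linarith

lemma ph_neg_three : ph 2 (-3) = -Real.sin (Real.pi / 8) := by
  unfold ph
  rw [← Real.sin_neg]
  congr 1
  push_cast
  ring

end TopGe

open Ex TopGe in
/-- R3c (TopGe.lean). the explorers from the top, after pairing. -/
theorem top_ge {T L : ℕ} (hT : 1 ≤ T) (hL : 1 ≤ L) {A : Set Pt} (hA : A ⊆ tF T L) {K : Finset ℤ}
    (hK : ∀ k ∈ K, |k| < L) :
    Real.sin (Real.pi / 4) * ∑ k ∈ K, ∑ s ∈ brM (tF T L) (foot oo up k) up A, xc ^ s.length ≤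
      ∑ w ∈ tops T L, ∑ e ∈ exM (tF T L) w (-up) A, xc ^ e.length * ph 2 (wind e) := by
  classical
  rw [Finset.sum_sigma', Finset.sum_sigma']
  obtain ⟨P, hP⟩ : ∃ P : Finset (Σ _ : Pt, List Bool), P = (tops T L).sigma (fun w => exM (tF T L) w (-up) A) :=
    ⟨_, rfl⟩
  have memP : ∀ p, p ∈ P ↔ p.1 ∈ tops T L ∧ p.2 ∈ exM (tF T L) p.1 (-up) A := by
    intro p
    rw [hP, Finset.mem_sigma]
  rw [← hP]
  have hwt : ∀ p : (Σ _ : Pt, List Bool), 0 ≤ xc ^ p.2.length := fun p => pow_nonneg xc_pos.le _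
  have hs8 : 0 ≤ Real.sin (Real.pi / 8) := by
    apply Real.sin_nonneg_of_nonneg_of_le_pi <;> linarith [Real.pi_pos]
  have hs4 : 0 ≤ Real.sin (Real.pi / 4) := by
    apply Real.sin_nonneg_of_nonneg_of_le_pi <;> linarith [Real.pi_pos]
  -- the pairing
  have hpair : ∑ p ∈ P with wind p.2 = -3, xc ^ p.2.length = ∑ p ∈ P with wind p.2 = 3, xc ^ p.2.length := by
    have key : ∀ z : ℤ, (z = 3 ∨ z = -3) → ∀ p ∈ P.filter (fun p => wind p.2 = z),
        (⟨tip p.1 (-up) p.2, rev p.2⟩ : Σ _ : Pt, List Bool) ∈ P.filter (fun p => wind p.2 = -z) ∧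
          (⟨tip (tip p.1 (-up) p.2) (-up) (rev p.2), rev (rev p.2)⟩ : Σ _ : Pt, List Bool) = p := by
      intro z hz p hp
      obtain ⟨hp1, hp2⟩ := Finset.mem_filter.1 hp
      obtain ⟨h1, h2⟩ := (memP p).1 hp1
      obtain ⟨h3, h4⟩ := mem_exM.1 h2
      obtain ⟨hwo, _, _⟩ := tops_spec hT hL h1
      have h5 := exits_top hT hL h1 h3
      obtain ⟨h6, h7⟩ : dx (-up) p.2 p.2.length = up ∧ tip p.1 (-up) p.2 ∈ tops T L := by
        rcases h5 with h5 | h5 | h5 | h5 | h5 | h5
        · exact absurd h5.1 (by omega)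
        · exact absurd h5 (by omega)
        · exact absurd h5 (by omega)
        · exact absurd h5 (by omega)
        · exact absurd h5 (by omega)
        · exact h5.2
      obtain ⟨r1, r2, r3⟩ := rev_exits hwo h3
      have r4 := vis_rev p.1 (-up) p.2
      rw [h6] at r1 r2 r3 r4
      refine ⟨?_, ?_⟩
      · rw [Finset.mem_filter, memP]
        refine ⟨⟨h7, mem_exM.2 ⟨r1, ?_⟩⟩, ?_⟩
        · show ¬ Disjoint A (vis (tip p.1 (-up) p.2) (-up) (rev p.2))
          rw [r4]
          exact h4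
        · show wind (rev p.2) = -z
          rw [wind_rev, hp2]
      · rw [r2, rev_rev]
    refine Finset.sum_bij' (fun p _ => ⟨tip p.1 (-up) p.2, rev p.2⟩) (fun p _ => ⟨tip p.1 (-up) p.2, rev p.2⟩)
      ?_ ?_ ?_ ?_ ?_
    · intro p hp
      have := (key (-3) (Or.inr rfl) p hp).1
      rwa [neg_neg] at this
    · intro p hp
      exact (key 3 (Or.inl rfl) p hp).1
    · intro p hp
      exact (key (-3) (Or.inr rfl) p hp).2
    · intro p hp
      exact (key 3 (Or.inl rfl) p hp).2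
    · intro p hp
      rw [rev_length]
  -- the bridges
  have hbr : ∑ x ∈ K.sigma (fun k => brM (tF T L) (foot oo up k) up A), xc ^ x.2.length ≤
      ∑ p ∈ P with wind p.2 = 0, xc ^ p.2.length := by
    obtain ⟨φ, hφ⟩ : ∃ φ : (Σ _ : ℤ, List Bool) → (Σ _ : Pt, List Bool),
        φ = fun x => ⟨tip (foot oo up x.1) up x.2, rev x.2⟩ := ⟨_, rfl⟩
    have key : ∀ x ∈ K.sigma (fun k => brM (tF T L) (foot oo up k) up A),
        φ x ∈ P.filter (fun p => wind p.2 = 0) ∧
          tip (tip (foot oo up x.1) up x.2) (-up) (rev x.2) = foot oo up x.1 := by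
      intro x hx
      obtain ⟨h1, h2⟩ := Finset.mem_sigma.1 hx
      obtain ⟨h3, h4⟩ := mem_brM.1 h2
      have hk := hK x.1 h1
      have hgd := HexW.trap_good_foot (v0 := oo) HexW.up_mem hT hk
      have h5 := br_wind hgd h3
      obtain ⟨h6, h7, h8⟩ := h3
      have hex : x.2 ∈ exits (tF T L) (foot oo up x.1) up := mem_exits.2 ⟨saw_arr h6, h7⟩
      have hfo : foot oo up x.1 ∉ tF T L := by
        intro h
        have := hgd.half _ h
        rw [sub_self] at this
        simp [ip] at this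
      obtain ⟨r1, r2, r3⟩ := rev_exits hfo hex
      have r4 := vis_rev (foot oo up x.1) up x.2
      rw [h8] at r1 r2 r3 r4
      refine ⟨?_, r2⟩
      rw [Finset.mem_filter, memP, hφ]
      refine ⟨⟨tip_tops hT hk ⟨h6, h7, h8⟩, mem_exM.2 ⟨r1, ?_⟩⟩, ?_⟩
      · show ¬ Disjoint A (vis (tip (foot oo up x.1) up x.2) (-up) (rev x.2))
        rw [r4]
        exact h4
      · show wind (rev x.2) = 0
        rw [wind_rev, h5, neg_zero]
    have hinj : Set.InjOn φ (K.sigma (fun k => brM (tF T L) (foot oo up k) up A) : Set (Σ _ : ℤ, List Bool)) := by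
      intro x hx y hy hxy
      have hx2 := (key x hx).2
      have hy2 := (key y hy).2
      rw [hφ] at hxy
      have h1 : tip (foot oo up x.1) up x.2 = tip (foot oo up y.1) up y.2 := congrArg Sigma.fst hxy
      have h2 : rev x.2 = rev y.2 := congrArg (fun p : (Σ _ : Pt, List Bool) => p.2) hxy
      have h3 : x.2 = y.2 := by
        have := congrArg rev h2
        rwa [rev_rev, rev_rev] at this
      have h4 : x.1 = y.1 := by
        apply foot_injective
        rw [← hx2, ← hy2, h1, h2]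
      rcases x with ⟨x1, x2⟩
      rcases y with ⟨y1, y2⟩
      simp only at h3 h4
      rw [h3, h4]
    have hsum : ∑ x ∈ K.sigma (fun k => brM (tF T L) (foot oo up k) up A), xc ^ x.2.length =
        ∑ p ∈ (K.sigma (fun k => brM (tF T L) (foot oo up k) up A)).image φ, xc ^ p.2.length := by
      rw [Finset.sum_image hinj]
      apply Finset.sum_congr rfl
      intro x _
      rw [hφ]
      show _ = xc ^ (rev x.2).length
      rw [rev_length]
    rw [hsum]
    apply Finset.sum_le_sum_of_subset_of_nonneg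
    · intro p hp
      obtain ⟨x, hx, rfl⟩ := Finset.mem_image.1 hp
      exact (key x hx).1
    · intro p _ _
      exact hwt p
  have hmid : ∀ z : ℤ, (z = 1 ∨ z = -1 ∨ z = 2 ∨ z = -2) → ∀ w : ℤ, w = z →
      Real.sin (Real.pi / 4) * (if w = 0 then 1 else 0) +
        Real.sin (Real.pi / 8) * ((if w = 3 then 1 else 0) - (if w = -3 then 1 else 0)) ≤ ph 2 w := by
    intro z hz w hw
    rw [if_neg (by omega), if_neg (by omega), if_neg (by omega)]
    have := ph_nonneg (w := w) (by omega) (by omega)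
    linarith
  -- the pointwise bound
  have hpt : ∀ p ∈ P, xc ^ p.2.length * (Real.sin (Real.pi / 4) * (if wind p.2 = 0 then 1 else 0) +
      Real.sin (Real.pi / 8) * ((if wind p.2 = 3 then 1 else 0) - (if wind p.2 = -3 then 1 else 0))) ≤
      xc ^ p.2.length * ph 2 (wind p.2) := by
    intro p hp
    obtain ⟨h1, h2⟩ := (memP p).1 hp
    obtain ⟨h3, h4⟩ := mem_exM.1 h2
    apply mul_le_mul_of_nonneg_left _ (hwt p)
    rcases exits_top hT hL h1 h3 with h5 | h5 | h5 | h5 | h5 | h5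
    · rw [h5.1, ph_zero]
      norm_num
    · exact hmid 1 (Or.inl rfl) (wind p.2) h5
    · exact hmid (-1) (Or.inr (Or.inl rfl)) (wind p.2) h5
    · exact hmid 2 (Or.inr (Or.inr (Or.inl rfl))) (wind p.2) h5
    · exact hmid (-2) (Or.inr (Or.inr (Or.inr rfl))) (wind p.2) h5
    · rcases h5.1 with h6 | h6
      · rw [h6, if_neg (by omega), if_pos rfl, if_neg (by omega)]
        have := ph_three
        linarith
      · rw [h6, ph_neg_three, if_neg (by omega), if_neg (by omega), if_pos rfl]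
        linarith
  have hsum := Finset.sum_le_sum hpt
  refine le_trans ?_ hsum
  have e1 : ∑ p ∈ P, xc ^ p.2.length * (Real.sin (Real.pi / 4) * (if wind p.2 = 0 then 1 else 0) +
      Real.sin (Real.pi / 8) * ((if wind p.2 = 3 then 1 else 0) - (if wind p.2 = -3 then 1 else 0))) =
      Real.sin (Real.pi / 4) * (∑ p ∈ P with wind p.2 = 0, xc ^ p.2.length) +
      Real.sin (Real.pi / 8) * ((∑ p ∈ P with wind p.2 = 3, xc ^ p.2.length) -
        ∑ p ∈ P with wind p.2 = -3, xc ^ p.2.length) := by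
    rw [Finset.sum_filter, Finset.sum_filter, Finset.sum_filter, ← Finset.sum_sub_distrib, Finset.mul_sum,
      Finset.mul_sum, ← Finset.sum_add_distrib]
    apply Finset.sum_congr rfl
    intro p _
    split_ifs <;> ring
  rw [e1, hpair, sub_self, mul_zero, add_zero]
  exact mul_le_mul_of_nonneg_left hbr hs4

end RC

end HexObs
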