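import Pool.Agent.RowCol.Defs

/-!
ROWCOL, module R2: hits are the exits that meet A.
-/

set_option autoImplicit false

namespace HexObs

namespace RC

open Complex Finset ENNReal Ex

namespace TopHit

lemma free_filter {Ω : Finset Pt} {w e0 : Pt} {A : Set Pt} (g : List Bool → ℝ) :
    ∑ e ∈ exits Ω w e0, g e = ∑ e ∈ freeF Ω (∅ ∪ A) w e0, g e + ∑ e ∈ exM Ω w e0 A, g e := by
  classical
  have e1 : freeF Ω (∅ ∪ A) w e0 = (exits Ω w e0).filter (fun e => Disjoint A (vis w e0 e)) := by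
    ext u
    rw [mem_freeF, Finset.mem_filter, mem_exits]
    constructor
    · rintro ⟨h1, h2⟩
      refine ⟨⟨saw_arr h1, h2⟩, ?_⟩
      rw [Set.disjoint_left]
      rintro x hx ⟨i, hi1, hi2, hi3⟩
      rw [← hi3] at hx
      exact (h1.mem i hi1 hi2).2 (Or.inr hx)
    · rintro ⟨⟨h1, h2⟩, h3⟩
      rw [Set.disjoint_left] at h3
      refine ⟨⟨?_, h1.inj⟩, h2⟩
      intro i hi1 hi2
      refine ⟨h1.mem i hi1 hi2, ?_⟩
      rintro (h4 | h4)
      · exact h4
      · exact h3 h4 ⟨i, hi1, hi2, rfl⟩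
  have e2 : exM Ω w e0 A = (exits Ω w e0).filter (fun e => ¬ Disjoint A (vis w e0 e)) := by
    unfold exM
    ext u
    simp only [Finset.mem_filter]
  rw [e1, e2, Finset.sum_filter_add_sum_filter_not]

end TopHit

/-- R2 (TopHit.lean). hits are the exits that meet A. -/
theorem hit_eq {Ω : Finset Pt} {w e0 : Pt} (h0 : e0 ∈ dirs) (hh : ∀ v ∈ Ω, 0 < ip (v - w) e0)
    {A : Set Pt} (hA : A ⊆ Ω) (m : ℝ) :
    ∑ e ∈ hitF Ω ∅ A w e0, xc ^ e.length * ph m (wind e) =
      ∑ e ∈ exM Ω w e0 A, xc ^ e.length * ph m (wind e) := by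
  classical
  have h1 : ∑ e ∈ exits (slit Ω (∅ ∪ A)) w e0, xc ^ e.length * ph m (wind e) = Real.sin (m * (Real.pi / 8)) :=
    identity_phase (slit Ω (∅ ∪ A)) h0 (fun v hv => hh v (mem_slit.1 hv).1) m
  have h2 : ∑ e ∈ exits Ω w e0, xc ^ e.length * ph m (wind e) = Real.sin (m * (Real.pi / 8)) :=
    identity_phase Ω h0 hh m
  have h3 := slit_exits Ω (X := ∅) (Y := A) (Set.empty_disjoint _) (Set.empty_subset _) hA w e0
    (fun e => xc ^ e.length * ph m (wind e))
  have h4 : ∑ e ∈ hitF Ω A ∅ w e0, xc ^ e.length * ph m (wind e) = 0 := by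
    apply Finset.sum_eq_zero
    intro u hu
    rw [mem_hitF] at hu
    exact absurd hu.2 (fun h => h)
  have h5 := TopHit.free_filter (Ω := Ω) (w := w) (e0 := e0) (A := A) (fun e => xc ^ e.length * ph m (wind e))
  rw [h4, add_zero] at h3
  linarith

end RC

end HexObs
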