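import Pool.Agent.RowCol.Defs
import Pool.Agent.HexW.Good

/-!
ROWCOL, R3a and R3b: the ends of the bridges of the trapezoid, and the exits seen from them.
-/

set_option autoImplicit false
set_option linter.unusedVariables false

namespace HexObs

namespace RC

open Complex Finset ENNReal

namespace Tops

lemma mem_tF {T L : ℕ} {v : Pt} : v ∈ tF T L ↔ v ∈ trap oo up T L := by
  unfold tF
  rw [← Finset.mem_coe, trapF_coe]

lemma tF_coe (T L : ℕ) : ((tF T L : Finset Pt) : Set Pt) = trap oo up T L := trapF_coe _ T L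

lemma ip_oo (v d : Pt) : ip (v - oo) d = ip v d := by
  congr 1
  exact sub_zero v

lemma mem_tops {T L : ℕ} {w : Pt} : w ∈ tops T L ↔ ∃ v, v ∈ trap oo up T L ∧ ip v up = 3 * T ∧ v + up = w := by
  classical
  have e : tops T L = ((tF T L).filter (fun v => ip v up = 3 * T)).image (fun v => v + up) := by
    unfold tops
    congr
  rw [e, Finset.mem_image]
  constructor
  · rintro ⟨v, hv, rfl⟩
    obtain ⟨h1, h2⟩ := Finset.mem_filter.1 hv
    exact ⟨v, mem_tF.1 h1, h2, rfl⟩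
  · rintro ⟨v, h1, h2, rfl⟩
    exact ⟨v, Finset.mem_filter.2 ⟨mem_tF.2 h1, h2⟩, rfl⟩

lemma up_up : ip up up = 2 := by decide

lemma top_lev {T : ℕ} {v : Pt} (hv : ip v up = 3 * T) : ip (v + up) up = 3 * T + 2 := by
  rw [ip_add_left, hv, up_up]

end Tops

open Tops

/-- R3a (Tops.lean). facts on the tops. -/
theorem tops_spec {T L : ℕ} (hT : 1 ≤ T) (hL : 1 ≤ L) {w : Pt} (hw : w ∈ tops T L) :
    w ∉ tF T L ∧ cl w = cl oo + cl up ∧ ∀ v ∈ tF T L, 0 < ip (v - w) (-up) := by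
  obtain ⟨v, hv, h1, rfl⟩ := mem_tops.1 hw
  have h2 := top_lev h1
  refine ⟨?_, ?_, ?_⟩
  · rw [mem_tF]
    rintro ⟨⟨_, _, h3⟩, _⟩
    rw [ip_oo, h2] at h3
    exact lt_irrefl _ h3
  · rw [cl_add]
    rcases hv.1.1 with h | h
    · rw [h]
    · exfalso
      have h3 : ((ip (v - oo) up : ℤ) : ZMod 3) = _ := ip_mod _ _
      rw [ip_oo, h1, cl_sub, h] at h3
      have e1 : cl oo + cl up - cl oo = cl up := by ring
      rw [e1] at h3
      revert h3
      push_cast
      have e2 : (3 : ZMod 3) = 0 := by decide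
      rw [e2, zero_mul]
      decide
  · intro u hu
    rw [mem_tF] at hu
    have h3 := hu.1.2.2
    rw [ip_oo] at h3
    rw [ip_neg_right, ip_sub_left, h2]
    linarith

theorem tip_tops {T L : ℕ} (hT : 1 ≤ T) {k : ℤ} (hk : |k| < L) {s : List Bool}
    (hs : s ∈ Br (tF T L : Set Pt) ∅ (foot oo up k) up) : tip (foot oo up k) up s ∈ tops T L := by
  obtain ⟨h1, h2, h3⟩ := hs
  rw [Set.sdiff_empty, tF_coe] at h1
  rw [tF_coe] at h2
  have h4 : ip (tip (foot oo up k) up s - oo) up = 3 * T + 2 := by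
    rcases HexW.foot_exit HexW.up_mem hT hk h1 h2 with ⟨h, _⟩ | ⟨_, h⟩ | ⟨b, h, _⟩
    · rw [h] at h3
      exact absurd h3 (by decide)
    · exact h
    · rw [h] at h3
      cases b <;> exact absurd h3 (by decide)
  have hlen : 1 ≤ s.length := by
    by_contra hcon
    have hz : s.length = 0 := by omega
    have : s = [] := List.length_eq_zero_iff.1 hz
    rw [this] at h2
    exact h2 (HexW.foot_first HexW.up_mem oo hT hk)
  have hte := tip_eq (v0 := foot oo up k) (d0 := up) s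
  rw [h3] at hte
  refine mem_tops.2 ⟨_, h1.mem _ hlen le_rfl, ?_, hte.symm⟩
  rw [ip_oo, hte, ip_add_left, up_up] at h4
  linarith

namespace Tops

/-- the exits seen from the tops -/
lemma top_exit {T L : ℕ} (hT : 1 ≤ T) (hL : 1 ≤ L) {w : Pt} (hw : w ∈ tops T L) {e : List Bool}
    (he : e ∈ exits (tF T L) w (-up)) : vx w (-up) e e.length ∈ trap oo up T L ∧
    ((dx (-up) e e.length = -up ∧ ip (tip w (-up) e) up = 0) ∨
    (dx (-up) e e.length = up ∧ ip (tip w (-up) e) up = 3 * T + 2) ∨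
    ∃ b : Bool, dx (-up) e e.length = turn b up ∧ ip (tip w (-up) e) (turn b up) = 3 * L) := by
  obtain ⟨ha, ho⟩ := mem_exits.1 he
  obtain ⟨_, hcl, _⟩ := tops_spec hT hL hw
  have hlen : 1 ≤ e.length := by
    by_contra hcon
    have hz : e.length = 0 := by omega
    have hnil : e = [] := List.length_eq_zero_iff.1 hz
    obtain ⟨v, hv, _, rfl⟩ := mem_tops.1 hw
    rw [hnil] at ho
    apply ho
    rw [mem_tF]
    show v + up + -up ∈ _
    rw [add_neg_cancel_right]
    exact hv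
  have hlast := ha.mem _ hlen le_rfl
  rw [mem_tF] at ho hlast
  have hhex : IsHex oo up (tip w (-up) e) := by
    rcases vx_hex w (-up) e (e.length + 1) with h | h
    · right
      rw [← hcl]
      exact h
    · left
      have h1 : cl (tip w (-up) e) = cl w + cl (-up) := h
      rw [h1, hcl, cl_neg]
      ring
  have hte := tip_eq (v0 := w) (d0 := -up) e
  rw [hte] at ho hhex ⊢
  refine ⟨hlast, ?_⟩
  rcases HexW.trap_step HexW.up_mem hlast (ds_mem (neg_mem_dirs HexW.up_mem) _) hhex ho with ⟨h1, h2⟩ | ⟨h1, h2⟩ |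
    ⟨b, h1, h2, _⟩
  · rw [ip_oo] at h2
    exact Or.inl ⟨h1, h2⟩
  · rw [ip_oo] at h2
    exact Or.inr (Or.inl ⟨h1, h2⟩)
  · rw [ip_oo] at h2
    exact Or.inr (Or.inr ⟨b, h1, h2⟩)

lemma top_good {T L : ℕ} (hT : 1 ≤ T) (hL : 1 ≤ L) {w : Pt} (hw : w ∈ tops T L) : GoodDom (tF T L) w (-up) := by
  refine ⟨neg_mem_dirs HexW.up_mem, (tops_spec hT hL hw).2.2, ?_⟩
  intro t ht v hv
  rw [mem_tF] at hv
  rcases (top_exit hT hL hw ht).2 with ⟨h1, h2⟩ | ⟨h1, h2⟩ | ⟨b, h1, h2⟩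
  · rw [h1, ip_neg_right, ip_sub_left, h2]
    have := hv.1.2.1
    rw [ip_oo] at this
    linarith
  · rw [h1, ip_sub_left, h2]
    have := hv.1.2.2
    rw [ip_oo] at this
    linarith
  · rw [h1, ip_sub_left, h2]
    have : ip v (turn b up) < 3 * L := by
      have h3 := trap_lt hv b
      rw [ip_oo] at h3
      exact h3
    linarith

end Tops

/-- R3b (Tops.lean). exits seen from the tops. -/
theorem exits_top {T L : ℕ} (hT : 1 ≤ T) (hL : 1 ≤ L) {w : Pt} (hw : w ∈ tops T L) {e : List Bool}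
    (he : e ∈ exits (tF T L) w (-up)) :
    (wind e = 0 ∧ dx (-up) e e.length = -up) ∨ wind e = 1 ∨ wind e = -1 ∨ wind e = 2 ∨ wind e = -2 ∨
    ((wind e = 3 ∨ wind e = -3) ∧ dx (-up) e e.length = up ∧ tip w (-up) e ∈ tops T L) := by
  rcases (top_good hT hL hw).wind he with ⟨hd, hw'⟩ | ⟨hd, hw'⟩ | ⟨hd, hw'⟩ | ⟨hd, hw'⟩ | ⟨hd, hw'⟩ | ⟨hd, hw'⟩
  · exact Or.inl ⟨hw', hd⟩
  · exact Or.inr (Or.inl hw')
  · exact Or.inr (Or.inr (Or.inl hw'))
  · exact Or.inr (Or.inr (Or.inr (Or.inl hw')))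
  · exact Or.inr (Or.inr (Or.inr (Or.inr (Or.inl hw'))))
  · refine Or.inr (Or.inr (Or.inr (Or.inr (Or.inr ⟨hw', ?_, ?_⟩))))
    · rw [hd, neg_neg]
    · rw [neg_neg] at hd
      obtain ⟨hlast, h⟩ := top_exit hT hL hw he
      have hte := tip_eq (v0 := w) (d0 := -up) e
      rw [hd] at hte
      refine mem_tops.2 ⟨_, hlast, ?_, hte.symm⟩
      rcases h with ⟨h1, _⟩ | ⟨_, h2⟩ | ⟨b, h1, _⟩
      · rw [hd] at h1
        exact absurd h1 (by decide)
      · rw [hte, ip_add_left, up_up] at h2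
        linarith
      · rw [hd] at h1
        cases b <;> exact absurd h1 (by decide)

end RC

end HexObs
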