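import Pool.Agent.RowCol.SwapB
import Pool.Agent.RowCol.TopHit
import Pool.Agent.RowCol.Tops
import Pool.Agent.RowCol.TopGe

/-!
ROWCOL, R4: the two walk inequality in the trapezoid.
-/

set_option autoImplicit false

namespace HexObs

namespace RC

open Complex Finset ENNReal Ex

namespace RowFin

lemma mem_brM {Ω : Finset Pt} {v d0 : Pt} {A : Set Pt} {s : List Bool} :
    s ∈ brM Ω v d0 A ↔ s ∈ Br (Ω : Set Pt) ∅ v d0 ∧ ¬ Disjoint A (vis v d0 s) := by
  classical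
  unfold brM
  rw [Finset.mem_filter, mem_brF]

lemma arc_arr (Ω : Finset Pt) (Y : Set Pt) (p d0 q : Pt) : InArr Ω p d0 (Arc (Ω : Set Pt) Y p d0 q) :=
  fun _ h => saw_arr h.1.1

lemma ai_arr (Ω : Finset Pt) (Y : Set Pt) (p d0 q : Pt) : InArr Ω p d0 (AI (Ω : Set Pt) Y p d0 q) :=
  fun _ h => saw_arr h.1.1.1

lemma mem_arcF {Ω : Finset Pt} {p d0 q : Pt} {t : List Bool} :
    t ∈ fam Ω p d0 (Arc (Ω : Set Pt) ∅ p d0 q) ↔ t ∈ Arc (Ω : Set Pt) ∅ p d0 q := by
  rw [mem_fam]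
  exact ⟨fun h => h.2, fun h => ⟨arc_arr _ _ _ _ _ t h, h⟩⟩

lemma mem_aiF {Ω : Finset Pt} {Y : Set Pt} {p d0 q : Pt} {t : List Bool} :
    t ∈ fam Ω p d0 (AI (Ω : Set Pt) Y p d0 q) ↔
      t ∈ Arc (Ω : Set Pt) ∅ p d0 q ∧ ¬ Disjoint Y (vis p d0 t) := by
  rw [mem_fam]
  exact ⟨fun h => h.2, fun h => ⟨arc_arr _ _ _ _ _ t h.1, h⟩⟩

/-- the pairs that meet, summed over the arcs first. -/
lemma II_real (Ω : Finset Pt) (v0 d0 : Pt) (k a b : ℤ) :
    (II (Ω : Set Pt) v0 d0 k a b).toReal =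
      ∑ t ∈ fam Ω (foot v0 d0 a) d0 (Arc (Ω : Set Pt) ∅ (foot v0 d0 a) d0 (foot v0 d0 b)),
        xc ^ t.length * ∑ s ∈ brM Ω (foot v0 d0 k) d0 (vis (foot v0 d0 a) d0 t), xc ^ s.length := by
  unfold II
  rw [overBr_toReal _ _ _ _ (fun Y => gf_ne_top (ai_arr Ω Y _ _ _))]
  unfold ob
  have e : ∀ s ∈ fam Ω (foot v0 d0 k) d0 (Br (Ω : Set Pt) ∅ (foot v0 d0 k) d0),
      xc ^ s.length * (gf (AI (Ω : Set Pt) (∅ ∪ vis (foot v0 d0 k) d0 s) (foot v0 d0 a) d0
        (foot v0 d0 b))).toReal =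
      ∑ t ∈ fam Ω (foot v0 d0 a) d0 (AI (Ω : Set Pt) (vis (foot v0 d0 k) d0 s) (foot v0 d0 a) d0
        (foot v0 d0 b)), xc ^ s.length * xc ^ t.length := by
    intro s _
    rw [Set.empty_union, gf_toReal (ai_arr Ω _ _ _ _)]
    unfold gr
    rw [Finset.mul_sum]
  rw [Finset.sum_congr rfl e]
  simp only [Finset.mul_sum]
  rw [Finset.sum_comm' (t' := fam Ω (foot v0 d0 a) d0 (Arc (Ω : Set Pt) ∅ (foot v0 d0 a) d0 (foot v0 d0 b)))
    (s' := fun t => brM Ω (foot v0 d0 k) d0 (vis (foot v0 d0 a) d0 t))]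
  · apply Finset.sum_congr rfl
    intro t _
    apply Finset.sum_congr rfl
    intro s _
    ring
  · intro s t
    rw [mem_brF, mem_aiF, mem_arcF, mem_brM]
    constructor
    · rintro ⟨h1, h2, h3⟩
      exact ⟨⟨h1, fun h => h3 h.symm⟩, h2⟩
    · rintro ⟨⟨h1, h3⟩, h2⟩
      exact ⟨h1, h2, fun h => h3 h.symm⟩

lemma ZB_eq (Ω : Finset Pt) (p q d0 : Pt) (Tp : Finset Pt) (f : ℤ → ℝ) :
    ZB Ω p q d0 Tp f = ∑ t ∈ fam Ω p d0 (Arc (Ω : Set Pt) ∅ p d0 q), xc ^ t.length *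
      ∑ w ∈ Tp, ∑ e ∈ hitF Ω ∅ (vis p d0 t) w (-d0), xc ^ e.length * f (wind e) := by
  unfold ZB
  rw [Finset.sum_comm]
  apply Finset.sum_congr rfl
  intro t _
  rw [Finset.mul_sum]
  apply Finset.sum_congr rfl
  intro w _
  rw [Finset.mul_sum]
  apply Finset.sum_congr rfl
  intro e _
  ring

lemma ph3_shift : (fun w : ℤ => ph 3 (w - 1)) = ph 2 := by
  funext w
  unfold ph
  congr 1
  push_cast
  ring

lemma fr3_ge {Ω : Finset Pt} {p d0 : Pt} (hp : GoodDom Ω p d0) (Y : Set Pt) :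
    Real.sin (3 * Real.pi / 8) * gr Ω p d0 (Br (Ω : Set Pt) Y p d0) +
      Real.sin (Real.pi / 4) * gr Ω p d0 (DnL (Ω : Set Pt) Y p d0) ≤ fr Ω p d0 (ph 3) Y := by
  have hpi := Real.pi_pos
  rw [fr_eq hp]
  have hs : ∀ k : ℤ, -3 ≤ k → k ≤ 5 → 0 ≤ ph 3 k := by
    intro k h1 h2
    have h1' : (-3 : ℝ) ≤ k := by exact_mod_cast h1
    have h2' : (k : ℝ) ≤ 5 := by exact_mod_cast h2
    apply Real.sin_nonneg_of_nonneg_of_le_pi
    · apply mul_nonneg
      · linarith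
      · linarith
    · have : (3 + (k : ℝ)) * (Real.pi / 8) ≤ 8 * (Real.pi / 8) :=
        mul_le_mul_of_nonneg_right (by linarith) (by linarith)
      linarith
  have h1 := lat_nonneg hp (ph 3) Y (hs 1 (by norm_num) (by norm_num)) (hs (-1) (by norm_num) (by norm_num))
    (hs 2 (by norm_num) (by norm_num)) (hs (-2) (by norm_num) (by norm_num))
  have h4 := mul_nonneg (hs (-3) (by norm_num) (by norm_num)) (gr_nonneg Ω p d0 (DnR (Ω : Set Pt) Y p d0))
  have h0 : ph 3 0 = Real.sin (3 * Real.pi / 8) := by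
    unfold ph
    congr 1
    push_cast
    ring
  have h3 : ph 3 3 = Real.sin (Real.pi / 4) := by
    unfold ph
    rw [show (3 + ((3 : ℤ) : ℝ)) * (Real.pi / 8) = Real.pi - Real.pi / 4 by push_cast; ring, Real.sin_pi_sub]
  rw [h0, h3]
  linarith

end RowFin

open RowFin

/-- R4 (RowFin.lean). the two walk inequality in the trapezoid. -/
theorem row_fin {T L : ℕ} (hT : 1 ≤ T) {a b : ℤ} (ha : |a| < L) (hb : |b| < L) (hab : a < b)
    {K : Finset ℤ} (hK : ∀ k ∈ K, |k| < L) :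
    Real.sin (3 * Real.pi / 8) * (P2 (trap oo up T L) oo up b a ∅).toReal +
      Real.sin (Real.pi / 4) * (QL (trap oo up T L) oo up b a).toReal +
      Real.sin (Real.pi / 4) * ∑ k ∈ K, (II (trap oo up T L) oo up k a b).toReal ≤
      Real.sin (3 * Real.pi / 8) * (gf (Br (trap oo up T L) ∅ (foot oo up b) up)).toReal := by
  have hL : 1 ≤ L := by
    have h1 := abs_nonneg a
    have h2 : (0 : ℤ) < L := lt_of_le_of_lt h1 ha
    omega
  have hpi := Real.pi_pos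
  have hp := HexW.trap_good_foot (v0 := oo) HexW.up_mem hT ha
  have hq := HexW.trap_good_foot (v0 := oo) HexW.up_mem hT hb
  rw [← trapF_coe (v0 := oo) HexW.up_mem T L]
  change GoodDom (tF T L) _ _ at hp
  change GoodDom (tF T L) _ _ at hq
  change Real.sin (3 * Real.pi / 8) * (P2 (tF T L : Set Pt) oo up b a ∅).toReal +
      Real.sin (Real.pi / 4) * (QL (tF T L : Set Pt) oo up b a).toReal +
      Real.sin (Real.pi / 4) * ∑ k ∈ K, (II (tF T L : Set Pt) oo up k a b).toReal ≤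
      Real.sin (3 * Real.pi / 8) * (gf (Br (tF T L : Set Pt) ∅ (foot oo up b) up)).toReal
  obtain ⟨Ω, hΩ⟩ : ∃ Ω, Ω = tF T L := ⟨_, rfl⟩
  obtain ⟨p, hpp⟩ : ∃ p, p = foot oo up a := ⟨_, rfl⟩
  obtain ⟨q, hqq⟩ : ∃ q, q = foot oo up b := ⟨_, rfl⟩
  have hid := slit2E hp (foot oo up b) Set.univ 3
  have hsw := swapB hp hq (t3_ip_foot _ _ _ _) (by rw [t3_cl_foot, t3_cl_foot])
    (by rw [t3_cross_foot hp.dir]; linarith) (Tp := tops T L) (fun s hs => tip_tops hT hb hs)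
    (fun w hw => by
      obtain ⟨h1, h2, h3⟩ := tops_spec hT hL hw
      refine ⟨h1, ?_, h3⟩
      rw [h2, t3_cl_foot]) (ph 3)
  rw [ph3_shift, ZB_eq] at hsw
  -- the explorers from the tops
  have hZ : Real.sin (Real.pi / 4) * ∑ k ∈ K, (II (tF T L : Set Pt) oo up k a b).toReal ≤
      ∑ t ∈ fam (tF T L) (foot oo up a) up (Arc (tF T L : Set Pt) ∅ (foot oo up a) up (foot oo up b)),
        xc ^ t.length * ∑ w ∈ tops T L, ∑ e ∈ hitF (tF T L) ∅ (vis (foot oo up a) up t) w (-up),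
          xc ^ e.length * ph 2 (wind e) := by
    rw [Finset.sum_congr rfl (fun k _ => II_real (tF T L) oo up k a b), Finset.sum_comm, Finset.mul_sum]
    apply Finset.sum_le_sum
    intro t ht
    rw [mem_arcF] at ht
    have hA : vis (foot oo up a) up t ⊆ (tF T L : Set Pt) := by
      rintro x ⟨i, h1, h2, rfl⟩
      exact (ht.1.1.mem i h1 h2).1
    have h1 : ∑ w ∈ tops T L, ∑ e ∈ hitF (tF T L) ∅ (vis (foot oo up a) up t) w (-up),
          xc ^ e.length * ph 2 (wind e) =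
        ∑ w ∈ tops T L, ∑ e ∈ exM (tF T L) w (-up) (vis (foot oo up a) up t), xc ^ e.length * ph 2 (wind e) := by
      apply Finset.sum_congr rfl
      intro w hw
      exact hit_eq (neg_mem_dirs HexW.up_mem) (tops_spec hT hL hw).2.2 hA 2
    rw [h1, ← Finset.mul_sum]
    have h2 := top_ge hT hL hA hK
    calc Real.sin (Real.pi / 4) * (xc ^ t.length *
          ∑ k ∈ K, ∑ s ∈ brM (tF T L) (foot oo up k) up (vis (foot oo up a) up t), xc ^ s.length)
        = xc ^ t.length * (Real.sin (Real.pi / 4) *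
          ∑ k ∈ K, ∑ s ∈ brM (tF T L) (foot oo up k) up (vis (foot oo up a) up t), xc ^ s.length) := by ring
      _ ≤ _ := mul_le_mul_of_nonneg_left h2 (pow_nonneg xc_pos.le _)
  rw [← hsw] at hZ
  -- the free explorers
  have hF : Real.sin (3 * Real.pi / 8) * (P2 (tF T L : Set Pt) oo up b a ∅).toReal +
      Real.sin (Real.pi / 4) * (QL (tF T L : Set Pt) oo up b a).toReal ≤
      obE (tF T L) (foot oo up b) up Set.univ (fr (tF T L) (foot oo up a) up (ph 3)) ∅ := by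
    have hP := P2_toReal (tF T L) oo up b a
    have hQ : (QL (tF T L : Set Pt) oo up b a).toReal = ob (tF T L) (foot oo up b) up
        (fun Y => gr (tF T L) (foot oo up a) up (DnL (tF T L : Set Pt) Y (foot oo up a) up)) ∅ := by
      unfold QL
      rw [overBr_toReal _ _ _ _ (fun Y => gf_ne_top (dnl_arr _ Y _ _))]
      congr 1
      funext Y
      exact gf_toReal (dnl_arr _ Y _ _)
    rw [hP, hQ, ← ob_mul, ← ob_mul, ← ob_add (tF T L) (foot oo up b) up (fun Y => Real.sin (3 * Real.pi / 8) *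
      gr (tF T L) (foot oo up a) up (Br (tF T L : Set Pt) Y (foot oo up a) up)) (fun Y => Real.sin (Real.pi / 4) *
      gr (tF T L) (foot oo up a) up (DnL (tF T L : Set Pt) Y (foot oo up a) up))]
    unfold ob obE
    rw [brE_univ]
    apply Finset.sum_le_sum
    intro s _
    exact mul_le_mul_of_nonneg_left (fr3_ge hp _) (pow_nonneg xc_pos.le _)
  rw [gf_toReal (br_arr (tF T L) ∅ _ _)]
  rw [brE_univ] at hid
  have m1 : Real.sin (3 * (Real.pi / 8)) = Real.sin (3 * Real.pi / 8) := by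
    congr 1
    ring
  rw [m1] at hid
  change _ = obE (tF T L) (foot oo up b) up Set.univ (fr (tF T L) (foot oo up a) up (ph 3)) ∅ +
    ZhE (tF T L) ∅ (foot oo up a) (foot oo up b) up Set.univ (ph 3) at hid
  rw [hid]
  linarith

end RC

end HexObs
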