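import Pool.Agent.RowCol.RowFin

/-!
ROWCOL R5: the two walk inequality in the strip.
-/

set_option autoImplicit false

namespace HexObs

namespace RC

open Complex Finset ENNReal Ex Filter Topology

namespace RowStrip

/-- all indices are bounded. -/
lemma big_abs (a b : ℤ) (K : Finset ℤ) : ∃ N : ℕ, |a| < N ∧ |b| < N ∧ ∀ k ∈ K, |k| < N := by
  refine ⟨(|a| + |b| + ∑ k ∈ K, |k| + 1).toNat, ?_⟩
  have h1 := abs_nonneg a
  have h2 := abs_nonneg b
  have h3 : 0 ≤ ∑ k ∈ K, |k| := Finset.sum_nonneg fun k _ => abs_nonneg k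
  rw [Int.toNat_of_nonneg (by positivity)]
  refine ⟨by linarith, by linarith, fun k hk => ?_⟩
  have h4 : |k| ≤ ∑ k ∈ K, |k| := Finset.single_le_sum (f := fun k : ℤ => |k|) (fun k _ => abs_nonneg k) hk
  linarith

lemma hN' {N : ℕ} {j : ℤ} (hj : |j| < N) (n : ℕ) : |j| < ((n + N : ℕ) : ℤ) := by
  push_cast
  linarith

/-- arcs that meet Y. -/
lemma inc_AI {T N : ℕ} (hT : 1 ≤ T) {a : ℤ} (ha : |a| < N) (w : Pt) (Y : Set Pt) :
    HexW.Inc (fun n => AI (trap oo up T (n + N)) Y (foot oo up a) up w) (AI (St T) Y (foot oo up a) up w) :=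
  (HexW.inc_Arc (v0 := oo) HexW.up_mem hT ha w ∅).inter {t | ¬ Disjoint Y (vis (foot oo up a) up t)}

lemma gf_AI_le {T : ℕ} (a : ℤ) (w : Pt) (Y : Set Pt) : gf (AI (St T) Y (foot oo up a) up w) ≤ AT T :=
  (gf_mono (fun _ ht => ht.1.1)).trans (HexW.gf_Dn_le HexW.up_mem a ∅)

lemma up_II {T N : ℕ} (hT : 1 ≤ T) {k a : ℤ} (hk : |k| < N) (ha : |a| < N) (w : Pt) :
    HexW.Up (fun n => overBr (trap oo up T (n + N)) (foot oo up k) up
        (fun Y => gf (AI (trap oo up T (n + N)) Y (foot oo up a) up w)))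
      (overBr (St T) (foot oo up k) up (fun Y => gf (AI (St T) Y (foot oo up a) up w))) :=
  HexW.up_overBr (fun X => HexW.inc_Br HexW.up_mem hT hk X) (HexW.up_gf (fun Y => inc_AI hT ha w Y))

lemma overBr_ne_top {T : ℕ} (hT : 1 ≤ T) (k : ℤ) {F : Set Pt → ℝ≥0∞} {c : ℝ≥0∞} (hc : c ≠ ∞)
    (hF : ∀ Y, F Y ≤ c) (X : Set Pt) : overBr (St T) (foot oo up k) up F X ≠ ∞ := by
  have h := HexW.overBr_le (Ω := St T) (v := foot oo up k) (d0 := up) (F := F) (c := c) (B := 1) hF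
    (fun Y => (HexW.gf_Br_le_one HexW.up_mem hT k Y).trans (BT_le_one hT)) X
  rw [mul_one] at h
  exact ne_top_of_le_ne_top hc h

lemma II_ne_top {T : ℕ} (hT : 1 ≤ T) (k a b : ℤ) : II (St T) oo up k a b ≠ ∞ :=
  overBr_ne_top hT k (AT_ne_top hT) (fun Y => gf_AI_le a _ Y) ∅

lemma QL_ne_top {T : ℕ} (hT : 1 ≤ T) (k a : ℤ) : QL (St T) oo up k a ≠ ∞ :=
  overBr_ne_top hT k (AT_ne_top hT) (fun Y => dnl_le a Y) ∅

lemma P2_ne_top {T : ℕ} (hT : 1 ≤ T) (a b : ℤ) : P2 (St T) oo up a b ∅ ≠ ∞ :=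
  ne_top_of_le_ne_top ENNReal.one_ne_top (HexW.P2_strip_le HexW.up_mem hT a b ∅)

/-- the inequality for finitely many bridges. -/
lemma strip_fin {T : ℕ} (hT : 1 ≤ T) {a b : ℤ} (hab : a < b) (K : Finset ℤ) :
    Real.sin (3 * Real.pi / 8) * (P2 (St T) oo up b a ∅).toReal +
      Real.sin (Real.pi / 4) * (QL (St T) oo up b a).toReal +
      Real.sin (Real.pi / 4) * ∑ k ∈ K, (II (St T) oo up k a b).toReal ≤
      Real.sin (3 * Real.pi / 8) * (BT T).toReal := by
  have h0 := HexW.up_mem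
  obtain ⟨N, ka, kb, kK⟩ := big_abs a b K
  have l1 := limR (HexW.up_P2 (v0 := oo) h0 hT kb ka) (P2_ne_top hT b a)
  have l2 := limR (HexW.up_overBr (fun X => HexW.inc_Br (v0 := oo) h0 hT kb X)
    (HexW.up_gf (fun X => HexW.inc_DnL (v0 := oo) h0 hT ka X))) (QL_ne_top hT b a)
  have l3 : Tendsto (fun n => ∑ k ∈ K, (II (trap oo up T (n + N)) oo up k a b).toReal) atTop
      (𝓝 (∑ k ∈ K, (II (St T) oo up k a b).toReal)) := by
    refine tendsto_finsetSum _ fun k hk => ?_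
    exact limR (up_II hT (kK k hk) ka (foot oo up b)) (II_ne_top hT k a b)
  have hleft := ((l1.const_mul (Real.sin (3 * Real.pi / 8))).add (l2.const_mul (Real.sin (Real.pi / 4)))).add
    (l3.const_mul (Real.sin (Real.pi / 4)))
  refine le_of_tendsto' hleft fun n => ?_
  have h := row_fin (T := T) (L := n + N) hT (hN' ka n) (hN' kb n) hab (K := K) fun k hk => hN' (kK k hk) n
  refine h.trans ?_
  have hs : 0 ≤ Real.sin (3 * Real.pi / 8) :=
    Real.sin_nonneg_of_nonneg_of_le_pi (by positivity) (by linarith [Real.pi_pos])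
  exact mul_le_mul_of_nonneg_left
    (ENNReal.toReal_mono (BT_ne_top hT) (HexW.gf_Br_trap_le h0 hT (hN' kb n) ∅)) hs

end RowStrip

open RowStrip

/-- R5 (RowStrip.lean). the two walk inequality in the strip. -/
theorem row_strip {T : ℕ} (hT : 1 ≤ T) {a b : ℤ} (hab : a < b) :
    ENNReal.ofReal (Real.sin (3 * Real.pi / 8)) * P2 (St T) oo up b a ∅ +
      ENNReal.ofReal (Real.sin (Real.pi / 4)) * (QL (St T) oo up b a + ∑' k : ℤ, II (St T) oo up k a b) ≤
      ENNReal.ofReal (Real.sin (3 * Real.pi / 8)) * BT T := by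
  have hs : 0 ≤ Real.sin (3 * Real.pi / 8) :=
    Real.sin_nonneg_of_nonneg_of_le_pi (by positivity) (by linarith [Real.pi_pos])
  have hs' : 0 ≤ Real.sin (Real.pi / 4) :=
    Real.sin_nonneg_of_nonneg_of_le_pi (by positivity) (by linarith [Real.pi_pos])
  have hfin : ∀ K : Finset ℤ, ENNReal.ofReal (Real.sin (3 * Real.pi / 8)) * P2 (St T) oo up b a ∅ +
      ENNReal.ofReal (Real.sin (Real.pi / 4)) * (QL (St T) oo up b a + ∑ k ∈ K, II (St T) oo up k a b) ≤
      ENNReal.ofReal (Real.sin (3 * Real.pi / 8)) * BT T := by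
    intro K
    have h := strip_fin hT hab K
    have hK : ∑ k ∈ K, II (St T) oo up k a b ≠ ∞ := ENNReal.sum_ne_top.2 fun k _ => II_ne_top hT k a b
    have hQ := QL_ne_top hT b a
    have hP := P2_ne_top hT b a
    have e1 : ENNReal.ofReal (Real.sin (3 * Real.pi / 8)) * P2 (St T) oo up b a ∅ =
        ENNReal.ofReal (Real.sin (3 * Real.pi / 8) * (P2 (St T) oo up b a ∅).toReal) := by
      rw [ENNReal.ofReal_mul hs, ENNReal.ofReal_toReal hP]
    have e2 : ENNReal.ofReal (Real.sin (Real.pi / 4)) * (QL (St T) oo up b a + ∑ k ∈ K, II (St T) oo up k a b) =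
        ENNReal.ofReal (Real.sin (Real.pi / 4) * ((QL (St T) oo up b a).toReal +
          ∑ k ∈ K, (II (St T) oo up k a b).toReal)) := by
      rw [ENNReal.ofReal_mul hs', ENNReal.ofReal_add ENNReal.toReal_nonneg
        (Finset.sum_nonneg fun k _ => ENNReal.toReal_nonneg), ENNReal.ofReal_toReal hQ,
        ← ENNReal.toReal_sum (fun k _ => II_ne_top hT k a b), ENNReal.ofReal_toReal hK]
    have e3 : ENNReal.ofReal (Real.sin (3 * Real.pi / 8)) * BT T =
        ENNReal.ofReal (Real.sin (3 * Real.pi / 8) * (BT T).toReal) := by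
      rw [ENNReal.ofReal_mul hs, ENNReal.ofReal_toReal (BT_ne_top hT)]
    have hS : 0 ≤ ∑ k ∈ K, (II (St T) oo up k a b).toReal :=
      Finset.sum_nonneg fun k _ => ENNReal.toReal_nonneg
    rw [e1, e2, e3, ← ENNReal.ofReal_add (mul_nonneg hs ENNReal.toReal_nonneg)
      (mul_nonneg hs' (add_nonneg ENNReal.toReal_nonneg hS))]
    refine ENNReal.ofReal_le_ofReal ?_
    rw [mul_add]
    linarith
  have hlim : Tendsto (fun K : Finset ℤ => ENNReal.ofReal (Real.sin (3 * Real.pi / 8)) * P2 (St T) oo up b a ∅ +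
      ENNReal.ofReal (Real.sin (Real.pi / 4)) * (QL (St T) oo up b a + ∑ k ∈ K, II (St T) oo up k a b)) atTop
      (𝓝 (ENNReal.ofReal (Real.sin (3 * Real.pi / 8)) * P2 (St T) oo up b a ∅ +
      ENNReal.ofReal (Real.sin (Real.pi / 4)) * (QL (St T) oo up b a + ∑' k : ℤ, II (St T) oo up k a b))) := by
    have h1 : Tendsto (fun K : Finset ℤ => ∑ k ∈ K, II (St T) oo up k a b) atTop
        (𝓝 (∑' k : ℤ, II (St T) oo up k a b)) := ENNReal.summable.hasSum
    exact tendsto_const_nhds.add (ENNReal.Tendsto.const_mul (tendsto_const_nhds.add h1)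
      (Or.inr ENNReal.ofReal_ne_top))
  exact le_of_tendsto' hlim hfin

end RC

end HexObs
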