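import Pool.Agent.RowCol.Defs

/-!
ROWCOL, module R1: the swap with an explorer from the top.
-/

set_option autoImplicit false

namespace HexObs

namespace RC

open Complex Finset ENNReal Ex

namespace SwapB

lemma fork_dirs : ∀ U ∈ dirs, ∀ E ∈ dirs, ∀ c : Bool, cl E = cl U → E ≠ U → E ≠ -turn c U →
    turn c (-turn c U) = -E := by
  decide

lemma neg_dirs : ∀ d ∈ dirs, -d ∈ dirs := by
  decide

lemma rev_append (s t : List Bool) : rev (s ++ t) = rev t ++ rev s := by
  unfold rev
  rw [List.map_append, List.reverse_append]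

lemma rev_split (r : List Bool) (c : Bool) (m : List Bool) :
    rev (r ++ ([c] ++ m)) = rev m ++ ([!c] ++ rev r) := by
  rw [rev_append, rev_append, List.append_assoc]
  rfl

lemma rev_len (r : List Bool) : (rev r).length = r.length := rev_length r

/-- the prefix of the reversed word. -/
lemma rev_pre {v d0 e w : Pt} {r m : List Bool} {c : Bool} (hd : dx d0 (r ++ ([c] ++ m)) (r ++ ([c] ++ m)).length = -e)
    (hw : tip v d0 (r ++ ([c] ++ m)) = w) :
    (∀ k, k ≤ m.length + 1 → vx w e (rev m) k = vx v d0 (r ++ ([c] ++ m)) (r.length + 1 + (m.length + 1) - k)) ∧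
    (∀ k, k ≤ m.length → dx e (rev m) k = - dx d0 (r ++ ([c] ++ m)) (r.length + 1 + m.length - k)) := by
  have hlen : (r ++ ([c] ++ m)).length = r.length + 1 + m.length := by
    simp only [List.length_append, List.length_singleton]
    omega
  have hee : -(dx d0 (r ++ ([c] ++ m)) (r ++ ([c] ++ m)).length) = e := by
    rw [hd, neg_neg]
  constructor
  · intro k hk
    have h1 := vx_rev v d0 (r ++ ([c] ++ m)) k (by omega)
    rw [hee, hw, rev_split, vx_append (by rw [rev_len]; omega)] at h1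
    rw [h1, hlen]
    rfl
  · intro k hk
    have h1 := dx_rev d0 (r ++ ([c] ++ m)) k (by omega)
    rw [hee, rev_split, dx_append (by rw [rev_len]; omega)] at h1
    rw [h1, hlen]

/-- position of the cut. -/
lemma pos_cut {Ω : Set Pt} {v d0 x : Pt} {r m : List Bool} {c : Bool} (hs : Saw Ω v d0 (r ++ ([c] ++ m)))
    (ht : x = tip v d0 r) : pos v d0 (r ++ ([c] ++ m)) x = r.length + 1 := by
  apply pos_unique hs (by omega)
  · simp only [List.length_append, List.length_singleton]
    omega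
  · rw [vx_append le_rfl, ht]
    rfl

lemma cut_parts (r : List Bool) (c : Bool) (m : List Bool) :
    (r ++ ([c] ++ m)).take r.length = r ∧ tf (r ++ ([c] ++ m)) r.length = c ∧
      (r ++ ([c] ++ m)).drop (r.length + 1) = m := by
  refine ⟨List.take_left, ?_, ?_⟩
  · have := tf_append_right (t := r) (s := [c] ++ m) 0
    rw [add_zero] at this
    rw [this]
    rfl
  · rw [← List.append_assoc]
    have : r.length + 1 = (r ++ [c]).length := by simp
    rw [this, List.drop_left]

/-- a word that visits x, in pieces. -/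
lemma pieces {v d0 x : Pt} {s : List Bool} (hx : x ∈ vis v d0 s) :
    ∃ r c m, s = r ++ ([c] ++ m) ∧ x = tip v d0 r := by
  obtain ⟨i, hi, hil, hv⟩ := hx
  have h1 := take_split (t := s) (i := i - 1) (by omega)
  refine ⟨s.take (i - 1), tf s (i - 1), s.drop (i - 1 + 1), h1, ?_⟩
  have h2 : (s.take (i - 1)).length = i - 1 := by
    rw [List.length_take]
    omega
  have h3 : vx v d0 s i = vx v d0 (s.take (i - 1)) i := by
    conv_lhs => rw [h1]
    exact vx_append (by omega)
  rw [← hv, h3]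
  show _ = vx v d0 (s.take (i - 1)) ((s.take (i - 1)).length + 1)
  congr 1
  omega

/-- from the explorer from p and the bridge to the arc and the explorer from the top. -/
noncomputable def fwd (p q d0 : Pt) (a : List Bool × List Bool) : Pt × List Bool × List Bool :=
  (tip q d0 a.1,
    a.2 ++ ([tf a.1 (pos q d0 a.1 (tip p d0 a.2) - 1)] ++ rev (a.1.take (pos q d0 a.1 (tip p d0 a.2) - 1))),
    rev (a.1.drop (pos q d0 a.1 (tip p d0 a.2))))

/-- the inverse. -/
noncomputable def bwd (p d0 : Pt) (b : Pt × List Bool × List Bool) : List Bool × List Bool :=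
  (rev (b.2.1.drop (pos p d0 b.2.1 (tip b.1 (-d0) b.2.2))) ++
      ([tf b.2.1 (pos p d0 b.2.1 (tip b.1 (-d0) b.2.2) - 1)] ++ rev b.2.2),
    b.2.1.take (pos p d0 b.2.1 (tip b.1 (-d0) b.2.2) - 1))

lemma fwd_eq {Ω : Set Pt} {p q d0 : Pt} {l r m : List Bool} {c : Bool} (hs : Saw Ω q d0 (r ++ ([c] ++ m)))
    (ht : tip p d0 l = tip q d0 r) :
    fwd p q d0 (r ++ ([c] ++ m), l) = (tip q d0 (r ++ ([c] ++ m)), l ++ ([c] ++ rev r), rev m) := by
  obtain ⟨h1, h2, h3⟩ := cut_parts r c m
  unfold fwd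
  simp only [pos_cut hs ht, Nat.add_sub_cancel, h1, h2, h3]

lemma bwd_eq {Ω : Set Pt} {p d0 w : Pt} {l r e : List Bool} {c : Bool} (ha : Saw Ω p d0 (l ++ ([c] ++ r)))
    (ht : tip w (-d0) e = tip p d0 l) :
    bwd p d0 (w, l ++ ([c] ++ r), e) = (rev r ++ ([c] ++ rev e), l) := by
  obtain ⟨h1, h2, h3⟩ := cut_parts l c r
  unfold bwd
  simp only [pos_cut ha ht, Nat.add_sub_cancel, h1, h2, h3]

lemma off_line {Ω : Set Pt} {p q d0 : Pt} (hhp : ∀ v ∈ Ω, 0 < ip (v - p) d0) (hpq : ip (q - p) d0 = 0) :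
    ∀ v ∈ Ω, v ≠ q := by
  intro v hv hvp
  have := hhp v hv
  rw [hvp, hpq] at this
  exact lt_irrefl _ this

lemma off_self {Ω : Set Pt} {p d0 : Pt} (hhp : ∀ v ∈ Ω, 0 < ip (v - p) d0) : ∀ v ∈ Ω, v ≠ p := by
  intro v hv hvp
  have := hhp v hv
  rw [hvp, sub_self] at this
  simp [ip] at this

/-- forward direction, geometry. -/
theorem geoF {Ω : Finset Pt} {p q d0 : Pt} (hp : GoodDom Ω p d0) (hpq : ip (q - p) d0 = 0) (hne : p ≠ q)
    (hcl : cl p = cl q) {l r m : List Bool} {c : Bool} (hs : r ++ ([c] ++ m) ∈ Br (Ω : Set Pt) ∅ q d0)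
    (hl : Saw ((Ω : Set Pt) \ (∅ ∪ vis q d0 (r ++ ([c] ++ m)))) p d0 l) (ht : tip p d0 l = tip q d0 r) :
    l ++ ([c] ++ rev r) ∈ Arc (Ω : Set Pt) ∅ p d0 q ∧
    Saw ((Ω : Set Pt) \ (∅ ∪ vis p d0 (l ++ ([c] ++ rev r)))) (tip q d0 (r ++ ([c] ++ m))) (-d0) (rev m) ∧
    tip (tip q d0 (r ++ ([c] ++ m))) (-d0) (rev m) = tip p d0 l := by
  have hhp : ∀ v ∈ (Ω : Set Pt), 0 < ip (v - p) d0 := fun v hv => hp.half v hv
  obtain ⟨_, hd2, _, _⟩ := swap_geo hp.dir hhp hpq hne hcl hs hl ht
  have hs' := hs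
  obtain ⟨hs1, hs2, hs3⟩ := hs'
  have hslen : (r ++ ([c] ++ m)).length = r.length + 1 + m.length := by
    simp only [List.length_append, List.length_singleton]
    omega
  have er : ∀ i, i ≤ r.length + 1 → vx q d0 (r ++ ([c] ++ m)) i = vx q d0 r i := fun i hi => vx_append hi
  have hv : vx q d0 (r ++ ([c] ++ m)) (r.length + 1) = tip p d0 l := by
    rw [er _ le_rfl, ht]
    rfl
  have hvΩ : tip p d0 l ∈ Ω := by
    rw [← hv]
    exact (hs1.mem _ (by omega) (by omega)).1
  have hvis : ∀ i, 1 ≤ i → i ≤ l.length → ∀ k, 1 ≤ k → k ≤ r.length + 1 + m.length →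
      vx p d0 l i ≠ vx q d0 (r ++ ([c] ++ m)) k := by
    intro i hi hil k hk hkl he
    exact (hl.mem i hi hil).2 (Or.inr ⟨k, hk, by omega, he.symm⟩)
  obtain ⟨hex, hdir, htip⟩ := arc_exit (c := c) hhp hpq (l := l) (r := r)
    ⟨fun i hi hil => (hl.mem i hi hil).1, hl.inj⟩
    ⟨fun i hi hil => by
        have := (hs1.mem i hi (by omega)).1
        rwa [er i (by omega)] at this,
      fun i k hik hkl => by
        have := hs1.inj i k hik (by omega)
        rwa [er i (by omega), er k (by omega)] at this⟩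
    hvΩ
    (fun i hil => by
      rcases Nat.eq_zero_or_pos i with hi0 | hi0
      · rw [hi0]
        exact fun h => off_self hhp _ hvΩ h.symm
      · intro h
        exact hvis i hi0 hil (r.length + 1) (by omega) (by omega) (h.trans hv.symm))
    (fun i hir => by
      have := hs1.inj i (r.length + 1) (by omega) (by omega)
      rw [hv] at this
      rwa [er i (by omega)] at this)
    (fun i k hi hil hk hkr h => hvis i hi hil k hk (by omega) (by rw [er k (by omega), h]))
    ht hd2
  obtain ⟨hex1, hex2⟩ := mem_exits.1 hex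
  refine ⟨⟨⟨⟨fun i hi hil => ⟨hex1.mem i hi hil, Set.notMem_empty _⟩, hex1.inj⟩, hex2, hdir⟩, htip⟩, ?_, ?_⟩
  · obtain ⟨k1, _⟩ := rev_pre (v := q) (d0 := d0) (e := -d0) (r := r) (m := m) (c := c)
      (by rw [neg_neg]; exact hs3) rfl
    have hla : (l ++ ([c] ++ rev r)).length = l.length + 1 + r.length := by
      simp only [List.length_append, List.length_singleton, rev_length]
      omega
    have est : ∀ k, k ≤ r.length + 1 → vx p d0 (l ++ ([c] ++ rev r)) (l.length + 1 + k) =
        vx q d0 r (r.length + 1 - k) := by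
      intro k hk
      rw [(vx_split p d0 l c (rev r) k).1, hd2, ht]
      exact vx_rev q d0 r k hk
    constructor
    · intro i hi hil
      rw [rev_length] at hil
      rw [k1 i (by omega)]
      have hmem := hs1.mem (r.length + 1 + (m.length + 1) - i) (by omega) (by omega)
      refine ⟨hmem.1, ?_⟩
      rintro (h | ⟨k, hk, hkl, he⟩)
      · exact h
      · rw [hla] at hkl
        rcases Nat.lt_or_ge l.length k with h5 | h5
        · obtain ⟨k', rfl⟩ := Nat.exists_eq_add_of_le (show l.length + 1 ≤ k by omega)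
          rw [est k' (by omega), ← er _ (by omega)] at he
          exact hs1.inj (r.length + 1 - k') (r.length + 1 + (m.length + 1) - i) (by omega) (by omega) he
        · rw [vx_append (by omega)] at he
          exact hvis k hk h5 (r.length + 1 + (m.length + 1) - i) (by omega) (by omega) he
    · intro i k hik hkl
      rw [rev_length] at hkl
      rw [k1 i (by omega), k1 k (by omega)]
      rcases Nat.eq_zero_or_pos i with hi0 | hi0
      · rw [hi0, Nat.sub_zero]
        have e1 : r.length + 1 + (m.length + 1) = (r ++ ([c] ++ m)).length + 1 := by omega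
        intro he
        apply hs2
        show vx q d0 (r ++ ([c] ++ m)) ((r ++ ([c] ++ m)).length + 1) ∈ _
        rw [← e1, he]
        exact (hs1.mem _ (by omega) (by omega)).1
      · exact (hs1.inj _ _ (by omega) (by omega)).symm
  · obtain ⟨k1, _⟩ := rev_pre (v := q) (d0 := d0) (e := -d0) (r := r) (m := m) (c := c)
      (by rw [neg_neg]; exact hs3) rfl
    show vx _ _ (rev m) ((rev m).length + 1) = _
    rw [rev_length, k1 _ le_rfl, ← hv]
    congr 1
    omega

/-- backward direction, geometry. -/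
theorem geoB {Ω : Finset Pt} {p q d0 w : Pt} (h0 : d0 ∈ dirs) (hhp : ∀ v ∈ (Ω : Set Pt), 0 < ip (v - p) d0)
    (hpq : ip (q - p) d0 = 0) (hw1 : w ∉ Ω) (hw2 : cl w = cl p + cl d0)
    (hw3 : ∀ v ∈ Ω, 0 < ip (v - w) (-d0)) {l r e : List Bool} {c : Bool}
    (ha : l ++ ([c] ++ r) ∈ Arc (Ω : Set Pt) ∅ p d0 q)
    (he : Saw ((Ω : Set Pt) \ (∅ ∪ vis p d0 (l ++ ([c] ++ r)))) w (-d0) e) (ht : tip w (-d0) e = tip p d0 l) :
    rev r ++ ([c] ++ rev e) ∈ Br (Ω : Set Pt) ∅ q d0 ∧
    Saw ((Ω : Set Pt) \ (∅ ∪ vis q d0 (rev r ++ ([c] ++ rev e)))) p d0 l ∧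
    tip p d0 l = tip q d0 (rev r) ∧ tip q d0 (rev r ++ ([c] ++ rev e)) = w := by
  obtain ⟨⟨ha1, ha2, ha3⟩, ha4⟩ := ha
  have halen : (l ++ ([c] ++ r)).length = l.length + 1 + r.length := by
    simp only [List.length_append, List.length_singleton]
    omega
  have hslen : (rev r ++ ([c] ++ rev e)).length = r.length + 1 + e.length := by
    simp only [List.length_append, List.length_singleton, rev_length]
    omega
  have el : ∀ i, i ≤ l.length + 1 → vx p d0 (l ++ ([c] ++ r)) i = vx p d0 l i := fun i hi => vx_append hi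
  have hv : vx p d0 (l ++ ([c] ++ r)) (l.length + 1) = tip p d0 l := el _ le_rfl
  have hvΩ : tip p d0 l ∈ (Ω : Set Pt) := by
    rw [← hv]
    exact (ha1.mem _ (by omega) (by omega)).1
  have hqΩ := off_line hhp hpq
  have hpΩ := off_self hhp
  obtain ⟨k1, k2⟩ := rev_pre (v := p) (d0 := d0) (e := d0) (w := q) (r := l) (m := r) (c := c) ha3 ha4
  -- the end of the reversed r
  have htr : tip q d0 (rev r) = tip p d0 l := by
    show vx q d0 (rev r) ((rev r).length + 1) = _
    rw [rev_length, k1 _ le_rfl, ← hv]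
    congr 1
    omega
  have hdr : dx d0 (rev r) (rev r).length = - turn c (dx d0 l l.length) := by
    rw [rev_length, k2 _ le_rfl, Nat.add_sub_cancel]
    have := (vx_split p d0 l c r 0).2
    rw [add_zero] at this
    rw [this]
    rfl
  -- the three arrival directions at the tip
  have hU := dx_mem h0 l l.length
  have h0' : -d0 ∈ dirs := neg_dirs d0 h0
  have hE := dx_mem h0' e e.length
  have eU : vx p d0 l (l.length + 1) = vx p d0 l l.length + dx d0 l l.length := vx_succ _ _ _ _
  have eE : vx w (-d0) e (e.length + 1) = vx w (-d0) e e.length + dx (-d0) e e.length := vx_succ _ _ _ _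
  have ht' : vx w (-d0) e (e.length + 1) = vx p d0 l (l.length + 1) := ht
  have hcn : cl (-d0) = - cl d0 := by
    unfold cl
    simp only [Prod.fst_neg, Prod.snd_neg]
    push_cast
    ring
  have hc0 := cl_dir_ne h0
  have hpar : Even e.length ↔ ¬ Even l.length := by
    have a1 := cl_vx p d0 l (l.length + 1)
    have a2 := cl_vx w (-d0) e (e.length + 1)
    rw [ht', a1, hcn, hw2] at a2
    by_cases b1 : Even (l.length + 1) <;> by_cases b2 : Even (e.length + 1)
    · rw [if_pos b1, if_pos b2] at a2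
      exact absurd (by linear_combination -a2 : cl d0 = 0) hc0
    · rw [Nat.even_add_one] at b1 b2
      rw [not_not] at b2
      exact ⟨fun _ => b1, fun _ => b2⟩
    · rw [Nat.even_add_one] at b1 b2
      rw [not_not] at b1
      exact ⟨fun h => absurd h b2, fun h => absurd b1 h⟩
    · rw [if_neg b1, if_neg b2] at a2
      exact absurd (by linear_combination a2 : cl d0 = 0) hc0
  have hcd : cl (dx (-d0) e e.length) = cl (dx d0 l l.length) := by
    rw [cl_dx, cl_dx, hcn]
    by_cases h : Even l.length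
    · rw [if_pos h, if_neg (fun h2 => hpar.1 h2 h), neg_neg]
    · rw [if_neg h, if_pos (hpar.2 h)]
  have hwq : w ≠ q := by
    intro h
    have h1 := hw3 _ hvΩ
    have h2 := hhp _ hvΩ
    have e1 : tip p d0 l - p = (tip p d0 l - q) + (q - p) := by abel
    have e2 : ip (tip p d0 l - p) d0 = ip (tip p d0 l - q) d0 := by
      rw [e1, ip_add_left, hpq, add_zero]
    rw [h, ip_comm, ip_neg_left, ip_comm] at h1
    rw [e2] at h2
    omega
  have hwp : w ≠ p := by
    intro h
    have h1 := hw3 _ hvΩ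
    have h2 := hhp _ hvΩ
    rw [h, ip_comm, ip_neg_left, ip_comm] at h1
    omega
  -- the vertex before the tip on e is not on the arc
  have hpre : ∀ k, k ≤ l.length + 1 + (r.length + 1) → vx w (-d0) e e.length ≠ vx p d0 (l ++ ([c] ++ r)) k := by
    intro k hk h
    rcases Nat.eq_zero_or_pos e.length with he0 | he0
    · have hh : vx w (-d0) e e.length = w := by
        rw [he0]
        rfl
      rw [hh] at h
      rcases Nat.eq_zero_or_pos k with hk0 | hk0
      · rw [hk0] at h
        exact hwp h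
      · rcases Nat.lt_or_ge (l.length + 1 + r.length) k with hk1 | hk1
        · have e3 : k = (l ++ ([c] ++ r)).length + 1 := by omega
          rw [e3] at h
          exact hwq (h.trans ha4)
        · apply hw1
          rw [h]
          exact (ha1.mem k hk0 (by omega)).1
    · have hm := he.mem e.length he0 le_rfl
      rcases Nat.eq_zero_or_pos k with hk0 | hk0
      · rw [hk0] at h
        exact hpΩ _ hm.1 h
      · rcases Nat.lt_or_ge (l.length + 1 + r.length) k with hk1 | hk1
        · have e3 : k = (l ++ ([c] ++ r)).length + 1 := by omega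
          rw [e3] at h
          exact hqΩ _ hm.1 (h.trans ha4)
        · exact hm.2 (Or.inr ⟨k, hk0, by omega, h.symm⟩)
  have hEU : dx (-d0) e e.length ≠ dx d0 l l.length := by
    intro h
    apply hpre l.length (by omega)
    rw [el _ (by omega)]
    rw [eE, eU, h] at ht'
    exact add_right_cancel ht'
  have hES : dx (-d0) e e.length ≠ - turn c (dx d0 l l.length) := by
    intro h
    apply hpre (l.length + 1 + 1) (by omega)
    have h1 : vx p d0 (l ++ ([c] ++ r)) (l.length + 1 + 1) =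
        vx p d0 (l ++ ([c] ++ r)) (l.length + 1) + dx d0 (l ++ ([c] ++ r)) (l.length + 1) := vx_succ _ _ _ _
    have h2 : dx d0 (l ++ ([c] ++ r)) (l.length + 1) = turn c (dx d0 l l.length) := by
      have := (vx_split p d0 l c r 0).2
      rw [add_zero] at this
      rw [this]
      rfl
    rw [h1, h2, hv]
    have h3 : tip p d0 l = vx w (-d0) e e.length + dx (-d0) e e.length := by
      rw [← ht]
      exact eE
    rw [h3, h]
    abel
  have hfork := fork_dirs _ hU _ hE c hcd hEU hES
  -- the vertices of the bridge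
  have est : ∀ k, k ≤ e.length + 1 →
      vx q d0 (rev r ++ ([c] ++ rev e)) (r.length + 1 + k) = vx w (-d0) e (e.length + 1 - k) := by
    intro k hk
    have h1 := (vx_split q d0 (rev r) c (rev e) k).1
    rw [rev_length] at h1
    rw [h1, htr, ← rev_length r, hdr, hfork, ← ht]
    exact vx_rev w (-d0) e k hk
  have esd : ∀ k, k ≤ e.length →
      dx d0 (rev r ++ ([c] ++ rev e)) (r.length + 1 + k) = - dx (-d0) e (e.length - k) := by
    intro k hk
    have h1 := (vx_split q d0 (rev r) c (rev e) k).2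
    rw [rev_length] at h1
    rw [h1, ← rev_length r, hdr, hfork]
    exact dx_rev (-d0) e k hk
  have esr : ∀ k, k ≤ r.length + 1 →
      vx q d0 (rev r ++ ([c] ++ rev e)) k = vx p d0 (l ++ ([c] ++ r)) (l.length + 1 + (r.length + 1) - k) := by
    intro k hk
    rw [vx_append (by rw [rev_length]; omega), k1 k hk]
  refine ⟨⟨⟨?_, ?_⟩, ?_, ?_⟩, ⟨?_, ?_⟩, htr.symm, ?_⟩
  · intro i hi hil
    rw [hslen] at hil
    refine ⟨?_, Set.notMem_empty _⟩
    rcases Nat.lt_or_ge (r.length + 1) i with h | h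
    · obtain ⟨k, rfl⟩ := Nat.exists_eq_add_of_le (show r.length + 1 ≤ i by omega)
      rw [est k (by omega)]
      exact (he.mem _ (by omega) (by omega)).1
    · rw [esr i h]
      exact (ha1.mem _ (by omega) (by omega)).1
  · intro i k hik hkl
    rw [hslen] at hkl
    rcases Nat.lt_or_ge (r.length + 1) k with h | h
    · obtain ⟨k', rfl⟩ := Nat.exists_eq_add_of_le (show r.length + 1 ≤ k by omega)
      rw [est k' (by omega)]
      rcases Nat.lt_or_ge (r.length + 1) i with h2 | h2
      · obtain ⟨i', rfl⟩ := Nat.exists_eq_add_of_le (show r.length + 1 ≤ i by omega)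
        rw [est i' (by omega)]
        exact (he.inj _ _ (by omega) (by omega)).symm
      · rw [esr i h2]
        have hm := he.mem (e.length + 1 - k') (by omega) (by omega)
        rcases Nat.eq_zero_or_pos i with hi0 | hi0
        · intro h3
          rw [hi0, Nat.sub_zero] at h3
          have e3 : l.length + 1 + (r.length + 1) = (l ++ ([c] ++ r)).length + 1 := by omega
          rw [e3] at h3
          exact hqΩ _ hm.1 (h3.symm.trans ha4)
        · intro h3
          exact hm.2 (Or.inr ⟨_, by omega, by omega, h3⟩)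
    · rw [esr i (by omega), esr k h]
      rcases Nat.eq_zero_or_pos i with hi0 | hi0
      · intro h3
        rw [hi0, Nat.sub_zero] at h3
        have e3 : l.length + 1 + (r.length + 1) = (l ++ ([c] ++ r)).length + 1 := by omega
        exact hqΩ _ (ha1.mem (l.length + 1 + (r.length + 1) - k) (by omega) (by omega)).1
          (h3.symm.trans (by rw [e3]; exact ha4))
      · exact (ha1.inj _ _ (by omega) (by omega)).symm
  · show vx q d0 _ ((rev r ++ ([c] ++ rev e)).length + 1) ∉ _
    have e3 : (rev r ++ ([c] ++ rev e)).length + 1 = r.length + 1 + (e.length + 1) := by omega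
    rw [e3, est _ le_rfl, Nat.sub_self]
    exact hw1
  · rw [hslen, esd _ le_rfl, Nat.sub_self]
    show - -d0 = d0
    rw [neg_neg]
  · intro i hi hil
    have hm := ha1.mem i hi (by omega)
    rw [el i (by omega)] at hm
    refine ⟨hm.1, ?_⟩
    rintro (h | ⟨k, hk, hkl, h⟩)
    · exact h
    · rw [hslen] at hkl
      rcases Nat.lt_or_ge (r.length + 1) k with h5 | h5
      · obtain ⟨k', rfl⟩ := Nat.exists_eq_add_of_le (show r.length + 1 ≤ k by omega)
        rw [est k' (by omega), ← el i (by omega)] at h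
        exact (he.mem (e.length + 1 - k') (by omega) (by omega)).2 (Or.inr ⟨i, hi, by omega, h.symm⟩)
      · rw [esr k h5, ← el i (by omega)] at h
        exact ha1.inj i _ (by omega) (by omega) h.symm
  · intro i k hik hkl
    have := ha1.inj i k hik (by omega)
    rwa [el i (by omega), el k (by omega)] at this
  · show vx q d0 _ ((rev r ++ ([c] ++ rev e)).length + 1) = _
    have e3 : (rev r ++ ([c] ++ rev e)).length + 1 = r.length + 1 + (e.length + 1) := by omega
    rw [e3, est _ le_rfl, Nat.sub_self]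
    rfl

end SwapB

open SwapB

/-- THE SWAP with an explorer from the top: q is on the right of p. -/
theorem swapB {Ω : Finset Pt} {p q d0 : Pt} (hp : GoodDom Ω p d0) (hq : GoodDom Ω q d0)
    (hpq : ip (q - p) d0 = 0) (hcl : cl p = cl q) (hright : cross d0 (q - p) < 0) {Tp : Finset Pt}
    (hT1 : ∀ s ∈ Br (Ω : Set Pt) ∅ q d0, tip q d0 s ∈ Tp)
    (hT2 : ∀ w ∈ Tp, w ∉ Ω ∧ cl w = cl p + cl d0 ∧ ∀ v ∈ Ω, 0 < ip (v - w) (-d0)) (f : ℤ → ℝ) :
    ZhE Ω ∅ p q d0 Set.univ f = ZB Ω p q d0 Tp (fun w => f (w - 1)) := by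
  have hne : p ≠ q := by
    rintro rfl
    rw [sub_self] at hright
    simp [cross] at hright
  have hhp : ∀ v ∈ (Ω : Set Pt), 0 < ip (v - p) d0 := fun v hv => hp.half v hv
  have hmA : ∀ t, t ∈ fam Ω p d0 (Arc (Ω : Set Pt) ∅ p d0 q) ↔ t ∈ Arc (Ω : Set Pt) ∅ p d0 q := by
    intro t
    rw [mem_fam]
    exact ⟨fun h => h.2, fun h => ⟨saw_arr h.1.1, h⟩⟩
  unfold ZhE ZB
  rw [Finset.sum_sigma']
  have e1 : ∀ w ∈ Tp, ∑ a ∈ fam Ω p d0 (Arc (Ω : Set Pt) ∅ p d0 q), ∑ e ∈ hitF Ω ∅ (vis p d0 a) w (-d0),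
      xc ^ (a.length + e.length) * f (wind e - 1) =
      ∑ b ∈ (fam Ω p d0 (Arc (Ω : Set Pt) ∅ p d0 q)).sigma (fun a => hitF Ω ∅ (vis p d0 a) w (-d0)),
        xc ^ (b.1.length + b.2.length) * f (wind b.2 - 1) := by
    intro w _
    rw [Finset.sum_sigma']
  rw [Finset.sum_congr rfl e1, Finset.sum_sigma']
  refine Finset.sum_bij'
    (fun a _ => ⟨(fwd p q d0 (a.1, a.2)).1, ⟨(fwd p q d0 (a.1, a.2)).2.1, (fwd p q d0 (a.1, a.2)).2.2⟩⟩)
    (fun b _ => ⟨(bwd p d0 (b.1, b.2.1, b.2.2)).1, (bwd p d0 (b.1, b.2.1, b.2.2)).2⟩) ?_ ?_ ?_ ?_ ?_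
  · rintro ⟨s, u⟩ ha
    rw [Finset.mem_sigma] at ha
    simp only at ha
    rw [brE_univ, mem_brF, mem_hitF] at ha
    obtain ⟨hs, hu, ht⟩ := ha
    obtain ⟨r, c, m, rfl, ht'⟩ := pieces ht
    obtain ⟨g1, g2, g3⟩ := geoF hp hpq hne hcl hs hu ht'
    rw [Finset.mem_sigma]
    simp only [fwd_eq hs.1 ht']
    rw [Finset.mem_sigma]
    simp only
    rw [hmA, mem_hitF]
    refine ⟨hT1 _ hs, g1, g2, u.length + 1, by omega, by simp, ?_⟩
    rw [vx_append le_rfl, g3]
    rfl
  · rintro ⟨w, a, e⟩ ha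
    rw [Finset.mem_sigma] at ha
    simp only at ha
    rw [Finset.mem_sigma] at ha
    simp only at ha
    rw [hmA, mem_hitF] at ha
    obtain ⟨hw, ha, he, ht⟩ := ha
    obtain ⟨l, c, r, rfl, ht'⟩ := pieces ht
    obtain ⟨h1, h2, h3⟩ := hT2 w hw
    obtain ⟨g1, g2, g3, g4⟩ := geoB hp.dir hhp hpq h1 h2 h3 ha he ht'
    rw [Finset.mem_sigma]
    simp only [bwd_eq ha.1.1 ht']
    rw [brE_univ, mem_brF, mem_hitF]
    refine ⟨g1, g2, (rev r).length + 1, by omega, by simp, ?_⟩
    rw [vx_append le_rfl, g3]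
    rfl
  · rintro ⟨s, u⟩ ha
    rw [Finset.mem_sigma] at ha
    simp only at ha
    rw [brE_univ, mem_brF, mem_hitF] at ha
    obtain ⟨hs, hu, ht⟩ := ha
    obtain ⟨r, c, m, rfl, ht'⟩ := pieces ht
    obtain ⟨g1, g2, g3⟩ := geoF hp hpq hne hcl hs hu ht'
    simp only [fwd_eq hs.1 ht', bwd_eq g1.1.1 g3, rev_rev]
  · rintro ⟨w, a, e⟩ ha
    rw [Finset.mem_sigma] at ha
    simp only at ha
    rw [Finset.mem_sigma] at ha
    simp only at ha
    rw [hmA, mem_hitF] at ha
    obtain ⟨hw, ha, he, ht⟩ := ha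
    obtain ⟨l, c, r, rfl, ht'⟩ := pieces ht
    obtain ⟨h1, h2, h3⟩ := hT2 w hw
    obtain ⟨g1, g2, g3, g4⟩ := geoB hp.dir hhp hpq h1 h2 h3 ha he ht'
    simp only [bwd_eq ha.1.1 ht', fwd_eq g1.1 g3, rev_rev, g4]
  · rintro ⟨s, u⟩ ha
    rw [Finset.mem_sigma] at ha
    simp only at ha
    rw [brE_univ, mem_brF, mem_hitF] at ha
    obtain ⟨hs, hu, ht⟩ := ha
    obtain ⟨r, c, m, rfl, ht'⟩ := pieces ht
    obtain ⟨g1, g2, g3⟩ := geoF hp hpq hne hcl hs hu ht'
    simp only [fwd_eq hs.1 ht']
    have w1 := br_wind hq hs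
    have w2 := swap_wind hp hq hpq hcl hright hs hu ht'
    have w3 : wind (u ++ ([c] ++ rev r)) = -3 := by
      rcases hp.bottom (mem_exits.2 ⟨saw_arr g1.1.1, g1.1.2.1⟩) g1.1.2.2 with ⟨k1, k2⟩ | ⟨k1, k2⟩
      · rw [g1.2] at k1
        exact absurd k1 (not_lt.2 hright.le)
      · exact k2
    rw [wind_append, wind_cons, wind_rev] at w3
    rw [wind_append, wind_cons] at w1
    have w4 : wind u = wind (rev m) - 1 := by
      rw [wind_rev]
      omega
    rw [← w4]
    congr 2
    simp only [List.length_append, List.length_singleton, rev_length]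
    omega

end RC

end HexObs
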